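import Pool.Agent.T2H92.SR.Bwd

set_option autoImplicit false

open scoped Manifold ContDiff InnerProductSpace RealInnerProductSpace Matrix Topology
open Set

namespace Pool.Agent.T2H92.SR

theorem isCompact_O8 : IsCompact ((O8 : Submonoid (Matrix (Fin 8) (Fin 8) ℝ)) :
    Set (Matrix (Fin 8) (Fin 8) ℝ)) := by
  have h1 : IsClosed ((O8 : Submonoid (Matrix (Fin 8) (Fin 8) ℝ)) :
    Set (Matrix (Fin 8) (Fin 8) ℝ)) := isClosed_unitary
  have h2 : IsCompact (Set.pi univ fun _ : Fin 8 => Set.pi univ fun _ : Fin 8 =>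
      Set.Icc (-1 : ℝ) 1) :=
    isCompact_univ_pi fun _ => isCompact_univ_pi fun _ => isCompact_Icc
  refine h2.of_isClosed_subset h1 fun U hU i _ j _ => ?_
  have := entry_norm_bound_of_unitary hU i j
  rw [Real.norm_eq_abs, abs_le] at this
  exact this

instance : CompactSpace O8 := isCompact_iff_compactSpace.1 isCompact_O8

theorem isClosed_linGroup (A : Fin 4 → Matrix (Fin 8) (Fin 8) ℝ) :
    IsClosed (linGroup A : Set O8) := by
  have h1 : (linGroup A : Set O8) = ⋂ k, {g : O8 | (g : Matrix (Fin 8) (Fin 8) ℝ) * A k *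
      (g : Matrix (Fin 8) (Fin 8) ℝ)ᵀ ∈ Submodule.span ℝ (Set.range A)} := by
    ext g
    simp only [mem_iInter, mem_ofPred_eq]
    exact mem_linGroup
  rw [h1]
  refine isClosed_iInter fun k => ?_
  have h2 : IsClosed (Submodule.span ℝ (Set.range A) : Set (Matrix (Fin 8) (Fin 8) ℝ)) := by
    have : FiniteDimensional ℝ (Submodule.span ℝ (Set.range A)) :=
      FiniteDimensional.span_of_finite ℝ (Set.finite_range A)
    exact Submodule.closed_of_finiteDimensional _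
  refine h2.preimage (f := fun g : O8 => (g : Matrix (Fin 8) (Fin 8) ℝ) * A k *
      (g : Matrix (Fin 8) (Fin 8) ℝ)ᵀ) ?_
  fun_prop

instance (A : Fin 4 → Matrix (Fin 8) (Fin 8) ℝ) : CompactSpace (linGroup A) :=
  isCompact_iff_compactSpace.1 (isClosed_linGroup A).isCompact

/-- the linear action as a group homomorphism -/
noncomputable def Theta (A : Fin 4 → Matrix (Fin 8) (Fin 8) ℝ) : linGroup A →* (S7 ≃ₜ S7) where
  toFun g := (actD g).toHomeomorph
  map_one' := Homeomorph.ext fun x => act_one x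
  map_mul' g h := Homeomorph.ext fun x => act_mul g h x

theorem Theta_apply {A : Fin 4 → Matrix (Fin 8) (Fin 8) ℝ} (g : linGroup A) (x : S7) :
    (Theta A g x : E8) = cl g x := rfl

theorem Theta_injective (A : Fin 4 → Matrix (Fin 8) (Fin 8) ℝ) :
    Function.Injective (Theta A) := by
  intro g h hgh
  apply Subtype.ext
  apply Subtype.ext
  rw [← cl_inj]
  refine ContinuousLinearMap.ext fun z => ?_
  by_cases hz : z = 0
  · rw [hz, map_zero, map_zero]
  · have h1 : ∀ x : S7, cl g x = cl h x := fun x => by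
      rw [← Theta_apply g x, ← Theta_apply h x, hgh]
    have h2 := h1 ⟨(‖z‖⁻¹ : ℝ) • z, norm_inv_smul_mem hz⟩
    have h3 : z = ‖z‖ • ((‖z‖⁻¹ : ℝ) • z) := by
      rw [smul_smul, mul_inv_cancel₀ (norm_ne_zero_iff.2 hz), one_smul]
    calc cl g z = cl g (‖z‖ • ((‖z‖⁻¹ : ℝ) • z)) := by rw [← h3]
      _ = ‖z‖ • cl g ((‖z‖⁻¹ : ℝ) • z) := (cl g).map_smul _ _
      _ = ‖z‖ • cl h ((‖z‖⁻¹ : ℝ) • z) := congrArg (fun y => ‖z‖ • y) h2
      _ = cl h (‖z‖ • ((‖z‖⁻¹ : ℝ) • z)) := ((cl h).map_smul _ _).symm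
      _ = cl h z := by rw [← h3]

theorem range_Theta {A : Fin 4 → Matrix (Fin 8) (Fin 8) ℝ} (hA : IsCliffordQuadruple A) :
    Set.range (Theta A) =
      {f | ∃ φ : S7 ≃ₘ⟮𝓡 7, 𝓡 7⟯ S7, IsSRIsometry A φ ∧ φ.toHomeomorph = f} := by
  ext f
  constructor
  · rintro ⟨g, rfl⟩
    exact ⟨actD g, backward g g.2, rfl⟩
  · rintro ⟨φ, hφ, rfl⟩
    obtain ⟨g, hg, hφg⟩ := forward hA hφ
    refine ⟨⟨g, hg⟩, Homeomorph.ext fun x => Subtype.ext ?_⟩
    exact (hφg x).symm

theorem isClosedEmbedding_Theta (A : Fin 4 → Matrix (Fin 8) (Fin 8) ℝ) :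
    Topology.IsClosedEmbedding fun g : linGroup A => (Theta A g : C(S7, S7)) := by
  have hcont : Continuous fun g : linGroup A => (Theta A g : C(S7, S7)) := by
    refine ContinuousMap.continuous_of_continuous_uncurry _ ?_
    rw [continuous_induced_rng]
    have h1 : Continuous fun p : linGroup A × S7 =>
        WithLp.toLp 2 ((p.1 : Matrix (Fin 8) (Fin 8) ℝ) *ᵥ WithLp.ofLp (p.2 : E8)) := by
      fun_prop
    exact h1
  refine hcont.isClosedEmbedding fun g h hgh => Theta_injective A ?_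
  refine Homeomorph.ext fun x => ?_
  exact congrArg (fun f : C(S7, S7) => f x) hgh

/-- matrices as operators, linearly -/
noncomputable def clL : Matrix (Fin 8) (Fin 8) ℝ ≃ₗ[ℝ] (E8 →L[ℝ] E8) where
  toFun := cl
  invFun := (Matrix.toEuclideanCLM (n := Fin 8) (𝕜 := ℝ)).symm
  map_add' := cl_add
  map_smul' := cl_smul
  left_inv := (Matrix.toEuclideanCLM (n := Fin 8) (𝕜 := ℝ)).symm_apply_apply
  right_inv := (Matrix.toEuclideanCLM (n := Fin 8) (𝕜 := ℝ)).apply_symm_apply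

theorem clL_apply (M : Matrix (Fin 8) (Fin 8) ℝ) : clL M = cl M := rfl

theorem continuous_cl : Continuous (cl : Matrix (Fin 8) (Fin 8) ℝ → E8 →L[ℝ] E8) :=
  clL.toLinearMap.continuous_of_finiteDimensional

/-- the Lie algebra of `linGroup A` -/
noncomputable def lieA (A : Fin 4 → Matrix (Fin 8) (Fin 8) ℝ) :
    Submodule ℝ (Matrix (Fin 8) (Fin 8) ℝ) := (kk (TT A)).comap clL.toLinearMap

theorem finrank_lieA {A : Fin 4 → Matrix (Fin 8) (Fin 8) ℝ} (hA : IsCliffordQuadruple A) :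
    Module.finrank ℝ (lieA A) = 9 := by
  have h1 : lieA A = (kk (TT A)).map clL.symm.toLinearMap := by
    ext M
    constructor
    · intro h
      exact ⟨cl M, h, clL.symm_apply_apply M⟩
    · rintro ⟨Z, hZ, rfl⟩
      show clL (clL.symm Z) ∈ kk (TT A)
      rwa [clL.apply_symm_apply]
  rw [h1, LinearEquiv.finrank_map_eq, (cliff_TT hA).finrank_kk finrank_E8]

theorem cl_exp (M : Matrix (Fin 8) (Fin 8) ℝ) :
    cl (NormedSpace.exp M) = NormedSpace.exp (cl M) := by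
  let _ : NormedRing (Matrix (Fin 8) (Fin 8) ℝ) := Matrix.linftyOpNormedRing
  let _ : NormedAlgebra ℝ (Matrix (Fin 8) (Fin 8) ℝ) := Matrix.linftyOpNormedAlgebra
  let _ : NormedAlgebra ℚ (Matrix (Fin 8) (Fin 8) ℝ) := NormedAlgebra.restrictScalars ℚ ℝ _
  have hc : Continuous (Matrix.toEuclideanCLM (n := Fin 8) (𝕜 := ℝ)) := continuous_cl
  exact NormedSpace.map_exp (Matrix.toEuclideanCLM (n := Fin 8) (𝕜 := ℝ)) hc M

theorem mem_lieA {A : Fin 4 → Matrix (Fin 8) (Fin 8) ℝ} {Z : Matrix (Fin 8) (Fin 8) ℝ} :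
    Z ∈ lieA A ↔ ∀ t : ℝ, ∃ g ∈ linGroup A,
      (g : Matrix (Fin 8) (Fin 8) ℝ) = NormedSpace.exp (t • Z) := by
  show cl Z ∈ kk (TT A) ↔ _
  rw [← exp_mem_iff]
  refine forall_congr' fun t => ?_
  rw [← cl_smul, ← cl_exp]
  constructor
  · intro h
    have h1 : NormedSpace.exp (t • Z) ∈ O8 := by
      rw [Matrix.mem_orthogonalGroup_iff, ← cl_inj, cl_mul]
      show _ * cl (NormedSpace.exp (t • Z))ᵀ = _
      rw [cl_transpose, cl_one]
      exact h.2.1
    exact ⟨⟨_, h1⟩, mem_linGroup_iff.2 h, rfl⟩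
  · rintro ⟨g, hg, hgZ⟩
    rw [← hgZ]
    exact mem_linGroup_iff.1 hg

end Pool.Agent.T2H92.SR
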