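import Pool.Agent.T2H92.SR.LocalExp

set_option autoImplicit false

open scoped Manifold ContDiff Topology
open Set

namespace Pool.Agent.T2H92.LG

variable {𝔸 : Type*} [NormedRing 𝔸] [NormedAlgebra ℝ 𝔸] [CompleteSpace 𝔸]
variable {V : Type*} [NormedAddCommGroup V] [NormedSpace ℝ V]
variable {G : Type*} [Group G] [TopologicalSpace G] [IsTopologicalGroup G]

/-- an embedded group with a linear exponential chart near `1` -/
structure ExpGroup (ρ : G → 𝔸) (L : V →L[ℝ] 𝔸) (P : 𝔸 →L[ℝ] V) : Prop where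
  mul : ∀ g h, ρ (g * h) = ρ g * ρ h
  one : ρ 1 = 1
  emb : Topology.IsEmbedding ρ
  left : ∀ v, P (L v) = v
  exp_mem : ∀ v, ∃ g, ρ g = NormedSpace.exp (L v)
  log_mem : ∃ N : Set 𝔸, IsOpen N ∧ (1 : 𝔸) ∈ N ∧ ∀ g, ρ g ∈ N →
    L (P ((lg 𝔸).symm (ρ g))) = (lg 𝔸).symm (ρ g)

namespace ExpGroup

variable {ρ : G → 𝔸} {L : V →L[ℝ] 𝔸} {P : 𝔸 →L[ℝ] V} (h : ExpGroup ρ L P)

include h in
omit [IsTopologicalGroup G] in
theorem mul_inv' (g : G) : ρ g * ρ g⁻¹ = 1 := by rw [← h.mul, mul_inv_cancel, h.one]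

include h in
omit [IsTopologicalGroup G] in
theorem inv_mul' (g : G) : ρ g⁻¹ * ρ g = 1 := by rw [← h.mul, inv_mul_cancel, h.one]

/-- the group element over `exp (L v)` -/
noncomputable def ex (v : V) : G := Classical.choose (h.exp_mem v)

omit [IsTopologicalGroup G] in
theorem ρ_ex (v : V) : ρ (h.ex v) = NormedSpace.exp (L v) := Classical.choose_spec (h.exp_mem v)

/-- the neighbourhood of `1` -/
noncomputable def nb : Set 𝔸 := Classical.choose h.log_mem

omit [IsTopologicalGroup G] in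
theorem isOpen_nb : IsOpen h.nb := (Classical.choose_spec h.log_mem).1

omit [IsTopologicalGroup G] in
theorem one_mem_nb : (1 : 𝔸) ∈ h.nb := (Classical.choose_spec h.log_mem).2.1

omit [IsTopologicalGroup G] in
theorem log_nb {g : G} (hg : ρ g ∈ h.nb) :
    L (P ((lg 𝔸).symm (ρ g))) = (lg 𝔸).symm (ρ g) := (Classical.choose_spec h.log_mem).2.2 g hg

/-- the chart at `1` -/
noncomputable def c1 : OpenPartialHomeomorph G V where
  toFun g := P ((lg 𝔸).symm (ρ g))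
  invFun v := h.ex v
  source := {g | ρ g ∈ (lg 𝔸).target ∩ h.nb}
  target := {v | L v ∈ (lg 𝔸).source ∧ NormedSpace.exp (L v) ∈ h.nb}
  map_source' := by
    rintro g ⟨hg1, hg2⟩
    show L (P ((lg 𝔸).symm (ρ g))) ∈ _ ∧ NormedSpace.exp (L (P ((lg 𝔸).symm (ρ g)))) ∈ _
    rw [h.log_nb hg2, ← lg_apply, (lg 𝔸).right_inv hg1]
    exact ⟨(lg 𝔸).map_target hg1, hg2⟩
  map_target' := by
    rintro v ⟨hv1, hv2⟩
    show ρ (h.ex v) ∈ (lg 𝔸).target ∩ h.nb
    rw [h.ρ_ex]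
    refine ⟨?_, hv2⟩
    rw [← lg_apply]
    exact (lg 𝔸).map_source hv1
  left_inv' := by
    rintro g ⟨hg1, hg2⟩
    apply h.emb.injective
    rw [h.ρ_ex, h.log_nb hg2, ← lg_apply, (lg 𝔸).right_inv hg1]
  right_inv' := by
    rintro v ⟨hv1, hv2⟩
    show P ((lg 𝔸).symm (ρ (h.ex v))) = v
    rw [h.ρ_ex, ← lg_apply, (lg 𝔸).left_inv hv1, h.left]
  open_source := ((lg 𝔸).open_target.inter h.isOpen_nb).preimage h.emb.continuous
  open_target := by
    refine ((lg 𝔸).open_source.preimage L.continuous).inter (h.isOpen_nb.preimage ?_)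
    exact contDiff_exp.continuous.comp L.continuous
  continuousOn_toFun := by
    intro g hg
    refine ContinuousAt.continuousWithinAt ?_
    exact P.continuous.continuousAt.comp
      (((lg 𝔸).continuousAt_symm hg.1).comp h.emb.continuous.continuousAt)
  continuousOn_invFun := by
    refine Continuous.continuousOn ?_
    rw [h.emb.continuous_iff]
    have : ρ ∘ h.ex = fun v => NormedSpace.exp (L v) := funext h.ρ_ex
    rw [this]
    exact contDiff_exp.continuous.comp L.continuous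

omit [IsTopologicalGroup G] in
theorem one_mem_c1 : (1 : G) ∈ h.c1.source := by
  show ρ 1 ∈ (lg 𝔸).target ∩ h.nb
  rw [h.one]
  exact ⟨one_mem_lg, h.one_mem_nb⟩

/-- the chart at `g` -/
noncomputable def cg (g : G) : OpenPartialHomeomorph G V :=
  (Homeomorph.mulLeft g⁻¹).toOpenPartialHomeomorph.trans h.c1

theorem cg_apply (g x : G) : h.cg g x = P ((lg 𝔸).symm (ρ (g⁻¹ * x))) := rfl

theorem cg_symm_apply (g : G) (v : V) : (h.cg g).symm v = g * h.ex v := by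
  show (g⁻¹)⁻¹ * h.ex v = g * h.ex v
  rw [inv_inv]

theorem mem_cg_source (g : G) : g ∈ (h.cg g).source := by
  rw [cg, OpenPartialHomeomorph.trans_source]
  refine ⟨mem_univ _, ?_⟩
  show g⁻¹ * g ∈ h.c1.source
  rw [inv_mul_cancel]
  exact h.one_mem_c1

/-- the atlas -/
@[reducible] noncomputable def cs : ChartedSpace V G where
  atlas := Set.range h.cg
  chartAt := h.cg
  mem_chart_source := h.mem_cg_source
  chart_mem_atlas g := ⟨g, rfl⟩

/-- coordinate changes are smooth -/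
theorem contDiffAt_change (g g' : G) {v : V}
    (hv : ρ (g'⁻¹ * (g * h.ex v)) ∈ (lg 𝔸).target) :
    ContDiffAt ℝ ω (fun v => P ((lg 𝔸).symm (ρ (g'⁻¹ * (g * h.ex v))))) v := by
  have e : ∀ v, ρ (g'⁻¹ * (g * h.ex v)) = ρ (g'⁻¹ * g) * NormedSpace.exp (L v) := by
    intro v
    rw [← mul_assoc, h.mul, h.ρ_ex]
  simp only [e] at hv ⊢
  have h1 : ContDiff ℝ ω fun v => ρ (g'⁻¹ * g) * NormedSpace.exp (L v) :=
    contDiff_const.mul (contDiff_exp.comp L.contDiff)
  exact P.contDiff.contDiffAt.comp v ((contDiffAt_lg_symm hv).comp v h1.contDiffAt)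

theorem isManifold : letI := h.cs; IsManifold 𝓘(ℝ, V) ω G := by
  let _ := h.cs
  refine isManifold_of_contDiffOn _ _ _ ?_
  rintro _ _ ⟨g, rfl⟩ ⟨g', rfl⟩
  intro v hv
  refine ContDiffAt.contDiffWithinAt ?_
  have hv1 : v ∈ ((h.cg g).symm ≫ₕ (h.cg g')).source := hv.1
  rw [OpenPartialHomeomorph.trans_source] at hv1
  have hv2 : (h.cg g).symm v ∈ (h.cg g').source := hv1.2
  rw [cg_symm_apply] at hv2
  have hv3 : ρ (g'⁻¹ * (g * h.ex v)) ∈ (lg 𝔸).target := by
    rw [cg, OpenPartialHomeomorph.trans_source] at hv2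
    exact hv2.2.1
  have h1 := h.contDiffAt_change g g' hv3
  refine h1.congr_of_eventuallyEq (Filter.Eventually.of_forall fun w => ?_)
  show h.cg g' ((h.cg g).symm w) = _
  rw [cg_symm_apply, cg_apply]

/-- the embedding is smooth -/
theorem contMDiff_ρ : letI := h.cs; ContMDiff 𝓘(ℝ, V) 𝓘(ℝ, 𝔸) ω ρ := by
  letI := h.cs
  intro g
  rw [contMDiffAt_iff]
  refine ⟨h.emb.continuous.continuousAt, ?_⟩
  have e : (extChartAt 𝓘(ℝ, 𝔸) (ρ g) ∘ ρ ∘ (extChartAt 𝓘(ℝ, V) g).symm) =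
      fun v => ρ g * NormedSpace.exp (L v) := by
    funext v
    show ρ ((h.cg g).symm v) = _
    rw [cg_symm_apply, h.mul, h.ρ_ex]
  rw [e]
  exact (contDiff_const.mul (contDiff_exp.comp L.contDiff)).contDiffAt.contDiffWithinAt

/-- a map into the group is smooth if its composition with the embedding is -/
theorem contMDiff_of {E' H' M : Type*} [NormedAddCommGroup E'] [NormedSpace ℝ E']
    [TopologicalSpace H'] [TopologicalSpace M] [ChartedSpace H' M] {I : ModelWithCorners ℝ E' H'}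
    {f : M → G} (hf : ContMDiff I 𝓘(ℝ, 𝔸) ω (ρ ∘ f)) :
    letI := h.cs; ContMDiff I 𝓘(ℝ, V) ω f := by
  letI := h.cs
  intro x
  rw [contMDiffAt_iff_target]
  refine ⟨(h.emb.continuous_iff.2 hf.continuous).continuousAt, ?_⟩
  have e : (extChartAt 𝓘(ℝ, V) (f x) ∘ f) =
      fun y => P ((lg 𝔸).symm (ρ (f x)⁻¹ * (ρ ∘ f) y)) := by
    funext y
    show h.cg (f x) (f y) = _
    rw [cg_apply, h.mul]
    rfl
  rw [e]
  have h1 : ContDiffAt ℝ ω (fun a : 𝔸 => P ((lg 𝔸).symm (ρ (f x)⁻¹ * a))) ((ρ ∘ f) x) := by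
    have h2 : ρ (f x)⁻¹ * (ρ ∘ f) x ∈ (lg 𝔸).target := by
      show ρ (f x)⁻¹ * ρ (f x) ∈ _
      rw [h.inv_mul']
      exact one_mem_lg
    exact P.contDiff.contDiffAt.comp _ ((contDiffAt_lg_symm h2).comp _
      (contDiff_const.mul contDiff_id).contDiffAt)
  exact h1.contMDiffAt.comp x (hf x)

theorem lieGroup : letI := h.cs; LieGroup 𝓘(ℝ, V) ω G := by
  letI := h.cs
  have hm := h.isManifold
  have hρ := h.contMDiff_ρ
  refine { contMDiff_mul := ?_, contMDiff_inv := ?_ }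
  · apply h.contMDiff_of
    have e : ρ ∘ (fun p : G × G => p.1 * p.2) =
        (fun q : 𝔸 × 𝔸 => q.1 * q.2) ∘ fun p : G × G => (ρ p.1, ρ p.2) := by
      funext p
      exact h.mul _ _
    rw [e]
    have h1 : ContDiff ℝ ω (fun q : 𝔸 × 𝔸 => q.1 * q.2) := contDiff_fst.mul contDiff_snd
    have h2 : ContMDiff (𝓘(ℝ, V).prod 𝓘(ℝ, V)) 𝓘(ℝ, 𝔸 × 𝔸) ω
        fun p : G × G => (ρ p.1, ρ p.2) :=
      (hρ.comp contMDiff_fst).prodMk_space (hρ.comp contMDiff_snd)
    exact h1.contMDiff.comp h2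
  · apply h.contMDiff_of
    have e : ρ ∘ (fun a : G => a⁻¹) = Ring.inverse ∘ ρ := by
      funext g
      show ρ g⁻¹ = Ring.inverse (ρ g)
      have := Ring.inverse_unit (⟨ρ g, ρ g⁻¹, h.mul_inv' g, h.inv_mul' g⟩ : 𝔸ˣ)
      exact this.symm
    rw [e]
    intro g
    have h1 : ContDiffAt ℝ ω Ring.inverse (ρ g) :=
      contDiffAt_ringInverse ℝ (⟨ρ g, ρ g⁻¹, h.mul_inv' g, h.inv_mul' g⟩ : 𝔸ˣ)
    exact h1.contMDiffAt.comp g (hρ g)

end ExpGroup

end Pool.Agent.T2H92.LG
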