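import Pool.Agent.T2H92.SR.LogGG
import Pool.Agent.T2H92.SR.LieGrp
import Pool.Agent.T2H92.SR.Final

set_option autoImplicit false

open scoped Manifold ContDiff Topology InnerProductSpace Matrix
open Set

namespace Pool.Agent.T2H92.LG

open Pool.Agent.T2H92.SR

theorem cont_star {E : Type*} [NormedAddCommGroup E] [InnerProductSpace ℝ E] [CompleteSpace E] :
    Continuous (star : (E →L[ℝ] E) → (E →L[ℝ] E)) := continuous_star

/-- A topological group which is the homeomorphic image of `linGroup A` is a Lie group of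
dimension nine. -/
theorem lie_nine {A : Fin 4 → Matrix (Fin 8) (Fin 8) ℝ} (hA : IsCliffordQuadruple A)
    {G : Type} [Group G] [TopologicalSpace G] (e : linGroup A ≃* G) (he : Topology.IsEmbedding e) :
    T2Space G ∧ SecondCountableTopology G ∧
      ∃ _ : ChartedSpace (EuclideanSpace ℝ (Fin 9)) G, LieGroup (𝓡 9) ∞ G := by
  have h := cliff_TT hA
  let eh : linGroup A ≃ₜ G := e.toEquiv.toHomeomorphOfIsInducing he.isInducing
  let ρ : G → (E8 →L[ℝ] E8) := fun x => clL (e.symm x : Matrix (Fin 8) (Fin 8) ℝ)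
  have hρmul : ∀ x y, ρ (x * y) = ρ x * ρ y := by
    intro x y
    show clL (e.symm (x * y) : Matrix (Fin 8) (Fin 8) ℝ) = _
    rw [map_mul]
    exact cl_mul _ _
  have hρone : ρ 1 = 1 := by
    show clL (e.symm 1 : Matrix (Fin 8) (Fin 8) ℝ) = 1
    rw [map_one]
    exact cl_one
  have hρemb : Topology.IsEmbedding ρ := by
    have h1 : Topology.IsEmbedding (fun M : Matrix (Fin 8) (Fin 8) ℝ => clL M) :=
      clL.toContinuousLinearEquiv.toHomeomorph.isEmbedding
    exact h1.comp (Topology.IsEmbedding.subtypeVal.comp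
      (Topology.IsEmbedding.subtypeVal.comp eh.symm.isEmbedding))
  have hρGG : ∀ x, ρ x ∈ GG (TT A) := fun x => mem_linGroup_iff.1 (e.symm x).2
  have hinv : ∀ x, ρ x⁻¹ = star (ρ x) := by
    intro x
    have h1 : ρ x⁻¹ * ρ x = 1 := by rw [← hρmul, inv_mul_cancel, hρone]
    calc ρ x⁻¹ = ρ x⁻¹ * (ρ x * star (ρ x)) := by rw [(hρGG x).2.1, mul_one]
      _ = star (ρ x) := by rw [← mul_assoc, h1, one_mul]
  have htop : IsTopologicalGroup G :=
    { continuous_mul := by
        rw [hρemb.continuous_iff]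
        have e1 : (ρ ∘ fun p : G × G => p.1 * p.2) = fun p : G × G => ρ p.1 * ρ p.2 :=
          funext fun p => hρmul _ _
        rw [e1]
        exact (hρemb.continuous.comp continuous_fst).mul (hρemb.continuous.comp continuous_snd)
      continuous_inv := by
        rw [hρemb.continuous_iff]
        have e1 : (ρ ∘ fun x : G => x⁻¹) = fun x : G => star (ρ x) := funext hinv
        rw [e1]
        exact cont_star.comp hρemb.continuous }
  refine ⟨hρemb.t2Space, hρemb.secondCountableTopology, ?_⟩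
  have hfr : Module.finrank ℝ (kk (TT A)) = 9 := h.finrank_kk finrank_E8
  have hfin : FiniteDimensional ℝ (kk (TT A)) :=
    Module.finite_of_finrank_pos (by rw [hfr]; norm_num)
  obtain ⟨P₀, hP₀⟩ := Submodule.ClosedComplemented.of_finiteDimensional (kk (TT A))
  let φ : kk (TT A) ≃L[ℝ] EuclideanSpace ℝ (Fin 9) :=
    ContinuousLinearEquiv.ofFinrankEq (by rw [hfr]; simp)
  let L : EuclideanSpace ℝ (Fin 9) →L[ℝ] (E8 →L[ℝ] E8) :=
    (kk (TT A)).subtypeL ∘L (φ.symm : EuclideanSpace ℝ (Fin 9) →L[ℝ] kk (TT A))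
  let P : (E8 →L[ℝ] E8) →L[ℝ] EuclideanSpace ℝ (Fin 9) :=
    (φ : kk (TT A) →L[ℝ] EuclideanSpace ℝ (Fin 9)) ∘L P₀
  have hL : ∀ v, L v = ((φ.symm v : kk (TT A)) : E8 →L[ℝ] E8) := fun v => rfl
  have hP : ∀ Z, P Z = φ (P₀ Z) := fun Z => rfl
  have hLP : ∀ Z ∈ kk (TT A), L (P Z) = Z := by
    intro Z hZ
    have h1 : P₀ Z = ⟨Z, hZ⟩ := hP₀ ⟨Z, hZ⟩
    rw [hP, hL, h1, φ.symm_apply_apply]
  have hexp : ExpGroup ρ L P := by
    refine ⟨hρmul, hρone, hρemb, fun v => ?_, fun v => ?_, ?_⟩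
    · rw [hL, hP, hP₀, φ.apply_symm_apply]
    · have h1 := (exp_mem_iff (T := TT A)).2 (φ.symm v).2 1
      rw [one_smul] at h1
      have h2 : (clL.symm (NormedSpace.exp (L v))) ∈ O8 := by
        rw [Matrix.mem_orthogonalGroup_iff, ← cl_inj, cl_mul]
        show _ * cl (clL.symm (NormedSpace.exp (L v)))ᵀ = _
        rw [cl_transpose, cl_one, ← clL_apply, clL.apply_symm_apply]
        exact h1.2.1
      have h3 : (⟨_, h2⟩ : O8) ∈ linGroup A := by
        rw [mem_linGroup_iff]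
        show clL (clL.symm (NormedSpace.exp (L v))) ∈ _
        rw [clL.apply_symm_apply]
        exact h1
      refine ⟨e ⟨⟨_, h2⟩, h3⟩, ?_⟩
      show clL (e.symm (e ⟨⟨_, h2⟩, h3⟩) : Matrix (Fin 8) (Fin 8) ℝ) = _
      rw [e.symm_apply_apply]
      exact clL.apply_symm_apply _
    · obtain ⟨N, hN, hN1, hNk⟩ := log_mem_kk (TT A)
      exact ⟨N, hN, hN1, fun g hg => hLP _ (hNk _ (hρGG g) hg)⟩
  refine ⟨hexp.cs, ?_⟩
  letI := hexp.cs
  have : LieGroup (𝓡 9) ω G := hexp.lieGroup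
  exact LieGroup.of_le (n := ω) le_top

end Pool.Agent.T2H92.LG
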