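import Pool.Agent.T2H92.SR.Dim

set_option autoImplicit false

open scoped InnerProductSpace RealInnerProductSpace Matrix Topology
open Set Filter

namespace Pool.Agent.T2H92.SR

section general

variable {𝔸 : Type*} [NormedRing 𝔸] [NormedAlgebra ℝ 𝔸] [CompleteSpace 𝔸]

theorem exp_mul_exp_neg (x : 𝔸) : NormedSpace.exp x * NormedSpace.exp (-x) = 1 := by
  let _ : NormedAlgebra ℚ 𝔸 := NormedAlgebra.restrictScalars ℚ ℝ 𝔸
  rw [← NormedSpace.exp_add_of_commute (Commute.refl x).neg_right, add_neg_cancel,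
    NormedSpace.exp_zero]

theorem exp_neg_mul_exp (x : 𝔸) : NormedSpace.exp (-x) * NormedSpace.exp x = 1 := by
  have := exp_mul_exp_neg (-x)
  rwa [neg_neg] at this

theorem deriv_mem {W : Submodule ℝ 𝔸} [FiniteDimensional ℝ W] {f : ℝ → 𝔸} {f' : 𝔸} {t : ℝ}
    (hf : HasDerivAt f f' t) (h : ∀ s, f s ∈ W) : f' ∈ W := by
  have hc : IsClosed (W : Set 𝔸) := W.closed_of_finiteDimensional
  rw [hasDerivAt_iff_tendsto_slope] at hf
  exact hc.mem_of_tendsto hf (Eventually.of_forall fun s => by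
    rw [slope_def_module]
    exact W.smul_mem _ (W.sub_mem (h _) (h _)))

/-- the solution of a linear ODE -/
noncomputable def flow {V : Type*} [NormedAddCommGroup V] [NormedSpace ℝ V] (D : V →L[ℝ] V)
    (X : V) (s : ℝ) : V := (NormedSpace.exp (s • D) : V →L[ℝ] V) X

theorem flow_zero {V : Type*} [NormedAddCommGroup V] [NormedSpace ℝ V] (D : V →L[ℝ] V)
    (X : V) : flow D X 0 = X := by simp [flow]

theorem flow_deriv {V : Type*} [NormedAddCommGroup V] [NormedSpace ℝ V] [CompleteSpace V]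
    (D : V →L[ℝ] V) (X : V) (s : ℝ) : HasDerivAt (flow D X) (D (flow D X s)) s := by
  have h1 := hasDerivAt_exp_smul_const' (𝕂 := ℝ) D s
  have h2 := h1.clm_apply (hasDerivAt_const s X)
  simp only [map_zero, add_zero] at h2
  exact h2

/-- conjugation by `exp (t Z)` preserves a finite dimensional subspace preserved by `ad Z` -/
theorem conj_exp_mem {W : Submodule ℝ 𝔸} [FiniteDimensional ℝ W] {Z : 𝔸}
    (hZ : ∀ X ∈ W, Z * X - X * Z ∈ W) (t : ℝ) {X : 𝔸} (hX : X ∈ W) :
    NormedSpace.exp (t • Z) * X * NormedSpace.exp (-(t • Z)) ∈ W := by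
  let D₀ : W →ₗ[ℝ] W :=
    { toFun := fun X => ⟨Z * X - X * Z, hZ X X.2⟩
      map_add' := fun X Y => Subtype.ext (by simp [mul_add, add_mul]; abel)
      map_smul' := fun c X => Subtype.ext (by simp [smul_sub]) }
  let D : W →L[ℝ] W := LinearMap.toContinuousLinearMap D₀
  have hD : ∀ X : W, ((D X : W) : 𝔸) = Z * X - X * Z := fun X => rfl
  have hcW : CompleteSpace W := FiniteDimensional.complete ℝ W
  let f : ℝ → W := flow D ⟨X, hX⟩
  have hf : ∀ s, HasDerivAt f (D (f s)) s := flow_deriv D ⟨X, hX⟩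
  have hf' : ∀ s, HasDerivAt (fun s => ((f s : W) : 𝔸)) (Z * f s - f s * Z) s := by
    intro s
    have h1 := (W.subtypeL.hasFDerivAt (x := f s)).comp_hasDerivAt s (hf s)
    exact h1
  let g : ℝ → 𝔸 := fun s => NormedSpace.exp (-(s • Z)) * f s * NormedSpace.exp (s • Z)
  have hg : ∀ s, HasDerivAt g 0 s := by
    intro s
    have e1 : HasDerivAt (fun s : ℝ => NormedSpace.exp (-(s • Z)))
        (-(NormedSpace.exp (-(s • Z)) * Z)) s := by
      have := hasDerivAt_exp_smul_const (𝕂 := ℝ) (-Z) s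
      simpa only [smul_neg, mul_neg] using this
    have e2 : HasDerivAt (fun s : ℝ => NormedSpace.exp (s • Z)) (Z * NormedSpace.exp (s • Z)) s :=
      hasDerivAt_exp_smul_const' (𝕂 := ℝ) Z s
    have e3 := (e1.mul (hf' s)).mul e2
    refine e3.congr_deriv ?_
    simp only [Pi.mul_apply]
    noncomm_ring
  have hg0 : g t = g 0 := by
    have := is_const_of_deriv_eq_zero (fun s => (hg s).differentiableAt) (fun s => (hg s).deriv) t 0
    exact this
  have hg1 : g 0 = X := by simp [g, f, flow_zero]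
  have : NormedSpace.exp (t • Z) * X * NormedSpace.exp (-(t • Z)) = f t := by
    rw [← hg1, ← hg0]
    show NormedSpace.exp (t • Z) * (NormedSpace.exp (-(t • Z)) * f t * NormedSpace.exp (t • Z)) *
      NormedSpace.exp (-(t • Z)) = f t
    calc _ = (NormedSpace.exp (t • Z) * NormedSpace.exp (-(t • Z))) * f t *
          (NormedSpace.exp (t • Z) * NormedSpace.exp (-(t • Z))) := by noncomm_ring
      _ = f t := by rw [exp_mul_exp_neg]; simp
  rw [this]
  exact (f t).2

end general

variable {E : Type*} [NormedAddCommGroup E] [InnerProductSpace ℝ E] [CompleteSpace E]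
variable {T : Fin 4 → E →L[ℝ] E}

/-- the span of the `T k` -/
def WW (T : Fin 4 → E →L[ℝ] E) : Submodule ℝ (E →L[ℝ] E) := Submodule.span ℝ (Set.range T)

instance (T : Fin 4 → E →L[ℝ] E) : FiniteDimensional ℝ (WW T) :=
  FiniteDimensional.span_of_finite ℝ (Set.finite_range T)

theorem mem_WW {B : E →L[ℝ] E} : B ∈ WW T ↔ ∃ w, ∀ x, B x = Aw T w x := by
  rw [WW, Submodule.mem_span_range_iff_exists_fun]
  constructor
  · rintro ⟨c, rfl⟩
    exact ⟨c, fun x => rfl⟩
  · rintro ⟨w, hw⟩
    exact ⟨w, (ContinuousLinearMap.ext hw).symm⟩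

theorem skew_iff {Z : E →L[ℝ] E} : (∀ x y, ⟪Z x, y⟫ = -⟪x, Z y⟫) ↔ star Z = -Z := by
  constructor
  · intro h
    ext x
    apply ext_inner_left ℝ
    intro y
    rw [ContinuousLinearMap.star_eq_adjoint, ContinuousLinearMap.adjoint_inner_right, h, neg_apply,
      inner_neg_right]
  · intro h x y
    have : ⟪x, (star Z) y⟫ = ⟪Z x, y⟫ := by
      rw [ContinuousLinearMap.star_eq_adjoint, ContinuousLinearMap.adjoint_inner_right]
    rw [← this, h, neg_apply, inner_neg_right]

theorem mem_kk {Z : E →L[ℝ] E} : Z ∈ kk T ↔ star Z = -Z ∧ ∀ k, Z * T k - T k * Z ∈ WW T := by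
  show ((∀ x y, ⟪Z x, y⟫ = -⟪x, Z y⟫) ∧ ∀ k, ∃ w, ∀ x, Z (T k x) - T k (Z x) = Aw T w x) ↔ _
  rw [skew_iff]
  simp only [mem_WW]
  rfl

/-- orthogonal operators conjugating the `T k` into their span -/
def GG (T : Fin 4 → E →L[ℝ] E) : Set (E →L[ℝ] E) :=
  {g | star g * g = 1 ∧ g * star g = 1 ∧ ∀ k, g * T k * star g ∈ WW T}

theorem exp_mem_iff {Z : E →L[ℝ] E} :
    (∀ t : ℝ, NormedSpace.exp (t • Z) ∈ GG T) ↔ Z ∈ kk T := by
  rw [mem_kk]
  constructor
  · intro h
    have e1 := hasDerivAt_exp_smul_const (𝕂 := ℝ) Z 0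
    have e2 := e1.star
    simp only [zero_smul, NormedSpace.exp_zero, one_mul] at e1 e2
    have hs : star Z = -Z := by
      have e3 := e1.mul e2
      have e4 : (fun t : ℝ => NormedSpace.exp (t • Z)) * (fun t => star (NormedSpace.exp (t • Z)))
          = fun t => 1 := by
        funext t
        exact (h t).2.1
      rw [e4] at e3
      have e5 := e3.unique (hasDerivAt_const 0 1)
      simp only [zero_smul, NormedSpace.exp_zero, one_mul, star_one, mul_one] at e5
      rw [add_comm] at e5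
      exact eq_neg_of_add_eq_zero_left e5
    refine ⟨hs, fun k => ?_⟩
    have e3 := (e1.mul_const (T k)).mul e2
    have e4 := deriv_mem (W := WW T) e3 (fun t => (h t).2.2 k)
    simp only [zero_smul, NormedSpace.exp_zero, one_mul, star_one, mul_one, hs] at e4
    rwa [mul_neg, ← sub_eq_add_neg] at e4
  · rintro ⟨hs, hZ⟩ t
    have hst : star (NormedSpace.exp (t • Z)) = NormedSpace.exp (-(t • Z)) := by
      rw [NormedSpace.star_exp, star_smul, hs, smul_neg]; rfl
    have hW : ∀ X ∈ WW T, Z * X - X * Z ∈ WW T := by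
      intro X hX
      induction hX using Submodule.span_induction with
      | mem x hx => obtain ⟨k, rfl⟩ := hx; exact hZ k
      | zero => simp
      | add x y _ _ hx hy =>
        have : Z * (x + y) - (x + y) * Z = (Z * x - x * Z) + (Z * y - y * Z) := by noncomm_ring
        rw [this]; exact (WW T).add_mem hx hy
      | smul a x _ hx =>
        have : Z * (a • x) - (a • x) * Z = a • (Z * x - x * Z) := by
          rw [mul_smul_comm, smul_mul_assoc, smul_sub]
        rw [this]; exact (WW T).smul_mem _ hx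
    refine ⟨?_, ?_, fun k => ?_⟩
    · rw [hst]; exact exp_neg_mul_exp _
    · rw [hst]; exact exp_mul_exp_neg _
    · rw [hst]
      exact conj_exp_mem hW t (Submodule.subset_span ⟨k, rfl⟩)

end Pool.Agent.T2H92.SR
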