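import Pool.Agent.T2H92.SR.Defs
import Pool.Agent.T2H92.SR.Exp

set_option autoImplicit false

open scoped Manifold ContDiff InnerProductSpace RealInnerProductSpace Matrix Topology
open Set

namespace Pool.Agent.T2H92.SR

/-- the matrix algebra as operators -/
noncomputable abbrev cl (M : Matrix (Fin 8) (Fin 8) ℝ) : E8 →L[ℝ] E8 :=
  Matrix.toEuclideanCLM (n := Fin 8) (𝕜 := ℝ) M

theorem cl_mul (M N : Matrix (Fin 8) (Fin 8) ℝ) : cl (M * N) = cl M * cl N := map_mul _ _ _
theorem cl_add (M N : Matrix (Fin 8) (Fin 8) ℝ) : cl (M + N) = cl M + cl N := map_add _ _ _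
theorem cl_neg (M : Matrix (Fin 8) (Fin 8) ℝ) : cl (-M) = -cl M := map_neg _ _
theorem cl_one : cl (1 : Matrix (Fin 8) (Fin 8) ℝ) = 1 := map_one _
theorem cl_zero : cl (0 : Matrix (Fin 8) (Fin 8) ℝ) = 0 := map_zero _
theorem cl_smul (c : ℝ) (M : Matrix (Fin 8) (Fin 8) ℝ) : cl (c • M) = c • cl M := map_smul _ _ _
theorem cl_transpose (M : Matrix (Fin 8) (Fin 8) ℝ) : cl Mᵀ = star (cl M) := by
  rw [← Matrix.conjTranspose_eq_transpose_of_trivial, ← Matrix.star_eq_conjTranspose]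
  exact map_star _ _
theorem cl_inj {M N : Matrix (Fin 8) (Fin 8) ℝ} : cl M = cl N ↔ M = N :=
  (Matrix.toEuclideanCLM (n := Fin 8) (𝕜 := ℝ)).injective.eq_iff

/-- the operators of a quadruple -/
noncomputable def TT (A : Fin 4 → Matrix (Fin 8) (Fin 8) ℝ) (k : Fin 4) : E8 →L[ℝ] E8 := cl (A k)

theorem X_eq (M : Matrix (Fin 8) (Fin 8) ℝ) (x : E8) : X M x = cl M x := rfl

theorem finrank_E8 : Module.finrank ℝ E8 = 8 := by simp

theorem cliff_TT {A : Fin 4 → Matrix (Fin 8) (Fin 8) ℝ} (hA : IsCliffordQuadruple A) :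
    Cliff (TT A) := by
  refine ⟨fun i => ?_, fun i x => ?_, fun i j x hij => ?_⟩
  · rw [skew_iff]
    show star (cl (A i)) = -cl (A i)
    rw [← cl_transpose, hA.skew, cl_neg]
  · have h1 := hA.clifford i i
    rw [if_pos rfl] at h1
    have h2 : A i * A i = -1 := by
      have h3 : (2 : ℝ) • (A i * A i) = (2 : ℝ) • (-1) := by
        rw [two_smul, h1]; simp
      exact smul_right_injective _ (two_ne_zero) h3
    have h3 := congrArg cl h2
    rw [cl_mul, cl_neg, cl_one] at h3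
    exact congrArg (fun L : E8 →L[ℝ] E8 => L x) h3
  · have h1 := hA.clifford i j
    rw [if_neg hij] at h1
    have h3 := congrArg cl h1
    rw [cl_add, cl_mul, cl_mul, cl_zero] at h3
    have h4 := congrArg (fun L : E8 →L[ℝ] E8 => L x) h3
    exact eq_neg_of_add_eq_zero_left h4

theorem mem_Hor {A : Fin 4 → Matrix (Fin 8) (Fin 8) ℝ} {x : S7} {v : TangentSpace (𝓡 7) x} :
    v ∈ Hor A x ↔ ∃ w, dι x v = Aw (TT A) w x := by
  show dι x v ∈ Submodule.span ℝ (Set.range fun k => X (A k) x) ↔ _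
  rw [Submodule.mem_span_range_iff_exists_fun]
  refine exists_congr fun w => ?_
  rw [Aw_apply, eq_comm]
  rfl

end Pool.Agent.T2H92.SR
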