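import Pool.Agent.T2H92.SR.Fwd

set_option autoImplicit false

open scoped Manifold ContDiff InnerProductSpace RealInnerProductSpace Matrix Topology
open Set

namespace Pool.Agent.T2H92.SR

theorem conj_mem_WW {E : Type*} [NormedAddCommGroup E] [InnerProductSpace ℝ E] [CompleteSpace E]
    {T : Fin 4 → E →L[ℝ] E} {g B : E →L[ℝ] E} (hg : ∀ k, g * T k * star g ∈ WW T)
    (hB : B ∈ WW T) : g * B * star g ∈ WW T := by
  induction hB using Submodule.span_induction with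
  | mem x hx => obtain ⟨k, rfl⟩ := hx; exact hg k
  | zero => simp
  | add x y _ _ hx hy =>
    rw [mul_add, add_mul]; exact Submodule.add_mem _ hx hy
  | smul a x _ hx =>
    rw [mul_smul_comm, smul_mul_assoc]; exact Submodule.smul_mem _ _ hx

abbrev O8 := Matrix.orthogonalGroup (Fin 8) ℝ

theorem star_mul_cl (g : O8) : star (cl g) * cl g = 1 := by
  rw [← cl_transpose, ← cl_mul, (Matrix.mem_orthogonalGroup_iff' (Fin 8) ℝ).1 g.2, cl_one]

theorem inner_cl (g : O8) (x y : E8) : ⟪cl g x, cl g y⟫ = ⟪x, y⟫ := by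
  have h1 := congrArg (fun L : E8 →L[ℝ] E8 => ⟪x, L y⟫) (star_mul_cl g)
  have h2 : ⟪x, star (cl g) (cl g y)⟫ = ⟪x, y⟫ := h1
  rwa [ContinuousLinearMap.star_eq_adjoint, ContinuousLinearMap.adjoint_inner_right] at h2

theorem norm_cl (g : O8) (x : E8) : ‖cl g x‖ = ‖x‖ := by
  have h1 := inner_cl g x x
  rw [real_inner_self_eq_norm_sq, real_inner_self_eq_norm_sq] at h1
  exact (sq_eq_sq₀ (norm_nonneg _) (norm_nonneg _)).1 h1

theorem cl_mem_sphere (g : O8) (x : S7) : cl g x ∈ Metric.sphere (0 : E8) 1 := by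
  rw [mem_sphere_zero_iff_norm, norm_cl, norm_coe]

/-- the action of an orthogonal matrix on the sphere -/
noncomputable def act (g : O8) (x : S7) : S7 := ⟨cl g x, cl_mem_sphere g x⟩

theorem coe_act (g : O8) (x : S7) : (act g x : E8) = cl g x := rfl

theorem act_mul (g h : O8) (x : S7) : act (g * h) x = act g (act h x) := by
  apply Subtype.ext
  show cl ((g * h : O8) : Matrix (Fin 8) (Fin 8) ℝ) x = cl g (cl h x)
  rw [Submonoid.coe_mul, cl_mul]
  rfl

theorem act_one (x : S7) : act 1 x = x := by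
  apply Subtype.ext
  show cl ((1 : O8) : Matrix (Fin 8) (Fin 8) ℝ) x = x
  rw [Submonoid.coe_one, cl_one]
  rfl

theorem contMDiff_act (g : O8) : ContMDiff (𝓡 7) (𝓡 7) ∞ (act g) := by
  have h1 : ContMDiff (𝓡 7) 𝓘(ℝ, E8) ∞ (fun x : S7 => cl g (x : E8)) :=
    (cl (g : Matrix (Fin 8) (Fin 8) ℝ)).contDiff.contMDiff.comp (contMDiff_coe_sphere (m := ∞))
  exact h1.codRestrict_sphere (cl_mem_sphere g)

/-- the action as a diffeomorphism -/
noncomputable def actD (g : O8) : S7 ≃ₘ⟮𝓡 7, 𝓡 7⟯ S7 where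
  toFun := act g
  invFun := act g⁻¹
  left_inv x := by rw [← act_mul, inv_mul_cancel, act_one]
  right_inv x := by rw [← act_mul, mul_inv_cancel, act_one]
  contMDiff_toFun := contMDiff_act g
  contMDiff_invFun := contMDiff_act g⁻¹

theorem actD_apply (g : O8) (x : S7) : actD g x = act g x := rfl

theorem dι_act (g : O8) (x : S7) (v : TangentSpace (𝓡 7) x) :
    dι (act g x) (mfderiv (𝓡 7) (𝓡 7) (act g) x v) = cl g (dι x v) := by
  have h1 : MDifferentiableAt (𝓡 7) (𝓡 7) (act g) x :=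
    (contMDiff_act g x).mdifferentiableAt (by simp)
  have h2 : MDifferentiableAt (𝓡 7) 𝓘(ℝ, E8) ((↑) : S7 → E8) (act g x) :=
    (contMDiff_coe_sphere (m := ∞) (act g x)).mdifferentiableAt (by simp)
  have h2' : MDifferentiableAt (𝓡 7) 𝓘(ℝ, E8) ((↑) : S7 → E8) x :=
    (contMDiff_coe_sphere (m := ∞) x).mdifferentiableAt (by simp)
  have h3 : MDifferentiableAt 𝓘(ℝ, E8) 𝓘(ℝ, E8) (cl (g : Matrix (Fin 8) (Fin 8) ℝ)) (x : E8) :=
    (cl (g : Matrix (Fin 8) (Fin 8) ℝ)).contMDiff.mdifferentiableAt (n := ∞) (by simp)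
  have e1 := mfderiv_comp_apply x h2 h1 v
  have e2 := mfderiv_comp_apply x h3 h2' v
  have e3 : ((↑) : S7 → E8) ∘ act g = cl (g : Matrix (Fin 8) (Fin 8) ℝ) ∘ ((↑) : S7 → E8) := rfl
  rw [e3, e2] at e1
  refine (e1.symm).trans ?_
  rw [ContinuousLinearMap.mfderiv_eq]
  rfl

/-- the linear action of `linGroup A` is by sub-Riemannian isometries -/
theorem backward {A : Fin 4 → Matrix (Fin 8) (Fin 8) ℝ} (g : O8) (hg : g ∈ linGroup A) :
    IsSRIsometry A (actD g) := by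
  refine ⟨fun x v hv => ?_, fun x v _ w _ => ?_⟩
  · obtain ⟨w, hw⟩ := mem_Hor.1 hv
    rw [mem_Hor]
    show ∃ w', dι (act g x) (mfderiv (𝓡 7) (𝓡 7) (act g) x v) = Aw (TT A) w' (cl g x)
    rw [dι_act, hw]
    have h1 := (mem_linGroup_iff.1 hg).2.2
    have h2 := fun B hB => conj_mem_WW (T := TT A) (g := cl g) (B := B) h1 hB
    obtain ⟨w', hw'⟩ := mem_WW.1 (h2 _ (mem_WW.2 ⟨w, fun x => rfl⟩))
    refine ⟨w', ?_⟩
    rw [← hw']
    show cl g (Aw (TT A) w x) = cl g (Aw (TT A) w (star (cl g) (cl g x)))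
    have h3 : star (cl g) (cl g x) = (x : E8) :=
      congrArg (fun L : E8 →L[ℝ] E8 => L (x : E8)) (star_mul_cl g)
    rw [h3]
  · show ⟪dι (act g x) (mfderiv (𝓡 7) (𝓡 7) (act g) x v),
      dι (act g x) (mfderiv (𝓡 7) (𝓡 7) (act g) x w)⟫ = _
    rw [dι_act, dι_act, inner_cl]

end Pool.Agent.T2H92.SR
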