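import Mathlib

/-!
# Linear algebra of four anticommuting skew operators

`T 0, ..., T 3` are skew operators on a real inner product space with
`T i T j + T j T i = -2 δ_ij`.
-/

set_option autoImplicit false

open scoped InnerProductSpace RealInnerProductSpace

namespace Pool.Agent.T2H92.SR

variable {E : Type*} [NormedAddCommGroup E] [InnerProductSpace ℝ E]

/-- four skew operators with the Clifford relations -/
structure Cliff (T : Fin 4 → E →L[ℝ] E) : Prop where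
  skew : ∀ i x y, ⟪T i x, y⟫ = -⟪x, T i y⟫
  sq : ∀ i x, T i (T i x) = -x
  anti : ∀ i j x, i ≠ j → T i (T j x) = -T j (T i x)

namespace Cliff

variable {T : Fin 4 → E →L[ℝ] E} (h : Cliff T)
include h

theorem inner_self (i : Fin 4) (x : E) : ⟪T i x, x⟫ = 0 := by
  have h1 := h.skew i x x
  rw [real_inner_comm x (T i x)] at h1
  have h2 : ⟪T i x, x⟫ = ⟪x, T i x⟫ := real_inner_comm _ _
  rw [h2]
  linarith [real_inner_comm x (T i x)]

theorem inner_self' (i : Fin 4) (x : E) : ⟪x, T i x⟫ = 0 := by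
  rw [real_inner_comm]; exact h.inner_self i x

theorem inner_same (i : Fin 4) (x y : E) : ⟪T i x, T i y⟫ = ⟪x, y⟫ := by
  rw [h.skew, h.sq, inner_neg_right, neg_neg]

theorem inner_diff (i j : Fin 4) (hij : i ≠ j) (x : E) : ⟪T i x, T j x⟫ = 0 := by
  have h1 := h.skew i x (T j x)
  have h2 := h.skew j x (T i x)
  rw [h.anti i j x hij, inner_neg_right] at h1
  have h3 : ⟪T i x, T j x⟫ = ⟪T j x, T i x⟫ := real_inner_comm _ _
  linarith

theorem norm_T (i : Fin 4) (x : E) : ‖T i x‖ = ‖x‖ := by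
  have := h.inner_same i x x
  rw [real_inner_self_eq_norm_sq, real_inner_self_eq_norm_sq] at this
  exact (sq_eq_sq₀ (norm_nonneg _) (norm_nonneg _)).1 this

theorem inner_TT (i j : Fin 4) (x : E) : ⟪T i x, T j x⟫ = if i = j then ‖x‖ ^ 2 else 0 := by
  split_ifs with hij
  · subst hij
    rw [h.inner_same, real_inner_self_eq_norm_sq]
  · exact h.inner_diff i j hij x

end Cliff

/-- `A_w x = ∑ w_i T_i x` -/
noncomputable def Aw (T : Fin 4 → E →L[ℝ] E) (w : Fin 4 → ℝ) : E →L[ℝ] E := ∑ i, w i • T i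

theorem Aw_apply (T : Fin 4 → E →L[ℝ] E) (w : Fin 4 → ℝ) (x : E) :
    Aw T w x = ∑ i, w i • T i x := by
  simp [Aw, ContinuousLinearMap.sum_apply]

/-- the volume element -/
noncomputable def vol (T : Fin 4 → E →L[ℝ] E) : E →L[ℝ] E := T 0 ∘L T 1 ∘L T 2 ∘L T 3

theorem vol_apply (T : Fin 4 → E →L[ℝ] E) (x : E) : vol T x = T 0 (T 1 (T 2 (T 3 x))) := rfl

namespace Cliff

variable {T : Fin 4 → E →L[ℝ] E} (h : Cliff T)
include h

theorem inner_Aw_T (w : Fin 4 → ℝ) (j : Fin 4) (x : E) : ⟪Aw T w x, T j x⟫ = w j * ‖x‖ ^ 2 := by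
  rw [Aw_apply, sum_inner]
  simp only [inner_smul_left, h.inner_TT]
  simp

theorem inner_Aw_self (w : Fin 4 → ℝ) (x : E) : ⟪Aw T w x, x⟫ = 0 := by
  rw [Aw_apply, sum_inner]
  simp [inner_smul_left, h.inner_self]

theorem skew_Aw (w : Fin 4 → ℝ) (x y : E) : ⟪Aw T w x, y⟫ = -⟪x, Aw T w y⟫ := by
  rw [Aw_apply, Aw_apply, sum_inner, inner_sum, ← Finset.sum_neg_distrib]
  refine Finset.sum_congr rfl fun i _ => ?_
  rw [inner_smul_left, inner_smul_right, h.skew]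
  simp

theorem norm_Aw_sq (w : Fin 4 → ℝ) (x : E) : ‖Aw T w x‖ ^ 2 = (∑ i, w i ^ 2) * ‖x‖ ^ 2 := by
  rw [← real_inner_self_eq_norm_sq]
  nth_rewrite 2 [Aw_apply]
  rw [inner_sum, Finset.sum_mul]
  refine Finset.sum_congr rfl fun i _ => ?_
  rw [inner_smul_right, h.inner_Aw_T]
  ring

theorem t10 (x : E) : T 1 (T 0 x) = -T 0 (T 1 x) := h.anti 1 0 x (by decide)
theorem t20 (x : E) : T 2 (T 0 x) = -T 0 (T 2 x) := h.anti 2 0 x (by decide)
theorem t30 (x : E) : T 3 (T 0 x) = -T 0 (T 3 x) := h.anti 3 0 x (by decide)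
theorem t21 (x : E) : T 2 (T 1 x) = -T 1 (T 2 x) := h.anti 2 1 x (by decide)
theorem t31 (x : E) : T 3 (T 1 x) = -T 1 (T 3 x) := h.anti 3 1 x (by decide)
theorem t32 (x : E) : T 3 (T 2 x) = -T 2 (T 3 x) := h.anti 3 2 x (by decide)

theorem vol_vol (x : E) : vol T (vol T x) = x := by
  simp only [vol_apply, h.t10, h.t20, h.t30, h.t21, h.t31, h.t32, h.sq, map_neg, neg_neg]

theorem T_vol (i : Fin 4) (x : E) : T i (vol T x) = -vol T (T i x) := by
  fin_cases i <;>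
  simp [vol_apply, h.t10, h.t20, h.t30, h.t21, h.t31, h.t32, h.sq, map_neg, neg_neg]

theorem vol_T (i : Fin 4) (x : E) : vol T (T i x) = -T i (vol T x) := by
  rw [h.T_vol, neg_neg]

theorem vol_symm (x y : E) : ⟪vol T x, y⟫ = ⟪x, vol T y⟫ := by
  simp only [vol_apply, h.skew]
  simp only [h.t10, h.t20, h.t30, h.t21, h.t31, h.t32, h.sq, map_neg, neg_neg, inner_neg_right]

theorem norm_vol (x : E) : ‖vol T x‖ = ‖x‖ := by
  simp only [vol_apply, h.norm_T]

theorem vol_Aw (w : Fin 4 → ℝ) (x : E) : vol T (Aw T w x) = -Aw T w (vol T x) := by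
  rw [Aw_apply, Aw_apply, map_sum, ← Finset.sum_neg_distrib]
  refine Finset.sum_congr rfl fun i _ => ?_
  rw [map_smul, h.vol_T, smul_neg]

/-- `A_w A_w = -|w|²` -/
theorem Aw_Aw (w : Fin 4 → ℝ) (x : E) : Aw T w (Aw T w x) = -(∑ i, w i ^ 2) • x := by
  simp only [Aw_apply, Fin.sum_univ_four, map_add, map_smul, h.t10, h.t20, h.t30, h.t21, h.t31,
    h.t32, h.sq]
  module

end Cliff

/-- the bivector operator of an antisymmetric matrix -/
noncomputable def Bw (T : Fin 4 → E →L[ℝ] E) (u : Fin 4 → Fin 4 → ℝ) (x : E) : E :=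
  ∑ i, ∑ j, (u i j / 2) • T i (T j x)

/-- `|u|²`, the sum over `i < j` -/
def Nm (u : Fin 4 → Fin 4 → ℝ) : ℝ :=
  u 0 1 ^ 2 + u 0 2 ^ 2 + u 0 3 ^ 2 + u 1 2 ^ 2 + u 1 3 ^ 2 + u 2 3 ^ 2

/-- the Pfaffian -/
def Pf (u : Fin 4 → Fin 4 → ℝ) : ℝ := u 0 1 * u 2 3 - u 0 2 * u 1 3 + u 0 3 * u 1 2

/-- antisymmetric -/
def Anti (u : Fin 4 → Fin 4 → ℝ) : Prop := ∀ i j, u j i = -u i j

theorem Anti.diag {u : Fin 4 → Fin 4 → ℝ} (hu : Anti u) (i : Fin 4) : u i i = 0 := by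
  have := hu i i
  linarith

namespace Cliff

variable {T : Fin 4 → E →L[ℝ] E} (h : Cliff T)
include h

theorem Bw_eq {u : Fin 4 → Fin 4 → ℝ} (hu : Anti u) (x : E) :
    Bw T u x = u 0 1 • T 0 (T 1 x) + u 0 2 • T 0 (T 2 x) + u 0 3 • T 0 (T 3 x)
      + u 1 2 • T 1 (T 2 x) + u 1 3 • T 1 (T 3 x) + u 2 3 • T 2 (T 3 x) := by
  simp only [Bw, Fin.sum_univ_four, h.t10, h.t20, h.t30, h.t21, h.t31, h.t32, h.sq,
    hu.diag, hu 0 1, hu 0 2, hu 0 3, hu 1 2, hu 1 3, hu 2 3]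
  module

theorem norm_Bw_sq {u : Fin 4 → Fin 4 → ℝ} (hu : Anti u) (x : E) :
    ‖Bw T u x‖ ^ 2 = Nm u * ‖x‖ ^ 2 - 2 * Pf u * ⟪x, vol T x⟫ := by
  rw [← real_inner_self_eq_norm_sq, h.Bw_eq hu]
  simp only [inner_add_left, inner_add_right, inner_smul_left, inner_smul_right]
  simp only [h.skew]
  simp only [h.t10, h.t20, h.t30, h.t21, h.t31, h.t32, h.sq, map_neg, neg_neg, inner_neg_right,
    ← real_inner_self_eq_norm_sq, vol_apply, Nm, Pf]
  have a (i j : Fin 4) (hij : i ≠ j) : ⟪x, T i (T j x)⟫ = 0 := by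
    have h1 := h.skew i x (T j x)
    have h2 := h.inner_diff i j hij x
    linarith
  simp only [a 0 1 (by decide), a 0 2 (by decide), a 0 3 (by decide), a 1 2 (by decide),
    a 1 3 (by decide), a 2 3 (by decide)]
  simp
  ring

theorem vol_Bw {u : Fin 4 → Fin 4 → ℝ} (x : E) : vol T (Bw T u x) = Bw T u (vol T x) := by
  simp only [Bw, map_sum, map_smul, h.vol_T, map_neg, neg_neg]

theorem inner_Bw_self {u : Fin 4 → Fin 4 → ℝ} (hu : Anti u) (x : E) : ⟪Bw T u x, x⟫ = 0 := by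
  rw [h.Bw_eq hu]
  have a (i j : Fin 4) (hij : i ≠ j) : ⟪T i (T j x), x⟫ = 0 := by
    have h1 := h.skew i (T j x) x
    have h2 := h.inner_diff j i hij.symm x
    linarith
  simp only [inner_add_left, inner_smul_left, a 0 1 (by decide), a 0 2 (by decide),
    a 0 3 (by decide), a 1 2 (by decide), a 1 3 (by decide), a 2 3 (by decide)]
  simp

end Cliff

/-- the height function `h(x) = ⟨x, ω x⟩` -/
noncomputable def ht (T : Fin 4 → E →L[ℝ] E) (x : E) : ℝ := ⟪x, vol T x⟫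

/-- components in the `±1` eigenspaces -/
noncomputable def pos (T : Fin 4 → E →L[ℝ] E) (x : E) : E := (1 / 2 : ℝ) • (x + vol T x)
/-- components in the `±1` eigenspaces -/
noncomputable def neg (T : Fin 4 → E →L[ℝ] E) (x : E) : E := (1 / 2 : ℝ) • (x - vol T x)

theorem pos_add_neg (T : Fin 4 → E →L[ℝ] E) (x : E) : pos T x + neg T x = x := by
  simp only [pos, neg]; module

namespace Cliff

variable {T : Fin 4 → E →L[ℝ] E} (h : Cliff T)
include h

theorem vol_pos (x : E) : vol T (pos T x) = pos T x := by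
  simp only [pos, map_smul, map_add, h.vol_vol]; module

theorem vol_neg (x : E) : vol T (neg T x) = -neg T x := by
  simp only [neg, map_smul, map_sub, h.vol_vol]; module

theorem norm_pos_sq (x : E) : ‖pos T x‖ ^ 2 = (‖x‖ ^ 2 + ht T x) / 2 := by
  rw [pos, norm_smul, mul_pow, norm_add_sq_real, h.norm_vol, ht]
  norm_num
  ring

theorem norm_neg_sq (x : E) : ‖neg T x‖ ^ 2 = (‖x‖ ^ 2 - ht T x) / 2 := by
  rw [neg, norm_smul, mul_pow, norm_sub_sq_real, h.norm_vol, ht]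
  norm_num
  ring

theorem abs_ht_le (x : E) : |ht T x| ≤ ‖x‖ ^ 2 := by
  rw [ht]
  refine (abs_real_inner_le_norm _ _).trans ?_
  rw [h.norm_vol]
  exact le_of_eq (by ring)

/-- the key relation -/
theorem key {u : Fin 4 → Fin 4 → ℝ} (hu : Anti u) {w : Fin 4 → ℝ} {x : E} (hx : ‖x‖ = 1)
    (hB : Bw T u x = Aw T w x) : Nm u * ht T x = Pf u * (1 + ht T x ^ 2) := by
  have hv : Bw T u (vol T x) = -Aw T w (vol T x) := by
    rw [← h.vol_Bw, hB, h.vol_Aw]
  have Bsmul : ∀ (c : ℝ) (y : E), Bw T u (c • y) = c • Bw T u y := by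
    intro c y
    rw [h.Bw_eq hu, h.Bw_eq hu]
    simp only [map_smul]; module
  have Badd : ∀ (y z : E), Bw T u (y + z) = Bw T u y + Bw T u z := by
    intro y z
    rw [h.Bw_eq hu, h.Bw_eq hu, h.Bw_eq hu]
    simp only [map_add]; module
  have h1 : Bw T u (pos T x) = Aw T w (neg T x) := by
    rw [pos, neg, Bsmul, Badd, hB, hv, map_smul, map_sub]; module
  have h2 : Bw T u (neg T x) = Aw T w (pos T x) := by
    have : neg T x = (1 / 2 : ℝ) • x + (-(1 / 2) : ℝ) • vol T x := by rw [neg]; module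
    rw [this, Badd, Bsmul, Bsmul, hB, hv, pos, map_smul, map_add]; module
  have n1 := congrArg (fun y => ‖y‖ ^ 2) h1
  have n2 := congrArg (fun y => ‖y‖ ^ 2) h2
  simp only [h.norm_Bw_sq hu, h.norm_Aw_sq] at n1 n2
  rw [h.vol_pos, real_inner_self_eq_norm_sq] at n1
  rw [h.vol_neg, inner_neg_right, real_inner_self_eq_norm_sq] at n2
  rw [h.norm_pos_sq, h.norm_neg_sq, hx] at n1 n2
  set W := ∑ i, w i ^ 2
  set H := ht T x
  set N := Nm u
  set P := Pf u
  linear_combination (1 + H) / 2 * n1 - (1 - H) / 2 * n2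

end Cliff

end Pool.Agent.T2H92.SR
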