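import Pool.Agent.T2H92.SR.Lie

set_option autoImplicit false

open scoped InnerProductSpace RealInnerProductSpace Matrix
open Set

namespace Pool.Agent.T2H92.SR

variable {E : Type*} [NormedAddCommGroup E] [InnerProductSpace ℝ E]
variable {T : Fin 4 → E →L[ℝ] E}

theorem Cliff.inner_pos_neg (h : Cliff T) {a b : E} (ha : vol T a = a) (hb : vol T b = -b) :
    ⟪a, b⟫ = 0 := by
  have h1 := h.vol_symm a b
  rw [ha, hb, inner_neg_right] at h1
  linarith

theorem Cliff.exists_Aw (h : Cliff T) (hdim : Module.finrank ℝ E = 8) {ξ η : E} (hξ : ‖ξ‖ = 1)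
    (hη : ‖η‖ = 1) (vξ : vol T ξ = ξ) (vη : vol T η = -η) :
    ∃ w : Fin 4 → ℝ, ∑ i, w i ^ 2 = 1 ∧ Aw T w ξ = η := by
  have : FiniteDimensional ℝ E := Module.finite_of_finrank_pos (by rw [hdim]; norm_num)
  let b : Fin 4 ⊕ Fin 4 → E := Sum.elim (fun i => T 0 (T i ξ)) (fun i => T i ξ)
  have v1 : ∀ i, vol T (T i ξ) = -T i ξ := fun i => by rw [h.vol_T, vξ]
  have v2 : ∀ i, vol T (T 0 (T i ξ)) = T 0 (T i ξ) := fun i => by
    rw [h.vol_T, v1, map_neg, neg_neg]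
  have hon : Orthonormal ℝ b := by
    rw [orthonormal_iff_ite]
    rintro (i | i) (j | j)
    · show ⟪T 0 (T i ξ), T 0 (T j ξ)⟫ = _
      rw [h.inner_same, h.inner_TT, hξ]
      by_cases hij : i = j <;> simp [hij]
    · show ⟪T 0 (T i ξ), T j ξ⟫ = _
      rw [h.inner_pos_neg (v2 i) (v1 j)]
      simp
    · show ⟪T i ξ, T 0 (T j ξ)⟫ = _
      rw [real_inner_comm, h.inner_pos_neg (v2 j) (v1 i)]
      simp
    · show ⟪T i ξ, T j ξ⟫ = _
      rw [h.inner_TT, hξ]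
      by_cases hij : i = j <;> simp [hij]
  have hcard : Fintype.card (Fin 4 ⊕ Fin 4) = Module.finrank ℝ E := by rw [hdim]; simp
  have hspan : ⊤ ≤ Submodule.span ℝ (Set.range b) := by
    have := (basisOfOrthonormalOfCardEqFinrank hon hcard).span_eq
    rw [coe_basisOfOrthonormalOfCardEqFinrank] at this
    exact this.ge
  let B := OrthonormalBasis.mk hon hspan
  have hB : ∀ i, B i = b i := fun i => by simp [B]
  have hsum := B.sum_repr' η
  rw [Fintype.sum_sum_type] at hsum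
  simp only [hB] at hsum
  have z1 : ∀ i, ⟪b (Sum.inl i), η⟫ = 0 := fun i => h.inner_pos_neg (v2 i) vη
  simp only [z1, zero_smul, Finset.sum_const_zero, zero_add] at hsum
  refine ⟨fun i => ⟪T i ξ, η⟫, ?_, ?_⟩
  · have e1 := h.norm_Aw_sq (fun i => ⟪T i ξ, η⟫) ξ
    have e2 : Aw T (fun i => ⟪T i ξ, η⟫) ξ = η := by rw [Aw_apply]; exact hsum
    rw [e2, hξ, hη] at e1
    linarith
  · rw [Aw_apply]; exact hsum

/-- the properties used for the curve argument -/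
structure Hp (T : Fin 4 → E →L[ℝ] E) (G : E → E) : Prop where
  diff : ∀ z, z ≠ 0 → DifferentiableAt ℝ G z
  norm_one : ∀ z, z ≠ 0 → ‖G z‖ = 1
  isom : ∀ z, z ≠ 0 → ∀ w, ‖fderiv ℝ G z (Aw T w z)‖ ^ 2 = ∑ i, w i ^ 2
  ht_eq : ∀ x, ‖x‖ = 1 → ht T (G x) = ht T x
  homog : ∀ z, z ≠ 0 → ∀ c : ℝ, 0 < c → G (c • z) = G z

variable {G : E → E}

theorem posL (T : Fin 4 → E →L[ℝ] E) (x : E) :
    ((1 / 2 : ℝ) • (ContinuousLinearMap.id ℝ E + vol T)) x = pos T x := by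
  simp [pos]

theorem negL (T : Fin 4 → E →L[ℝ] E) (x : E) :
    ((1 / 2 : ℝ) • (ContinuousLinearMap.id ℝ E - vol T)) x = neg T x := by
  simp [neg]

theorem curve (h : Cliff T) (hdim : Module.finrank ℝ E = 8) (hG : Hp T G) {ξ η : E}
    (hξ : ‖ξ‖ = 1) (hη : ‖η‖ = 1) (vξ : vol T ξ = ξ) (vη : vol T η = -η) :
    ∀ θ ∈ Ioo (0 : ℝ) (Real.pi / 2), G (Real.cos θ • ξ + Real.sin θ • η) =
      Real.cos θ • G ξ + Real.sin θ • G η := by
  obtain ⟨w, hw, hwη⟩ := h.exists_Aw hdim hξ hη vξ vη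
  have hwξ : Aw T w η = -ξ := by
    rw [← hwη, h.Aw_Aw, hw]; simp
  have horth : ⟪ξ, η⟫ = 0 := h.inner_pos_neg vξ vη
  let γ : ℝ → E := fun θ => Real.cos θ • ξ + Real.sin θ • η
  have hγn : ∀ θ, ‖γ θ‖ = 1 := by
    intro θ
    have : ‖γ θ‖ ^ 2 = 1 := by
      simp only [γ]
      rw [norm_add_sq_real, inner_smul_left, inner_smul_right, horth, norm_smul, norm_smul,
        mul_pow, mul_pow, hξ, hη]
      simp
    nlinarith [norm_nonneg (γ θ)]
  have hγ0 : ∀ θ, γ θ ≠ 0 := by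
    intro θ h0
    have := hγn θ
    rw [h0] at this
    simp at this
  have hγd : ∀ θ, HasDerivAt γ (Aw T w (γ θ)) θ := by
    intro θ
    have e : Aw T w (γ θ) = (-Real.sin θ) • ξ + Real.cos θ • η := by
      simp only [γ, map_add, map_smul, hwη, hwξ]; module
    rw [e]
    exact ((Real.hasDerivAt_cos θ).smul_const ξ).add ((Real.hasDerivAt_sin θ).smul_const η)
  let c : ℝ → E := fun θ => G (γ θ)
  let c' : ℝ → E := fun θ => fderiv ℝ G (γ θ) (Aw T w (γ θ))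
  have hc : ∀ θ, HasDerivAt c (c' θ) θ := fun θ =>
    (hG.diff _ (hγ0 θ)).hasFDerivAt.comp_hasDerivAt θ (hγd θ)
  have hc'n : ∀ θ, ‖c' θ‖ ^ 2 = 1 := fun θ => by
    rw [hG.isom _ (hγ0 θ), hw]
  have hcn : ∀ θ, ‖c θ‖ = 1 := fun θ => hG.norm_one _ (hγ0 θ)
  have hγht : ∀ θ, ht T (γ θ) = Real.cos θ ^ 2 - Real.sin θ ^ 2 := by
    intro θ
    simp only [ht, γ, map_add, map_smul, vξ, vη]
    rw [inner_add_left, inner_add_right, inner_add_right]
    simp only [inner_smul_left, inner_smul_right, inner_neg_right, smul_neg, horth,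
      real_inner_comm ξ η, real_inner_self_eq_norm_sq, hξ, hη]
    simp
    ring
  have hcht : ∀ θ, ht T (c θ) = Real.cos θ ^ 2 - Real.sin θ ^ 2 := fun θ => by
    rw [hG.ht_eq _ (hγn θ), hγht]
  have n1 : ∀ θ, ‖pos T (c θ)‖ ^ 2 = Real.cos θ ^ 2 := by
    intro θ
    rw [h.norm_pos_sq, hcn, hcht]
    nlinarith [Real.sin_sq_add_cos_sq θ]
  have n2 : ∀ θ, ‖neg T (c θ)‖ ^ 2 = Real.sin θ ^ 2 := by
    intro θ
    rw [h.norm_neg_sq, hcn, hcht]
    nlinarith [Real.sin_sq_add_cos_sq θ]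
  have d1 : ∀ θ, HasDerivAt (fun θ => pos T (c θ)) (pos T (c' θ)) θ := by
    intro θ
    have := ((1 / 2 : ℝ) • (ContinuousLinearMap.id ℝ E + vol T)).hasFDerivAt.comp_hasDerivAt θ (hc θ)
    simpa only [Function.comp_def, posL] using this
  have d2 : ∀ θ, HasDerivAt (fun θ => neg T (c θ)) (neg T (c' θ)) θ := by
    intro θ
    have := ((1 / 2 : ℝ) • (ContinuousLinearMap.id ℝ E - vol T)).hasFDerivAt.comp_hasDerivAt θ (hc θ)
    simpa only [Function.comp_def, negL] using this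
  have i1 : ∀ θ, ⟪pos T (c θ), pos T (c' θ)⟫ = -(Real.cos θ * Real.sin θ) := by
    intro θ
    have e1 := (d1 θ).norm_sq
    have e2 : HasDerivAt (fun θ => ‖pos T (c θ)‖ ^ 2) (2 * Real.cos θ * (-Real.sin θ)) θ := by
      simp only [n1]
      have := (Real.hasDerivAt_cos θ).pow 2
      simp only [Nat.cast_ofNat, Nat.add_one_sub_one, pow_one] at this
      exact this
    have := e1.unique e2
    linarith
  have i2 : ∀ θ, ⟪neg T (c θ), neg T (c' θ)⟫ = Real.sin θ * Real.cos θ := by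
    intro θ
    have e1 := (d2 θ).norm_sq
    have e2 : HasDerivAt (fun θ => ‖neg T (c θ)‖ ^ 2) (2 * Real.sin θ * Real.cos θ) θ := by
      simp only [n2]
      have := (Real.hasDerivAt_sin θ).pow 2
      simp only [Nat.cast_ofNat, Nat.add_one_sub_one, pow_one] at this
      exact this
    have := e1.unique e2
    linarith
  have hsum : ∀ θ, ‖pos T (c' θ)‖ ^ 2 + ‖neg T (c' θ)‖ ^ 2 = 1 := by
    intro θ
    rw [h.norm_pos_sq, h.norm_neg_sq, hc'n]
    ring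
  have m1 : ∀ θ, ‖Real.cos θ • pos T (c' θ) + Real.sin θ • pos T (c θ)‖ ^ 2 =
      Real.cos θ ^ 2 * (‖pos T (c' θ)‖ ^ 2 - Real.sin θ ^ 2) := by
    intro θ
    rw [norm_add_sq_real, inner_smul_left, inner_smul_right, real_inner_comm, i1, norm_smul,
      norm_smul, mul_pow, mul_pow, n1]
    simp
    ring
  have m2 : ∀ θ, ‖Real.sin θ • neg T (c' θ) - Real.cos θ • neg T (c θ)‖ ^ 2 =
      Real.sin θ ^ 2 * (‖neg T (c' θ)‖ ^ 2 - Real.cos θ ^ 2) := by
    intro θ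
    rw [norm_sub_sq_real, inner_smul_left, inner_smul_right, real_inner_comm, i2, norm_smul,
      norm_smul, mul_pow, mul_pow, n2]
    simp
    ring
  have hpos : ∀ θ ∈ Ioo (0 : ℝ) (Real.pi / 2), 0 < Real.cos θ ∧ 0 < Real.sin θ := by
    intro θ hθ
    refine ⟨Real.cos_pos_of_mem_Ioo ⟨by linarith [hθ.1, Real.pi_pos], hθ.2⟩,
      Real.sin_pos_of_pos_of_lt_pi hθ.1 (by linarith [hθ.2, Real.pi_pos])⟩
  have both : ∀ θ ∈ Ioo (0 : ℝ) (Real.pi / 2),
      Real.cos θ • pos T (c' θ) + Real.sin θ • pos T (c θ) = 0 ∧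
      Real.sin θ • neg T (c' θ) - Real.cos θ • neg T (c θ) = 0 := by
    intro θ hθ
    obtain ⟨hc0, hs0⟩ := hpos θ hθ
    have a1 : 0 ≤ ‖pos T (c' θ)‖ ^ 2 - Real.sin θ ^ 2 := by
      have := m1 θ
      by_contra hneg
      push Not at hneg
      have : Real.cos θ ^ 2 * (‖pos T (c' θ)‖ ^ 2 - Real.sin θ ^ 2) < 0 :=
        mul_neg_of_pos_of_neg (by positivity) hneg
      rw [← m1 θ] at this
      linarith [sq_nonneg ‖Real.cos θ • pos T (c' θ) + Real.sin θ • pos T (c θ)‖]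
    have a2 : 0 ≤ ‖neg T (c' θ)‖ ^ 2 - Real.cos θ ^ 2 := by
      by_contra hneg
      push Not at hneg
      have : Real.sin θ ^ 2 * (‖neg T (c' θ)‖ ^ 2 - Real.cos θ ^ 2) < 0 :=
        mul_neg_of_pos_of_neg (by positivity) hneg
      rw [← m2 θ] at this
      linarith [sq_nonneg ‖Real.sin θ • neg T (c' θ) - Real.cos θ • neg T (c θ)‖]
    have hsc := Real.sin_sq_add_cos_sq θ
    have hs := hsum θ
    have b1 : ‖pos T (c' θ)‖ ^ 2 - Real.sin θ ^ 2 = 0 := by linarith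
    have b2 : ‖neg T (c' θ)‖ ^ 2 - Real.cos θ ^ 2 = 0 := by linarith
    refine ⟨?_, ?_⟩
    · have := m1 θ
      rw [b1, mul_zero] at this
      exact norm_eq_zero.1 (pow_eq_zero_iff two_ne_zero |>.1 this)
    · have := m2 θ
      rw [b2, mul_zero] at this
      exact norm_eq_zero.1 (pow_eq_zero_iff two_ne_zero |>.1 this)
  have hopen : IsOpen (Ioo (0 : ℝ) (Real.pi / 2)) := isOpen_Ioo
  have hpre : IsPreconnected (Ioo (0 : ℝ) (Real.pi / 2)) := isPreconnected_Ioo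
  have u1 : ∀ θ ∈ Ioo (0 : ℝ) (Real.pi / 2),
      HasDerivAt (fun θ => (Real.cos θ)⁻¹ • pos T (c θ)) 0 θ := by
    intro θ hθ
    obtain ⟨hc0, hs0⟩ := hpos θ hθ
    have e : HasDerivAt (fun θ => (Real.cos θ)⁻¹ • pos T (c θ))
        ((Real.cos θ)⁻¹ • pos T (c' θ) + (-(-Real.sin θ) / Real.cos θ ^ 2) • pos T (c θ)) θ :=
      ((Real.hasDerivAt_cos θ).inv hc0.ne').smul (d1 θ)
    have e0 : (Real.cos θ)⁻¹ • pos T (c' θ) + (-(-Real.sin θ) / Real.cos θ ^ 2) • pos T (c θ) = 0 := by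
      have : (Real.cos θ)⁻¹ • pos T (c' θ) + (-(-Real.sin θ) / Real.cos θ ^ 2) • pos T (c θ) =
          ((Real.cos θ ^ 2)⁻¹ : ℝ) • (Real.cos θ • pos T (c' θ) + Real.sin θ • pos T (c θ)) := by
        rw [smul_add, smul_smul, smul_smul]
        congr 2
        · field_simp
        · field_simp
      rw [this, (both θ hθ).1, smul_zero]
    rw [e0] at e
    exact e
  have u2 : ∀ θ ∈ Ioo (0 : ℝ) (Real.pi / 2),
      HasDerivAt (fun θ => (Real.sin θ)⁻¹ • neg T (c θ)) 0 θ := by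
    intro θ hθ
    obtain ⟨hc0, hs0⟩ := hpos θ hθ
    have e : HasDerivAt (fun θ => (Real.sin θ)⁻¹ • neg T (c θ))
        ((Real.sin θ)⁻¹ • neg T (c' θ) + (-Real.cos θ / Real.sin θ ^ 2) • neg T (c θ)) θ :=
      ((Real.hasDerivAt_sin θ).inv hs0.ne').smul (d2 θ)
    have e0 : (Real.sin θ)⁻¹ • neg T (c' θ) + (-Real.cos θ / Real.sin θ ^ 2) • neg T (c θ) = 0 := by
      have : (Real.sin θ)⁻¹ • neg T (c' θ) + (-Real.cos θ / Real.sin θ ^ 2) • neg T (c θ) =
          ((Real.sin θ ^ 2)⁻¹ : ℝ) • (Real.sin θ • neg T (c' θ) - Real.cos θ • neg T (c θ)) := by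
        rw [smul_sub, smul_smul, smul_smul, sub_eq_add_neg, ← neg_smul]
        congr 2
        · field_simp
        · field_simp
      rw [this, (both θ hθ).2, smul_zero]
    rw [e0] at e
    exact e
  have hmid : Real.pi / 4 ∈ Ioo (0 : ℝ) (Real.pi / 2) := ⟨by positivity, by linarith [Real.pi_pos]⟩
  obtain ⟨p0, hp0⟩ : ∃ p0 : E, ∀ θ ∈ Ioo (0 : ℝ) (Real.pi / 2), pos T (c θ) = Real.cos θ • p0 := by
    refine ⟨(Real.cos (Real.pi / 4))⁻¹ • pos T (c (Real.pi / 4)), fun θ hθ => ?_⟩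
    have := hopen.is_const_of_deriv_eq_zero hpre
      (fun θ hθ => (u1 θ hθ).differentiableAt.differentiableWithinAt)
      (fun θ hθ => (u1 θ hθ).deriv) hθ hmid
    rw [← this, smul_smul, mul_inv_cancel₀ (hpos θ hθ).1.ne', one_smul]
  obtain ⟨q0, hq0⟩ : ∃ q0 : E, ∀ θ ∈ Ioo (0 : ℝ) (Real.pi / 2), neg T (c θ) = Real.sin θ • q0 := by
    refine ⟨(Real.sin (Real.pi / 4))⁻¹ • neg T (c (Real.pi / 4)), fun θ hθ => ?_⟩
    have := hopen.is_const_of_deriv_eq_zero hpre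
      (fun θ hθ => (u2 θ hθ).differentiableAt.differentiableWithinAt)
      (fun θ hθ => (u2 θ hθ).deriv) hθ hmid
    rw [← this, smul_smul, mul_inv_cancel₀ (hpos θ hθ).2.ne', one_smul]
  have hall : ∀ θ ∈ Ioo (0 : ℝ) (Real.pi / 2), c θ = Real.cos θ • p0 + Real.sin θ • q0 := by
    intro θ hθ
    rw [← hp0 θ hθ, ← hq0 θ hθ, pos_add_neg]
  have hcl : EqOn c (fun θ => Real.cos θ • p0 + Real.sin θ • q0) (Icc 0 (Real.pi / 2)) := by
    have hcc : Continuous c := continuous_iff_continuousAt.2 fun θ => (hc θ).continuousAt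
    have := (show EqOn c (fun θ => Real.cos θ • p0 + Real.sin θ • q0)
      (Ioo 0 (Real.pi / 2)) from hall).closure hcc (by fun_prop)
    rwa [closure_Ioo (by positivity)] at this
  have e1 := hcl (left_mem_Icc.2 (by positivity))
  have e2 := hcl (right_mem_Icc.2 (by positivity))
  simp only [c, γ, Real.cos_zero, Real.sin_zero, one_smul, zero_smul, add_zero] at e1
  simp only [c, γ, Real.cos_pi_div_two, Real.sin_pi_div_two, one_smul, zero_smul, zero_add] at e2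
  intro θ hθ
  rw [e1, e2]
  exact hall θ hθ

end Pool.Agent.T2H92.SR
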