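import Mathlib

/-!
# The trivializable sub-Riemannian seven sphere

Definitions: Clifford quadruples of `8 × 8` matrices, the linear vector fields `X(A)`, the
horizontal distribution on `𝕊⁷`, sub-Riemannian isometries, and a group of orthogonal matrices.
-/

set_option autoImplicit false

open scoped Manifold ContDiff InnerProductSpace RealInnerProductSpace Matrix

namespace Pool.Agent.T2H92.SR

/-- Euclidean `8`-space. -/
abbrev E8 : Type := EuclideanSpace ℝ (Fin 8)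

instance factE8 : Fact (Module.finrank ℝ E8 = 7 + 1) := ⟨by simp⟩

/-- The unit sphere `𝕊⁷ ⊂ ℝ⁸`, with Mathlib's smooth structure. -/
abbrev S7 : Type := Metric.sphere (0 : E8) 1

/-- Four real skew-symmetric `8 × 8` matrices with `A_i A_j + A_j A_i = -2 δ_ij I`. -/
structure IsCliffordQuadruple (A : Fin 4 → Matrix (Fin 8) (Fin 8) ℝ) : Prop where
  skew : ∀ i, (A i)ᵀ = -A i
  clifford : ∀ i j, A i * A j + A j * A i = if i = j then (-2 : ℝ) • 1 else 0

/-- The value at `x` of the linear vector field `X(A) = ∑_{i,j} A_ij x_j ∂/∂x_i`. -/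
noncomputable def X (A : Matrix (Fin 8) (Fin 8) ℝ) (x : E8) : E8 :=
  WithLp.toLp 2 (fun i => ∑ j, A i j * x j)

/-- The differential of the inclusion `𝕊⁷ → ℝ⁸`. -/
noncomputable def dι (x : S7) : TangentSpace (𝓡 7) x →L[ℝ] E8 :=
  mvfderiv (𝓡 7) ((↑) : S7 → E8) x

/-- The horizontal space at `x`, as a subspace of the tangent space `T_x 𝕊⁷`: the tangent vectors
which are (in `ℝ⁸`) linear combinations of `X(A_1) x, ..., X(A_4) x`. -/
noncomputable def Hor (A : Fin 4 → Matrix (Fin 8) (Fin 8) ℝ) (x : S7) :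
    Submodule ℝ (TangentSpace (𝓡 7) x) :=
  (Submodule.span ℝ (Set.range fun k => X (A k) x)).comap (dι x).toLinearMap

/-- A sub-Riemannian isometry of `𝕊⁷_T`: a (smooth) diffeomorphism of `𝕊⁷` whose differential maps
horizontal vectors to horizontal vectors and preserves their inner products (for the restriction
of the round metric). -/
structure IsSRIsometry (A : Fin 4 → Matrix (Fin 8) (Fin 8) ℝ)
    (φ : S7 ≃ₘ⟮𝓡 7, 𝓡 7⟯ S7) : Prop where
  map_hor : ∀ x, ∀ v ∈ Hor A x, mfderiv (𝓡 7) (𝓡 7) φ x v ∈ Hor A (φ x)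
  isometric : ∀ x, ∀ v ∈ Hor A x, ∀ w ∈ Hor A x,
    ⟪dι (φ x) (mfderiv (𝓡 7) (𝓡 7) φ x v), dι (φ x) (mfderiv (𝓡 7) (𝓡 7) φ x w)⟫ =
      ⟪dι x v, dι x w⟫

theorem conj_span_mem {A : Fin 4 → Matrix (Fin 8) (Fin 8) ℝ} {g : Matrix (Fin 8) (Fin 8) ℝ}
    (hg : ∀ k, g * A k * gᵀ ∈ Submodule.span ℝ (Set.range A)) {X : Matrix (Fin 8) (Fin 8) ℝ}
    (hX : X ∈ Submodule.span ℝ (Set.range A)) : g * X * gᵀ ∈ Submodule.span ℝ (Set.range A) := by
  induction hX using Submodule.span_induction with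
  | mem x hx => obtain ⟨k, rfl⟩ := hx; exact hg k
  | zero => simp
  | add x y _ _ hx hy =>
    rw [Matrix.mul_add, Matrix.add_mul]; exact Submodule.add_mem _ hx hy
  | smul a x _ hx =>
    rw [Matrix.mul_smul, Matrix.smul_mul]; exact Submodule.smul_mem _ _ hx

/-- The group of orthogonal matrices `g` for which every `g A_k gᵀ` is a linear combination of
`A_1, A_2, A_3, A_4`. -/
def linGroup (A : Fin 4 → Matrix (Fin 8) (Fin 8) ℝ) :
    Subgroup (Matrix.orthogonalGroup (Fin 8) ℝ) where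
  carrier := {g | ∀ k, (g : Matrix (Fin 8) (Fin 8) ℝ) * A k * (g : Matrix (Fin 8) (Fin 8) ℝ)ᵀ ∈
    Submodule.span ℝ (Set.range A)}
  mul_mem' := by
    intro g h hg hh k
    have := conj_span_mem hg (hh k)
    rw [Submonoid.coe_mul, Matrix.transpose_mul]
    simpa only [Matrix.mul_assoc] using this
  one_mem' := by
    intro k
    simpa using Submodule.subset_span (Set.mem_range_self k)
  inv_mem' := by
    intro g hg k
    have h1 : (g : Matrix (Fin 8) (Fin 8) ℝ)ᵀ * (g : Matrix (Fin 8) (Fin 8) ℝ) = 1 :=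
      (Matrix.mem_orthogonalGroup_iff' (Fin 8) ℝ).1 g.2
    let W := Submodule.span ℝ (Set.range A)
    let L : W →ₗ[ℝ] W :=
      { toFun := fun X => ⟨(g : Matrix (Fin 8) (Fin 8) ℝ) * X * (g : Matrix (Fin 8) (Fin 8) ℝ)ᵀ,
          conj_span_mem hg X.2⟩
        map_add' := fun X Y => Subtype.ext (by simp [Matrix.mul_add, Matrix.add_mul])
        map_smul' := fun c X => Subtype.ext (by simp) }
    have hfin : FiniteDimensional ℝ W := FiniteDimensional.span_of_finite ℝ (Set.finite_range A)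
    have hinj : Function.Injective L := by
      rw [← LinearMap.ker_eq_bot, LinearMap.ker_eq_bot']
      rintro ⟨X, hX⟩ h0
      apply Subtype.ext
      have h2 : (g : Matrix (Fin 8) (Fin 8) ℝ) * X * (g : Matrix (Fin 8) (Fin 8) ℝ)ᵀ = 0 :=
        congrArg Subtype.val h0
      have h3 : (g : Matrix (Fin 8) (Fin 8) ℝ)ᵀ *
          ((g : Matrix (Fin 8) (Fin 8) ℝ) * X * (g : Matrix (Fin 8) (Fin 8) ℝ)ᵀ) *
          (g : Matrix (Fin 8) (Fin 8) ℝ) = X := by
        calc _ = ((g : Matrix (Fin 8) (Fin 8) ℝ)ᵀ * (g : Matrix (Fin 8) (Fin 8) ℝ)) * X *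
              ((g : Matrix (Fin 8) (Fin 8) ℝ)ᵀ * (g : Matrix (Fin 8) (Fin 8) ℝ)) := by
              simp only [Matrix.mul_assoc]
          _ = X := by rw [h1]; simp
      show X = 0
      rw [← h3, h2]; simp
    obtain ⟨⟨X, hX⟩, hLX⟩ := LinearMap.injective_iff_surjective.1 hinj
      ⟨A k, Submodule.subset_span (Set.mem_range_self k)⟩
    have h2 : (g : Matrix (Fin 8) (Fin 8) ℝ) * X * (g : Matrix (Fin 8) (Fin 8) ℝ)ᵀ = A k :=
      congrArg Subtype.val hLX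
    have h4 : ((g⁻¹ : Matrix.orthogonalGroup (Fin 8) ℝ) : Matrix (Fin 8) (Fin 8) ℝ) =
        (g : Matrix (Fin 8) (Fin 8) ℝ)ᵀ := rfl
    rw [h4, Matrix.transpose_transpose, ← h2]
    have h3 : (g : Matrix (Fin 8) (Fin 8) ℝ)ᵀ *
        ((g : Matrix (Fin 8) (Fin 8) ℝ) * X * (g : Matrix (Fin 8) (Fin 8) ℝ)ᵀ) *
        (g : Matrix (Fin 8) (Fin 8) ℝ) = X := by
      calc _ = ((g : Matrix (Fin 8) (Fin 8) ℝ)ᵀ * (g : Matrix (Fin 8) (Fin 8) ℝ)) * X *
            ((g : Matrix (Fin 8) (Fin 8) ℝ)ᵀ * (g : Matrix (Fin 8) (Fin 8) ℝ)) := by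
            simp only [Matrix.mul_assoc]
        _ = X := by rw [h1]; simp
    rw [h3]
    exact hX

theorem mem_linGroup {A : Fin 4 → Matrix (Fin 8) (Fin 8) ℝ} {g : Matrix.orthogonalGroup (Fin 8) ℝ} :
    g ∈ linGroup A ↔ ∀ k, (g : Matrix (Fin 8) (Fin 8) ℝ) * A k * (g : Matrix (Fin 8) (Fin 8) ℝ)ᵀ ∈
      Submodule.span ℝ (Set.range A) := Iff.rfl

/-- The set of (the homeomorphisms underlying) the sub-Riemannian isometries of `𝕊⁷_T`. -/
def isomSet (A : Fin 4 → Matrix (Fin 8) (Fin 8) ℝ) : Set (S7 ≃ₜ S7) :=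
  {f | ∃ φ : S7 ≃ₘ⟮𝓡 7, 𝓡 7⟯ S7, IsSRIsometry A φ ∧ φ.toHomeomorph = f}

/-- `Θ g` is the restriction to the sphere of the linear map with matrix `g`. -/
def IsLinearAction {A : Fin 4 → Matrix (Fin 8) (Fin 8) ℝ} (Θ : linGroup A →* (S7 ≃ₜ S7)) : Prop :=
  ∀ (g : linGroup A) (x : S7), WithLp.ofLp (Θ g x : E8) =
    (g : Matrix (Fin 8) (Fin 8) ℝ).mulVec (WithLp.ofLp (x : E8))

/-- The underlying set of matrices of `linGroup A`. -/
def linSet (A : Fin 4 → Matrix (Fin 8) (Fin 8) ℝ) : Set (Matrix (Fin 8) (Fin 8) ℝ) :=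
  {M | ∃ g ∈ linGroup A, (g : Matrix (Fin 8) (Fin 8) ℝ) = M}

/-- `𝔤` is the Lie algebra of the linear group `G`: `Z ∈ 𝔤` iff `exp (t Z) ∈ G` for all real `t`. -/
def IsLieAlgebraOf (𝔤 : Submodule ℝ (Matrix (Fin 8) (Fin 8) ℝ))
    (G : Set (Matrix (Fin 8) (Fin 8) ℝ)) : Prop :=
  ∀ Z, Z ∈ 𝔤 ↔ ∀ t : ℝ, NormedSpace.exp (t • Z) ∈ G

end Pool.Agent.T2H92.SR
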