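import Pool.Agent.T2H92.SR.LieAlg

set_option autoImplicit false

open scoped InnerProductSpace RealInnerProductSpace Matrix
open Set

namespace Pool.Agent.T2H92.SR

variable {E : Type*} [NormedAddCommGroup E] [InnerProductSpace ℝ E]
variable {T : Fin 4 → E →L[ℝ] E}

/-- coefficient of `[Z, T k]` at `T j` -/
noncomputable def cf (T : Fin 4 → E →L[ℝ] E) (ξ : E) (k j : Fin 4) (Z : E →L[ℝ] E) : ℝ :=
  ⟪Z (T k ξ) - T k (Z ξ), T j ξ⟫

/-- coefficient of `Z ξ` at `T 0 (T i ξ)` -/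
noncomputable def cs (T : Fin 4 → E →L[ℝ] E) (ξ : E) (i : Fin 4) (Z : E →L[ℝ] E) : ℝ :=
  ⟪Z ξ, T 0 (T i ξ)⟫

theorem cf_add (ξ : E) (k j : Fin 4) (Z Z' : E →L[ℝ] E) :
    cf T ξ k j (Z + Z') = cf T ξ k j Z + cf T ξ k j Z' := by
  simp only [cf, add_apply, map_add, inner_sub_left, inner_add_left]; ring

theorem cf_smul (ξ : E) (k j : Fin 4) (c : ℝ) (Z : E →L[ℝ] E) :
    cf T ξ k j (c • Z) = c * cf T ξ k j Z := by
  simp only [cf, smul_apply, map_smul, inner_sub_left, inner_smul_left]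
  simp; ring

theorem cs_add (ξ : E) (i : Fin 4) (Z Z' : E →L[ℝ] E) :
    cs T ξ i (Z + Z') = cs T ξ i Z + cs T ξ i Z' := by
  simp only [cs, add_apply, inner_add_left]

theorem cs_smul (ξ : E) (i : Fin 4) (c : ℝ) (Z : E →L[ℝ] E) :
    cs T ξ i (c • Z) = c * cs T ξ i Z := by
  simp only [cs, smul_apply, inner_smul_left]
  simp

/-- the nine coordinates -/
noncomputable def Psi (T : Fin 4 → E →L[ℝ] E) (ξ : E) : (E →L[ℝ] E) →ₗ[ℝ] (Fin 9 → ℝ) where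
  toFun Z := ![cf T ξ 0 1 Z, cf T ξ 0 2 Z, cf T ξ 0 3 Z, cf T ξ 1 2 Z, cf T ξ 1 3 Z, cf T ξ 2 3 Z,
    cs T ξ 1 Z, cs T ξ 2 Z, cs T ξ 3 Z]
  map_add' Z Z' := by
    simp only [cf_add, cs_add]
    simp
  map_smul' c Z := by
    simp only [cf_smul, cs_smul]
    simp

theorem cf_anti (h : Cliff T) {Z : E →L[ℝ] E} (hZ : ∀ x y, ⟪Z x, y⟫ = -⟪x, Z y⟫) (ξ : E)
    (k j : Fin 4) : cf T ξ k j Z + cf T ξ j k Z = 0 := by
  simp only [cf, inner_sub_left]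
  have e1 : ⟪Z (T j ξ), T k ξ⟫ = -⟪Z (T k ξ), T j ξ⟫ := by
    rw [hZ, real_inner_comm]
  rw [e1, h.skew k, h.skew j]
  have e2 : ⟪Z ξ, T k (T j ξ)⟫ + ⟪Z ξ, T j (T k ξ)⟫ = 0 := by
    by_cases hkj : k = j
    · subst hkj
      rw [h.sq, inner_neg_right]
      have := hZ ξ ξ
      rw [real_inner_comm (Z ξ) ξ] at this
      linarith [real_inner_comm (Z ξ) ξ]
    · rw [h.anti k j ξ hkj, inner_neg_right]; ring
  linarith

theorem Cliff.cf_eq (h : Cliff T) {ξ : E} (hξ : ‖ξ‖ = 1) {k : Fin 4} {Z : E →L[ℝ] E}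
    {w : Fin 4 → ℝ} (hw : ∀ x, Z (T k x) - T k (Z x) = Aw T w x) (j : Fin 4) :
    cf T ξ k j Z = w j := by
  rw [cf, hw, h.inner_Aw_T, hξ]
  simp

theorem Cliff.Psi_inj (h : Cliff T) (hdim : Module.finrank ℝ E = 8) {ξ : E} (hξ : ‖ξ‖ = 1)
    (vξ : vol T ξ = ξ) {Z : E →L[ℝ] E} (hZ : Z ∈ kk T) (h0 : Psi T ξ Z = 0) : Z = 0 := by
  obtain ⟨hs, hw⟩ := hZ
  have c01 : cf T ξ 0 1 Z = 0 := congrFun h0 0
  have c02 : cf T ξ 0 2 Z = 0 := congrFun h0 1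
  have c03 : cf T ξ 0 3 Z = 0 := congrFun h0 2
  have c12 : cf T ξ 1 2 Z = 0 := congrFun h0 3
  have c13 : cf T ξ 1 3 Z = 0 := congrFun h0 4
  have c23 : cf T ξ 2 3 Z = 0 := congrFun h0 5
  have s1 : cs T ξ 1 Z = 0 := congrFun h0 6
  have s2 : cs T ξ 2 Z = 0 := congrFun h0 7
  have s3 : cs T ξ 3 Z = 0 := congrFun h0 8
  have ha := fun k j => cf_anti h hs ξ k j
  have c : ∀ k j, cf T ξ k j Z = 0 := by
    intro k j
    have a00 := ha 0 0
    have a11 := ha 1 1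
    have a22 := ha 2 2
    have a33 := ha 3 3
    have a01 := ha 0 1
    have a02 := ha 0 2
    have a03 := ha 0 3
    have a12 := ha 1 2
    have a13 := ha 1 3
    have a23 := ha 2 3
    fin_cases k <;> fin_cases j <;> simp only [Fin.zero_eta, Fin.mk_one, Fin.reduceFinMk] <;>
      linarith
  have hcomm : ∀ k x, Z (T k x) = T k (Z x) := by
    intro k x
    obtain ⟨w, hw'⟩ := hw k
    have w0 : w = 0 := by
      funext j
      rw [← h.cf_eq hξ hw' j, c]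
      rfl
    have := hw' x
    rw [w0, Aw_apply] at this
    simp at this
    exact sub_eq_zero.1 this
  apply h.comm_zero hdim hξ vξ hcomm
  obtain ⟨B, hB⟩ := h.exists_onb hdim hξ vξ
  have vZ : vol T (Z ξ) = Z ξ := by
    nth_rewrite 2 [← vξ]
    simp only [vol_apply, hcomm]
  have zz : ⟪Z ξ, ξ⟫ = 0 := by
    have := hs ξ ξ
    linarith [real_inner_comm (Z ξ) ξ]
  have key : ∀ j, ⟪B j, Z ξ⟫ = 0 := by
    intro j
    rw [hB, real_inner_comm]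
    rcases j with j | j
    · show ⟪Z ξ, T 0 (T j ξ)⟫ = 0
      fin_cases j
      · show ⟪Z ξ, T 0 (T 0 ξ)⟫ = 0
        rw [h.sq, inner_neg_right, zz, neg_zero]
      · exact s1
      · exact s2
      · exact s3
    · show ⟪Z ξ, T j ξ⟫ = 0
      exact h.inner_pos_neg vZ (by rw [h.vol_T, vξ])
  rw [← B.sum_repr' (Z ξ)]
  exact Finset.sum_eq_zero fun j _ => by rw [key, zero_smul]

/-- the bivector part with prescribed brackets -/
noncomputable def UU (T : Fin 4 → E →L[ℝ] E) (v : Fin 9 → ℝ) : E →L[ℝ] E :=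
  (1 / 2 : ℝ) • (v 0 • T 0 ∘L T 1 + v 1 • T 0 ∘L T 2 + v 2 • T 0 ∘L T 3 + v 3 • T 1 ∘L T 2
    + v 4 • T 1 ∘L T 3 + v 5 • T 2 ∘L T 3)

theorem UU_apply (v : Fin 9 → ℝ) (x : E) : UU T v x =
    (1 / 2 : ℝ) • (v 0 • T 0 (T 1 x) + v 1 • T 0 (T 2 x) + v 2 • T 0 (T 3 x) + v 3 • T 1 (T 2 x)
    + v 4 • T 1 (T 3 x) + v 5 • T 2 (T 3 x)) := by
  simp [UU]

theorem Cliff.UU_skew (h : Cliff T) (v : Fin 9 → ℝ) (x y : E) : ⟪UU T v x, y⟫ = -⟪x, UU T v y⟫ := by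
  simp only [UU_apply, inner_smul_left, inner_smul_right, inner_add_left, inner_add_right]
  have a (i j : Fin 4) (hij : i ≠ j) : ⟪T i (T j x), y⟫ = -⟪x, T i (T j y)⟫ := by
    rw [h.skew, h.skew, neg_neg, h.anti i j y hij, inner_neg_right, neg_neg]
  rw [a 0 1 (by decide), a 0 2 (by decide), a 0 3 (by decide), a 1 2 (by decide),
    a 1 3 (by decide), a 2 3 (by decide)]
  simp only [conj_trivial]
  ring

theorem Cliff.UU_br (h : Cliff T) (v : Fin 9 → ℝ) (x : E) :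
    UU T v (T 0 x) - T 0 (UU T v x) = Aw T ![0, v 0, v 1, v 2] x ∧
    UU T v (T 1 x) - T 1 (UU T v x) = Aw T ![-v 0, 0, v 3, v 4] x ∧
    UU T v (T 2 x) - T 2 (UU T v x) = Aw T ![-v 1, -v 3, 0, v 5] x ∧
    UU T v (T 3 x) - T 3 (UU T v x) = Aw T ![-v 2, -v 4, -v 5, 0] x := by
  simp only [UU_apply, Aw_apply, Fin.sum_univ_four, map_smul, map_add, h.t10, h.t20, h.t30, h.t21,
    h.t31, h.t32, h.sq, map_neg, neg_neg]
  refine ⟨?_, ?_, ?_, ?_⟩ <;> simp <;> module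

theorem Cliff.Psi_surj (h : Cliff T) (hdim : Module.finrank ℝ E = 8) {ξ : E} (hξ : ‖ξ‖ = 1)
    (vξ : vol T ξ = ξ) (v : Fin 9 → ℝ) : ∃ Z ∈ kk T, Psi T ξ Z = v := by
  set a1 := v 6 - ⟪UU T v ξ, T 0 (T 1 ξ)⟫ with ha1
  set a2 := v 7 - ⟪UU T v ξ, T 0 (T 2 ξ)⟫ with ha2
  set a3 := v 8 - ⟪UU T v ξ, T 0 (T 3 ξ)⟫ with ha3
  set ζ := a1 • T 0 (T 1 ξ) + a2 • T 0 (T 2 ξ) + a3 • T 0 (T 3 ξ) with hζd
  have vζ : vol T ζ = ζ := by
    simp only [hζd, map_add, map_smul, h.vol_T, vξ, map_neg, neg_neg]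
  have oo (i j : Fin 4) (hij : i ≠ j) : ⟪T i (T j ξ), ξ⟫ = 0 := by
    rw [h.skew, h.inner_diff j i hij.symm, neg_zero]
  have hζ : ⟪ζ, ξ⟫ = 0 := by
    simp only [hζd, inner_add_left, inner_smul_left, oo 0 1 (by decide), oo 0 2 (by decide),
      oo 0 3 (by decide)]
    simp
  obtain ⟨C, hC, hC0, hCs⟩ := h.exists_comm hdim hξ vξ vζ hζ
  have br : ∀ k x, (UU T v + C) (T k x) - T k ((UU T v + C) x) = UU T v (T k x) - T k (UU T v x) := by
    intro k x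
    rw [add_apply, add_apply, hC, map_add]
    abel
  have hk : UU T v + C ∈ kk T := by
    refine ⟨fun x y => ?_, fun k => ?_⟩
    · rw [add_apply, add_apply, inner_add_left, inner_add_right, h.UU_skew, hCs]; ring
    · fin_cases k
      · exact ⟨_, fun x => by rw [br]; exact (h.UU_br v x).1⟩
      · exact ⟨_, fun x => by rw [br]; exact (h.UU_br v x).2.1⟩
      · exact ⟨_, fun x => by rw [br]; exact (h.UU_br v x).2.2.1⟩
      · exact ⟨_, fun x => by rw [br]; exact (h.UU_br v x).2.2.2⟩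
  refine ⟨_, hk, ?_⟩
  have c0 := h.cf_eq hξ (k := 0) (Z := UU T v + C) (fun x => by rw [br]; exact (h.UU_br v x).1)
  have c1 := h.cf_eq hξ (k := 1) (Z := UU T v + C) (fun x => by rw [br]; exact (h.UU_br v x).2.1)
  have c2 := h.cf_eq hξ (k := 2) (Z := UU T v + C) (fun x => by rw [br]; exact (h.UU_br v x).2.2.1)
  have nT (i : Fin 4) : ⟪T 0 (T i ξ), T 0 (T i ξ)⟫ = 1 := by
    rw [h.inner_same, h.inner_TT, hξ]; simp
  have dT (i j : Fin 4) (hij : i ≠ j) : ⟪T 0 (T i ξ), T 0 (T j ξ)⟫ = 0 := by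
    rw [h.inner_same, h.inner_diff i j hij]
  have s1 : cs T ξ 1 (UU T v + C) = v 6 := by
    rw [cs, add_apply, inner_add_left, hC0, hζd]
    simp only [inner_add_left, inner_smul_left, nT, dT 2 1 (by decide), dT 3 1 (by decide)]
    simp only [conj_trivial, ha1]; ring
  have s2 : cs T ξ 2 (UU T v + C) = v 7 := by
    rw [cs, add_apply, inner_add_left, hC0, hζd]
    simp only [inner_add_left, inner_smul_left, nT, dT 1 2 (by decide), dT 3 2 (by decide)]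
    simp only [conj_trivial, ha2]; ring
  have s3 : cs T ξ 3 (UU T v + C) = v 8 := by
    rw [cs, add_apply, inner_add_left, hC0, hζd]
    simp only [inner_add_left, inner_smul_left, nT, dT 1 3 (by decide), dT 2 3 (by decide)]
    simp only [conj_trivial, ha3]; ring
  funext i
  fin_cases i
  · exact c0 1
  · exact c0 2
  · exact c0 3
  · exact c1 2
  · exact c1 3
  · exact c2 3
  · exact s1
  · exact s2
  · exact s3

/-- the Lie algebra has dimension nine -/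
theorem Cliff.finrank_kk (h : Cliff T) (hdim : Module.finrank ℝ E = 8) :
    Module.finrank ℝ (kk T) = 9 := by
  obtain ⟨a, _, ha, _, va, _⟩ := h.exists_both hdim
  have hξ : ‖(‖a‖⁻¹ : ℝ) • a‖ = 1 := by
    rw [norm_smul, norm_inv, norm_norm, inv_mul_cancel₀ (norm_ne_zero_iff.2 ha)]
  have vξ : vol T ((‖a‖⁻¹ : ℝ) • a) = (‖a‖⁻¹ : ℝ) • a := by rw [map_smul, va]
  let L : kk T →ₗ[ℝ] (Fin 9 → ℝ) := (Psi T ((‖a‖⁻¹ : ℝ) • a)).comp (kk T).subtype
  have hinj : Function.Injective L := by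
    rw [← LinearMap.ker_eq_bot, LinearMap.ker_eq_bot']
    rintro ⟨Z, hZ⟩ h0
    exact Subtype.ext (h.Psi_inj hdim hξ vξ hZ h0)
  have hsurj : Function.Surjective L := by
    intro v
    obtain ⟨Z, hZ, h0⟩ := h.Psi_surj hdim hξ vξ v
    exact ⟨⟨Z, hZ⟩, h0⟩
  rw [(LinearEquiv.ofBijective L ⟨hinj, hsurj⟩).finrank_eq]
  simp

end Pool.Agent.T2H92.SR
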