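import Pool.Agent.T2H92.SR.Bridge

set_option autoImplicit false

open scoped Manifold ContDiff InnerProductSpace RealInnerProductSpace Matrix Topology
open Set

namespace Pool.Agent.T2H92.SR

/-- the punctured space -/
def U8 : TopologicalSpace.Opens E8 := ⟨{0}ᶜ, isOpen_compl_singleton⟩

theorem norm_inv_smul_mem {z : E8} (hz : z ≠ 0) : (‖z‖⁻¹ : ℝ) • z ∈ Metric.sphere (0 : E8) 1 := by
  rw [mem_sphere_zero_iff_norm, norm_smul, norm_inv, norm_norm,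
    inv_mul_cancel₀ (norm_ne_zero_iff.2 hz)]

/-- radial projection -/
noncomputable def pr (z : U8) : S7 := ⟨(‖(z : E8)‖⁻¹ : ℝ) • (z : E8), norm_inv_smul_mem z.2⟩

theorem contMDiff_pr : ContMDiff 𝓘(ℝ, E8) (𝓡 7) ∞ pr := by
  have h1 : ContMDiff 𝓘(ℝ, E8) 𝓘(ℝ, E8) ∞ (fun z : U8 => (‖(z : E8)‖⁻¹ : ℝ) • (z : E8)) := by
    intro z
    have h2 : ContDiffAt ℝ ∞ (fun z : E8 => (‖z‖⁻¹ : ℝ) • z) (z : E8) :=
      ((contDiffAt_norm ℝ z.2).inv (norm_ne_zero_iff.2 z.2)).smul contDiffAt_id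
    exact contMDiffAt_subtype_iff.2 h2.contMDiffAt
  exact h1.codRestrict_sphere (fun z => norm_inv_smul_mem z.2)

open Classical in
/-- degree zero extension -/
noncomputable def ext (φ : S7 → S7) (z : E8) : E8 :=
  if h : z = 0 then 0 else (φ ⟨(‖z‖⁻¹ : ℝ) • z, norm_inv_smul_mem h⟩ : E8)

theorem ext_of_ne (φ : S7 → S7) {z : E8} (h : z ≠ 0) :
    ext φ z = (φ ⟨(‖z‖⁻¹ : ℝ) • z, norm_inv_smul_mem h⟩ : E8) := dif_neg h

theorem contDiffAt_ext {φ : S7 → S7} (hφ : ContMDiff (𝓡 7) (𝓡 7) ∞ φ) {z : E8} (hz : z ≠ 0) :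
    ContDiffAt ℝ ∞ (ext φ) z := by
  have h1 : ContMDiff 𝓘(ℝ, E8) 𝓘(ℝ, E8) ∞ (fun z : U8 => (φ (pr z) : E8)) :=
    (contMDiff_coe_sphere (m := ∞)).comp (hφ.comp contMDiff_pr)
  have h2 : (fun z : U8 => (φ (pr z) : E8)) = fun z : U8 => ext φ z := by
    funext z
    rw [ext_of_ne φ z.2]
    rfl
  rw [h2] at h1
  exact (contMDiffAt_subtype_iff.1 (h1 ⟨z, hz⟩)).contDiffAt

theorem ext_smul (φ : S7 → S7) {z : E8} (hz : z ≠ 0) {c : ℝ} (hc : 0 < c) :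
    ext φ (c • z) = ext φ z := by
  have h1 : c • z ≠ 0 := smul_ne_zero hc.ne' hz
  rw [ext_of_ne φ h1, ext_of_ne φ hz]
  congr 2
  apply Subtype.ext
  show (‖c • z‖⁻¹ : ℝ) • c • z = (‖z‖⁻¹ : ℝ) • z
  rw [norm_smul, Real.norm_of_nonneg hc.le, smul_smul, mul_inv, mul_assoc, mul_comm, mul_assoc,
    mul_inv_cancel₀ hc.ne', mul_one]

theorem ext_coe (φ : S7 → S7) (x : S7) : ext φ x = φ x := by
  have h1 : ‖(x : E8)‖ = 1 := mem_sphere_zero_iff_norm.1 x.2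
  have h2 : (x : E8) ≠ 0 := by
    rw [← norm_ne_zero_iff, h1]; exact one_ne_zero
  rw [ext_of_ne φ h2]
  congr 2
  apply Subtype.ext
  show (‖(x : E8)‖⁻¹ : ℝ) • (x : E8) = x
  rw [h1, inv_one, one_smul]

end Pool.Agent.T2H92.SR
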