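import Pool.Agent.T2H92.SR.ToIso

set_option autoImplicit false

open scoped Manifold ContDiff InnerProductSpace RealInnerProductSpace Matrix Topology
open Set

namespace Pool.Agent.T2H92.SR

theorem cl_mem_WW {A : Fin 4 → Matrix (Fin 8) (Fin 8) ℝ} {M : Matrix (Fin 8) (Fin 8) ℝ} :
    cl M ∈ WW (TT A) ↔ M ∈ Submodule.span ℝ (Set.range A) := by
  rw [WW, Submodule.mem_span_range_iff_exists_fun, Submodule.mem_span_range_iff_exists_fun]
  refine exists_congr fun c => ?_
  have : ∑ i, c i • TT A i = cl (∑ i, c i • A i) := by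
    show _ = Matrix.toEuclideanCLM (n := Fin 8) (𝕜 := ℝ) (∑ i, c i • A i)
    rw [map_sum]
    refine Finset.sum_congr rfl fun i _ => ?_
    rw [map_smul]
    rfl
  rw [this, cl_inj]

theorem mem_linGroup_iff {A : Fin 4 → Matrix (Fin 8) (Fin 8) ℝ}
    {g : Matrix.orthogonalGroup (Fin 8) ℝ} : g ∈ linGroup A ↔ cl g ∈ GG (TT A) := by
  have h1 : star (cl g) * cl g = 1 := by
    rw [← cl_transpose, ← cl_mul, (Matrix.mem_orthogonalGroup_iff' (Fin 8) ℝ).1 g.2, cl_one]
  have h2 : cl g * star (cl g) = 1 := by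
    rw [← cl_transpose, ← cl_mul, (Matrix.mem_orthogonalGroup_iff (Fin 8) ℝ).1 g.2, cl_one]
  rw [mem_linGroup]
  constructor
  · intro h
    refine ⟨h1, h2, fun k => ?_⟩
    have := cl_mem_WW.2 (h k)
    rwa [cl_mul, cl_mul, cl_transpose] at this
  · rintro ⟨_, _, h⟩ k
    rw [← cl_mem_WW, cl_mul, cl_mul, cl_transpose]
    exact h k

/-- every sub-Riemannian isometry is linear -/
theorem forward {A : Fin 4 → Matrix (Fin 8) (Fin 8) ℝ} (hA : IsCliffordQuadruple A)
    {φ : S7 ≃ₘ⟮𝓡 7, 𝓡 7⟯ S7} (hφ : IsSRIsometry A φ) :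
    ∃ g ∈ linGroup A, ∀ x : S7, (φ x : E8) = cl g x := by
  have h := cliff_TT hA
  have hI := iso_ext hA hφ
  obtain ⟨g, hg, hn⟩ := hI.exists_linear h finrank_E8 fun z hz c hc => ext_smul φ hz hc
  have hgx : ∀ x : S7, (φ x : E8) = g x := by
    intro x
    rw [← hg, norm_coe, one_smul, ext_coe]
  have h1 : star g * g = 1 := by
    refine ContinuousLinearMap.ext fun x => ?_
    apply ext_inner_left ℝ
    intro y
    rw [mul_apply_eq_comp, ContinuousLinearMap.star_eq_adjoint,
      ContinuousLinearMap.adjoint_inner_right, one_apply_eq_self]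
    let gi : E8 →ₗᵢ[ℝ] E8 := ⟨g.toLinearMap, hn⟩
    exact gi.inner_map_map y x
  have h2 : g * star g = 1 := by
    have e1 : ((star g).toLinearMap : Module.End ℝ E8) * (g.toLinearMap : Module.End ℝ E8) = 1 :=
      LinearMap.ext fun x => congrArg (fun L : E8 →L[ℝ] E8 => L x) h1
    have e2 := mul_eq_one_comm.1 e1
    exact ContinuousLinearMap.ext fun x => congrArg (fun L : E8 →ₗ[ℝ] E8 => L x) e2
  have hGG : g ∈ GG (TT A) := by
    refine ⟨h1, h2, fun k => ?_⟩
    have hB : ∀ y, ∃ w, (g * TT A k * star g) y = Aw (TT A) w y := by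
      intro y
      by_cases hy : y = 0
      · exact ⟨0, by rw [hy, map_zero, map_zero]⟩
      · set z := star g y with hz
        have hgz : g z = y := by
          have := congrArg (fun L : E8 →L[ℝ] E8 => L y) h2
          exact this
        have hz0 : z ≠ 0 := by
          rintro h0
          rw [h0, map_zero] at hgz
          exact hy hgz.symm
        obtain ⟨w', hw'⟩ := fderiv_rel h hI hg hz0 (Pi.single k 1)
        rw [Aw_single, hgz] at hw'
        exact ⟨w', hw'⟩
    obtain ⟨w, hw⟩ := span_const h finrank_E8 hB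
    exact mem_WW.2 ⟨w, fun x => by rw [hw]⟩
  let M : Matrix (Fin 8) (Fin 8) ℝ := (Matrix.toEuclideanCLM (n := Fin 8) (𝕜 := ℝ)).symm g
  have hM : cl M = g := (Matrix.toEuclideanCLM (n := Fin 8) (𝕜 := ℝ)).apply_symm_apply g
  have hMo : M ∈ Matrix.orthogonalGroup (Fin 8) ℝ := by
    rw [Matrix.mem_orthogonalGroup_iff, ← cl_inj, cl_mul]
    show cl M * cl Mᵀ = _
    rw [cl_transpose, hM, cl_one, h2]
  exact ⟨⟨M, hMo⟩, mem_linGroup_iff.2 (by show cl M ∈ _; rw [hM]; exact hGG),
    fun x => by rw [hgx]; show g x = cl M x; rw [hM]⟩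

end Pool.Agent.T2H92.SR
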