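import Pool.Agent.T2H92.SR.Pfaff

set_option autoImplicit false

open scoped InnerProductSpace RealInnerProductSpace Matrix

namespace Pool.Agent.T2H92.SR

variable {E : Type*} [NormedAddCommGroup E] [InnerProductSpace ℝ E]

/-- the degree zero extension of an isometry -/
structure Iso (T : Fin 4 → E →L[ℝ] E) (F : E → E) : Prop where
  smooth : ∀ z, z ≠ 0 → ContDiffAt ℝ 2 F z
  norm_one : ∀ z, z ≠ 0 → ‖F z‖ = 1
  hor : ∀ z, z ≠ 0 → ∀ w, ∃ w', fderiv ℝ F z (Aw T w z) = Aw T w' (F z)
  isom : ∀ z, z ≠ 0 → ∀ w, ‖fderiv ℝ F z (Aw T w z)‖ ^ 2 = ∑ i, w i ^ 2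

/-- the matrix `r_kj` -/
noncomputable def rr (T : Fin 4 → E →L[ℝ] E) (F : E → E) (z : E) : Fin 4 → Fin 4 → ℝ :=
  fun k j => ⟪fderiv ℝ F z (T k z), T j (F z)⟫

theorem Aw_single (T : Fin 4 → E →L[ℝ] E) (k : Fin 4) (z : E) :
    Aw T (Pi.single k 1) z = T k z := by
  rw [Aw_apply, Finset.sum_eq_single k]
  · simp
  · intro j _ hj; simp [hj]
  · simp

variable {T : Fin 4 → E →L[ℝ] E} {F : E → E}

theorem fderiv_T (h : Cliff T) (hF : Iso T F) {z : E} (hz : z ≠ 0) (k : Fin 4) :
    fderiv ℝ F z (T k z) = ∑ j, rr T F z k j • T j (F z) := by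
  obtain ⟨w', hw'⟩ := hF.hor z hz (Pi.single k 1)
  rw [Aw_single] at hw'
  have : ∀ j, rr T F z k j = w' j := by
    intro j
    rw [rr, hw', h.inner_Aw_T, hF.norm_one z hz]
    ring
  rw [hw', Aw_apply]
  exact Finset.sum_congr rfl fun j _ => by rw [this]

theorem rr_orth (h : Cliff T) (hF : Iso T F) {z : E} (hz : z ≠ 0) :
    Matrix.of (rr T F z) * (Matrix.of (rr T F z))ᵀ = 1 := by
  have hin : ∀ k l, ⟪fderiv ℝ F z (T k z), fderiv ℝ F z (T l z)⟫ = if k = l then 1 else 0 := by
    intro k l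
    have e1 := hF.isom z hz (Pi.single k 1)
    have e2 := hF.isom z hz (Pi.single l 1)
    have e3 := hF.isom z hz (Pi.single k 1 + Pi.single l 1)
    have e4 : Aw T (Pi.single k 1 + Pi.single l 1) z = T k z + T l z := by
      rw [← Aw_single T k, ← Aw_single T l, Aw_apply, Aw_apply, Aw_apply, ← Finset.sum_add_distrib]
      exact Finset.sum_congr rfl fun j _ => by rw [Pi.add_apply, add_smul]
    rw [Aw_single] at e1 e2
    rw [e4, map_add, norm_add_sq_real, e1, e2] at e3
    have s1 : ∀ m : Fin 4, ∑ i, (Pi.single m (1 : ℝ) : Fin 4 → ℝ) i ^ 2 = 1 := by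
      intro m
      rw [Finset.sum_eq_single m]
      · simp
      · intro j _ hj; simp [hj]
      · simp
    rw [s1, s1] at e3
    have s2 : ∑ i, ((Pi.single k (1 : ℝ) + Pi.single l 1 : Fin 4 → ℝ) i) ^ 2 =
        if k = l then 4 else 2 := by
      fin_cases k <;> fin_cases l <;> simp [Fin.sum_univ_four, Pi.single_apply] <;> norm_num
    rw [s2] at e3
    split_ifs at e3 ⊢ <;> linarith
  ext k l
  rw [Matrix.mul_apply]
  simp only [Matrix.of_apply, Matrix.transpose_apply]
  have := hin k l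
  rw [fderiv_T h hF hz k, sum_inner] at this
  rw [Matrix.one_apply, ← this]
  refine Finset.sum_congr rfl fun j _ => ?_
  rw [inner_smul_left, real_inner_comm]
  simp [rr]

theorem differentiableAt_rr (hF : Iso T F) {z : E} (hz : z ≠ 0) (k j : Fin 4) :
    DifferentiableAt ℝ (fun z => rr T F z k j) z := by
  have h1 : ContDiffAt ℝ 1 (fderiv ℝ F) z := (hF.smooth z hz).fderiv_right (m := 1) (by norm_num)
  have h2 : DifferentiableAt ℝ (fderiv ℝ F) z := h1.differentiableAt (by norm_num)
  have h3 : DifferentiableAt ℝ (fun z => fderiv ℝ F z (T k z)) z :=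
    h2.clm_apply (T k).differentiableAt
  have h4 : DifferentiableAt ℝ (fun z => T j (F z)) z :=
    (T j).differentiableAt.comp z ((hF.smooth z hz).differentiableAt (by norm_num))
  exact h3.inner ℝ h4

theorem lie_step (h : Cliff T) (hF : Iso T F) {x : E} (hx : x ≠ 0) {u : Fin 4 → Fin 4 → ℝ}
    (hu : Anti u) : ∃ w, fderiv ℝ F x (Bw T u x) =
      Aw T w (F x) + Bw T (conj (rr T F x) u) (F x) := by
  have hdF : DifferentiableAt ℝ F x := (hF.smooth x hx).differentiableAt (by norm_num)
  have h1 : ContDiffAt ℝ 1 (fderiv ℝ F) x := (hF.smooth x hx).fderiv_right (m := 1) (by norm_num)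
  have h2 : DifferentiableAt ℝ (fderiv ℝ F) x := h1.differentiableAt (by norm_num)
  have hsymm : IsSymmSndFDerivAt ℝ F x := (hF.smooth x hx).isSymmSndFDerivAt (by simp)
  have key : ∀ k i, fderiv ℝ (fderiv ℝ F) x (T i x) (T k x) + fderiv ℝ F x (T k (T i x)) =
      (∑ j, (fderiv ℝ (fun z => rr T F z k j) x (T i x)) • T j (F x)) +
        ∑ j, rr T F x k j • T j (∑ l, rr T F x i l • T l (F x)) := by
    intro k i
    have e1 : HasFDerivAt (fun z => fderiv ℝ F z (T k z))
        ((fderiv ℝ F x).comp (T k) + (fderiv ℝ (fderiv ℝ F) x).flip (T k x)) x :=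
      h2.hasFDerivAt.clm_apply (T k).hasFDerivAt
    have e2 : HasFDerivAt (fun z => ∑ j, rr T F z k j • T j (F z))
        (∑ j, (rr T F x k j • ((T j).comp (fderiv ℝ F x)) +
          (fderiv ℝ (fun z => rr T F z k j) x).smulRight (T j (F x)))) x := by
      apply HasFDerivAt.fun_sum
      intro j _
      exact (differentiableAt_rr hF hx k j).hasFDerivAt.smul
        ((T j).hasFDerivAt.comp x hdF.hasFDerivAt)
    have e3 : (fun z => fderiv ℝ F z (T k z)) =ᶠ[nhds x]
        fun z => ∑ j, rr T F z k j • T j (F z) := by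
      filter_upwards [isOpen_ne.mem_nhds hx] with z hz
      exact fderiv_T h hF hz k
    have e4 := e1.unique (e2.congr_of_eventuallyEq e3)
    have e5 := congrArg (fun L : E →L[ℝ] E => L (T i x)) e4
    simp only [add_apply, ContinuousLinearMap.comp_apply,
      ContinuousLinearMap.flip_apply, sum_apply, smul_apply,
      ContinuousLinearMap.smulRight_apply, Finset.sum_add_distrib] at e5
    rw [add_comm, e5, add_comm, fderiv_T h hF hx i]
  refine ⟨fun j => ∑ k, ∑ i, u k i / 2 * fderiv ℝ (fun z => rr T F z k j) x (T i x), ?_⟩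
  have hsum : ∑ k, ∑ i, (u k i / 2) • (fderiv ℝ (fderiv ℝ F) x (T i x) (T k x) +
      fderiv ℝ F x (T k (T i x))) = fderiv ℝ F x (Bw T u x) := by
    simp only [smul_add, Finset.sum_add_distrib]
    have z1 : ∑ k, ∑ i, (u k i / 2) • fderiv ℝ (fderiv ℝ F) x (T i x) (T k x) = 0 := by
      have z2 : ∑ k, ∑ i, (u k i / 2) • fderiv ℝ (fderiv ℝ F) x (T i x) (T k x) =
          -∑ k, ∑ i, (u k i / 2) • fderiv ℝ (fderiv ℝ F) x (T i x) (T k x) := by
        conv_lhs => rw [Finset.sum_comm]
        rw [← Finset.sum_neg_distrib]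
        refine Finset.sum_congr rfl fun k _ => ?_
        rw [← Finset.sum_neg_distrib]
        refine Finset.sum_congr rfl fun i _ => ?_
        rw [hu k i, hsymm.eq (T k x) (T i x)]
        module
      have z3 : (2 : ℝ) • ∑ k, ∑ i, (u k i / 2) • fderiv ℝ (fderiv ℝ F) x (T i x) (T k x) = 0 := by
        rw [two_smul]
        nth_rewrite 1 [z2]
        exact neg_add_cancel _
      exact (smul_eq_zero.1 z3).resolve_left two_ne_zero
    rw [z1, zero_add, Bw, map_sum]
    refine Finset.sum_congr rfl fun k _ => ?_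
    rw [map_sum]
    refine Finset.sum_congr rfl fun i _ => ?_
    rw [map_smul]
  rw [← hsum]
  simp only [key, smul_add, Finset.sum_add_distrib]
  congr 1
  · rw [Aw_apply]
    simp only [Finset.smul_sum, Finset.sum_smul, smul_smul]
    calc _ = ∑ k, ∑ j, ∑ i, (u k i / 2 * fderiv ℝ (fun z => rr T F z k j) x (T i x)) • T j (F x) :=
          Finset.sum_congr rfl fun k _ => Finset.sum_comm
      _ = _ := Finset.sum_comm
  · rw [Bw]
    simp only [conj, Finset.smul_sum, map_sum, map_smul, Finset.sum_div, Finset.sum_smul, smul_smul]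
    -- sums over k i j l  versus j l k i
    calc _ = ∑ k, ∑ j, ∑ i, ∑ l, (u k i / 2 * (rr T F x k j * rr T F x i l)) • T j (T l (F x)) := by
          refine Finset.sum_congr rfl fun k _ => ?_
          rw [Finset.sum_comm]
      _ = ∑ j, ∑ k, ∑ i, ∑ l, (u k i / 2 * (rr T F x k j * rr T F x i l)) • T j (T l (F x)) :=
          Finset.sum_comm
      _ = ∑ j, ∑ k, ∑ l, ∑ i, (u k i / 2 * (rr T F x k j * rr T F x i l)) • T j (T l (F x)) := by
          refine Finset.sum_congr rfl fun j _ => Finset.sum_congr rfl fun k _ => Finset.sum_comm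
      _ = ∑ j, ∑ l, ∑ k, ∑ i, (u k i / 2 * (rr T F x k j * rr T F x i l)) • T j (T l (F x)) :=
          Finset.sum_congr rfl fun j _ => Finset.sum_comm
      _ = _ := by
          refine Finset.sum_congr rfl fun j _ => Finset.sum_congr rfl fun l _ =>
            Finset.sum_congr rfl fun k _ => Finset.sum_congr rfl fun i _ => ?_
          congr 1
          ring

theorem det_rr_sq (h : Cliff T) (hF : Iso T F) {z : E} (hz : z ≠ 0) :
    (Matrix.of (rr T F z)).det ^ 2 = 1 := by
  have := congrArg Matrix.det (rr_orth h hF hz)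
  rw [Matrix.det_mul, Matrix.det_transpose, Matrix.det_one] at this
  rw [sq]; exact this

/-- the relation of the heights of `x` and `F x` -/
theorem ht_rel (h : Cliff T) (hF : Iso T F) (hdim : Module.finrank ℝ E = 8) {x : E}
    (hx : ‖x‖ = 1) : ht T (F x) = (Matrix.of (rr T F x)).det * ht T x := by
  have hx0 : x ≠ 0 := by
    rintro rfl
    simp at hx
  obtain ⟨u, w, hu, hN, hB⟩ := h.exists_bivector hdim hx
  obtain ⟨w1, hw1⟩ := lie_step h hF hx0 hu
  obtain ⟨w2, hw2⟩ := hF.hor x hx0 w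
  have hB' : Bw T (conj (rr T F x) u) (F x) = Aw T (w2 - w1) (F x) := by
    have e : Aw T (w2 - w1) (F x) = Aw T w2 (F x) - Aw T w1 (F x) := by
      simp only [Aw_apply, Pi.sub_apply, sub_smul, Finset.sum_sub_distrib]
    rw [e, ← hw2, ← hB, hw1]
    abel
  have k1 := h.key hu hx hB
  have k2 := h.key (conj_anti hu) (hF.norm_one x hx0) hB'
  rw [Nm_conj hu (rr_orth h hF hx0), Pf_conj hu] at k2
  have hd := det_rr_sq h hF hx0
  have b1 := h.abs_ht_le x
  have b2 := h.abs_ht_le (F x)
  rw [hx] at b1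
  rw [hF.norm_one x hx0] at b2
  set d := (Matrix.of (rr T F x)).det
  set a := ht T x
  set b := ht T (F x)
  set N := Nm u
  set P := Pf u
  have b1' := abs_le.1 b1
  have b2' := abs_le.1 b2
  have e1 : N * ((b - d * a) * (1 - d * a * b)) = 0 := by
    have : N * (b * (1 + a ^ 2) - d * a * (1 + b ^ 2)) = 0 := by
      linear_combination (1 + a ^ 2) * k2 - d * (1 + b ^ 2) * k1
    have hd' : d ^ 2 = 1 := hd
    linear_combination this + N * b * a ^ 2 * hd'
  rcases mul_eq_zero.1 e1 with e2 | e2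
  · exact absurd e2 hN
  rcases mul_eq_zero.1 e2 with e3 | e3
  · linarith
  · have h1 : d * a * b = 1 := by linarith
    have h2 : (d * a) * b = 1 := h1
    have h3 : (d * a) ^ 2 ≤ 1 := by
      rw [mul_pow, hd, one_mul]
      nlinarith
    have h4 : b ^ 2 ≤ 1 := by nlinarith
    nlinarith [sq_nonneg (d * a - b)]

/-- the sign is constant -/
theorem ht_sign (h : Cliff T) (hF : Iso T F) (hdim : Module.finrank ℝ E = 8) :
    (∀ x, ‖x‖ = 1 → ht T (F x) = ht T x) ∨ (∀ x, ‖x‖ = 1 → ht T (F x) = -ht T x) := by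
  have hconn : IsPreconnected ({(0 : E)}ᶜ : Set E) := by
    apply (isConnected_compl_singleton_of_one_lt_rank ?_ 0).isPreconnected
    have : FiniteDimensional ℝ E := Module.finite_of_finrank_pos (by rw [hdim]; norm_num)
    rw [← Module.finrank_eq_rank' , hdim]
    norm_num
  have hcont : ContinuousOn (fun z => (Matrix.of (rr T F z)).det) ({(0 : E)}ᶜ : Set E) := by
    intro z hz
    apply ContinuousAt.continuousWithinAt
    have hz' : z ≠ 0 := hz
    have e : (fun z => (Matrix.of (rr T F z)).det) = fun z => Matrix.det (Matrix.of (rr T F z)) := rfl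
    simp only [det4]
    have c : ∀ k j, ContinuousAt (fun z => rr T F z k j) z := fun k j =>
      (differentiableAt_rr hF hz' k j).continuousAt
    fun_prop
  have := hconn.eq_or_eq_neg_of_sq_eq hcont (continuousOn_const (c := (1 : ℝ)))
    (fun z hz => by simpa using det_rr_sq h hF hz) (fun _ => one_ne_zero)
  rcases this with h1 | h1
  · left
    intro x hx
    have hx0 : x ≠ 0 := by rintro rfl; simp at hx
    have h2 : (Matrix.of (rr T F x)).det = 1 := h1 hx0
    rw [ht_rel h hF hdim hx, h2]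
    simp
  · right
    intro x hx
    have hx0 : x ≠ 0 := by rintro rfl; simp at hx
    have h2 : (Matrix.of (rr T F x)).det = -1 := h1 hx0
    rw [ht_rel h hF hdim hx, h2]
    simp

end Pool.Agent.T2H92.SR
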