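import Pool.Agent.T2H92.SR.Span

set_option autoImplicit false

open scoped InnerProductSpace RealInnerProductSpace Matrix
open Set

namespace Pool.Agent.T2H92.SR

variable {E : Type*} [NormedAddCommGroup E] [InnerProductSpace ℝ E]
variable {T : Fin 4 → E →L[ℝ] E}

/-- skew operators `Z` for which all `[Z, T k]` are combinations of the `T j` -/
def kk (T : Fin 4 → E →L[ℝ] E) : Submodule ℝ (E →L[ℝ] E) where
  carrier := {Z | (∀ x y, ⟪Z x, y⟫ = -⟪x, Z y⟫) ∧ ∀ k, ∃ w, ∀ x, Z (T k x) - T k (Z x) = Aw T w x}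
  add_mem' := by
    rintro Z Z' ⟨h1, h2⟩ ⟨h3, h4⟩
    refine ⟨fun x y => ?_, fun k => ?_⟩
    · rw [add_apply, add_apply, inner_add_left, inner_add_right, h1, h3]; ring
    · obtain ⟨w, hw⟩ := h2 k
      obtain ⟨w', hw'⟩ := h4 k
      refine ⟨w + w', fun x => ?_⟩
      have e : Aw T (w + w') x = Aw T w x + Aw T w' x := by
        simp only [Aw_apply, Pi.add_apply, add_smul, Finset.sum_add_distrib]
      rw [e, ← hw, ← hw']
      simp only [add_apply, map_add]
      abel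
  zero_mem' := by
    refine ⟨fun x y => by simp, fun k => ⟨0, fun x => by simp [Aw_apply]⟩⟩
  smul_mem' := by
    rintro c Z ⟨h1, h2⟩
    refine ⟨fun x y => ?_, fun k => ?_⟩
    · rw [smul_apply, smul_apply, inner_smul_left, inner_smul_right, h1]; simp
    · obtain ⟨w, hw⟩ := h2 k
      refine ⟨c • w, fun x => ?_⟩
      have e : Aw T (c • w) x = c • Aw T w x := by
        simp only [Aw_apply, Pi.smul_apply, smul_eq_mul, mul_smul, Finset.smul_sum]
      rw [e, ← hw]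
      simp only [smul_apply, map_smul, smul_sub]

/-- relations valid on the positive eigenspace -/
theorem Cliff.rel (h : Cliff T) {ξ : E} (vξ : vol T ξ = ξ) :
    T 1 (T 2 ξ) = -T 0 (T 3 ξ) ∧ T 1 (T 3 ξ) = T 0 (T 2 ξ) ∧ T 2 (T 3 ξ) = -T 0 (T 1 ξ) := by
  rw [vol_apply] at vξ
  refine ⟨?_, ?_, ?_⟩
  · have h1 : T 1 (T 2 ξ) = T 1 (T 2 (T 0 (T 1 (T 2 (T 3 ξ))))) := by rw [vξ]
    rw [h1]
    simp only [h.t10, h.t20, h.t30, h.t21, h.t31, h.t32, h.sq, map_neg, neg_neg]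
  · have h1 : T 1 (T 3 ξ) = T 1 (T 3 (T 0 (T 1 (T 2 (T 3 ξ))))) := by rw [vξ]
    rw [h1]
    simp only [h.t10, h.t20, h.t30, h.t21, h.t31, h.t32, h.sq, map_neg, neg_neg]
  · have h1 : T 2 (T 3 ξ) = T 2 (T 3 (T 0 (T 1 (T 2 (T 3 ξ))))) := by rw [vξ]
    rw [h1]
    simp only [h.t10, h.t20, h.t30, h.t21, h.t31, h.t32, h.sq, map_neg, neg_neg]

/-- the orthonormal family -/
def fam (T : Fin 4 → E →L[ℝ] E) (ξ : E) : Fin 4 ⊕ Fin 4 → E :=
  Sum.elim (fun i => T 0 (T i ξ)) (fun i => T i ξ)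

theorem Cliff.exists_onb (h : Cliff T) (hdim : Module.finrank ℝ E = 8) {ξ : E} (hξ : ‖ξ‖ = 1)
    (vξ : vol T ξ = ξ) : ∃ B : OrthonormalBasis (Fin 4 ⊕ Fin 4) ℝ E, ∀ i, B i = fam T ξ i := by
  have : FiniteDimensional ℝ E := Module.finite_of_finrank_pos (by rw [hdim]; norm_num)
  have v1 : ∀ i, vol T (T i ξ) = -T i ξ := fun i => by rw [h.vol_T, vξ]
  have v2 : ∀ i, vol T (T 0 (T i ξ)) = T 0 (T i ξ) := fun i => by
    rw [h.vol_T, v1, map_neg, neg_neg]
  have hon : Orthonormal ℝ (fam T ξ) := by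
    rw [orthonormal_iff_ite]
    rintro (i | i) (j | j)
    · show ⟪T 0 (T i ξ), T 0 (T j ξ)⟫ = _
      rw [h.inner_same, h.inner_TT, hξ]
      by_cases hij : i = j <;> simp [hij]
    · show ⟪T 0 (T i ξ), T j ξ⟫ = _
      rw [h.inner_pos_neg (v2 i) (v1 j)]
      simp
    · show ⟪T i ξ, T 0 (T j ξ)⟫ = _
      rw [real_inner_comm, h.inner_pos_neg (v2 j) (v1 i)]
      simp
    · show ⟪T i ξ, T j ξ⟫ = _
      rw [h.inner_TT, hξ]
      by_cases hij : i = j <;> simp [hij]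
  have hcard : Fintype.card (Fin 4 ⊕ Fin 4) = Module.finrank ℝ E := by rw [hdim]; simp
  have hspan : ⊤ ≤ Submodule.span ℝ (Set.range (fam T ξ)) := by
    have := (basisOfOrthonormalOfCardEqFinrank hon hcard).span_eq
    rw [coe_basisOfOrthonormalOfCardEqFinrank] at this
    exact this.ge
  exact ⟨OrthonormalBasis.mk hon hspan, fun i => by simp⟩

theorem ext_of_fam {ξ : E} (B : OrthonormalBasis (Fin 4 ⊕ Fin 4) ℝ E)
    (hB : ∀ i, B i = fam T ξ i) {D D' : E →L[ℝ] E} (h1 : ∀ i, D (T 0 (T i ξ)) = D' (T 0 (T i ξ)))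
    (h2 : ∀ i, D (T i ξ) = D' (T i ξ)) : D = D' := by
  apply ContinuousLinearMap.coe_injective
  apply B.toBasis.ext
  rintro (i | i)
  · simp only [OrthonormalBasis.coe_toBasis, hB]; exact h1 i
  · simp only [OrthonormalBasis.coe_toBasis, hB]; exact h2 i

/-- an operator commuting with the `T i` and killing `ξ` is zero -/
theorem Cliff.comm_zero (h : Cliff T) (hdim : Module.finrank ℝ E = 8) {ξ : E} (hξ : ‖ξ‖ = 1)
    (vξ : vol T ξ = ξ) {D : E →L[ℝ] E} (hD : ∀ i x, D (T i x) = T i (D x)) (h0 : D ξ = 0) :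
    D = 0 := by
  obtain ⟨B, hB⟩ := h.exists_onb hdim hξ vξ
  apply ext_of_fam B hB
  · intro i; rw [hD, hD, h0]; simp
  · intro i; rw [hD, h0]; simp

/-- existence of commutant elements -/
theorem Cliff.exists_comm (h : Cliff T) (hdim : Module.finrank ℝ E = 8) {ξ ζ : E} (hξ : ‖ξ‖ = 1)
    (vξ : vol T ξ = ξ) (vζ : vol T ζ = ζ) (hζ : ⟪ζ, ξ⟫ = 0) :
    ∃ C : E →L[ℝ] E, (∀ i x, C (T i x) = T i (C x)) ∧ C ξ = ζ ∧ ∀ x y, ⟪C x, y⟫ = -⟪x, C y⟫ := by
  have : FiniteDimensional ℝ E := Module.finite_of_finrank_pos (by rw [hdim]; norm_num)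
  obtain ⟨B, hB⟩ := h.exists_onb hdim hξ vξ
  let C : E →L[ℝ] E := LinearMap.toContinuousLinearMap (B.toBasis.constr ℝ (fam T ζ))
  have hC : ∀ i, C (fam T ξ i) = fam T ζ i := by
    intro i
    have := B.toBasis.constr_basis ℝ (fam T ζ) i
    rw [OrthonormalBasis.coe_toBasis, hB] at this
    exact this
  have c1 : ∀ i, C (T 0 (T i ξ)) = T 0 (T i ζ) := fun i => hC (Sum.inl i)
  have c2 : ∀ i, C (T i ξ) = T i ζ := fun i => hC (Sum.inr i)
  obtain ⟨r1, r2, r3⟩ := h.rel vξ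
  obtain ⟨s1, s2, s3⟩ := h.rel vζ
  have c0 : C ξ = ζ := by
    have := c1 0
    rw [h.sq, h.sq, map_neg, neg_inj] at this
    exact this
  have hcomm : ∀ i, C.comp (T i) = (T i).comp C := by
    intro i
    apply ext_of_fam B hB
    · intro j
      simp only [ContinuousLinearMap.comp_apply, c1]
      have k1 := c2 0
      have k2 := c2 1
      have k3 := c2 2
      have k4 := c2 3
      fin_cases i <;> fin_cases j <;>
      simp [h.t10, h.t20, h.t30, h.t21, h.t31, h.t32, h.sq, r1, r2, r3, s1, s2, s3, k1, k2, k3, k4]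
    · intro j
      simp only [ContinuousLinearMap.comp_apply, c2]
      have k1 := c1 0
      have k2 := c1 1
      have k3 := c1 2
      have k4 := c1 3
      fin_cases i <;> fin_cases j <;>
      simp [h.t10, h.t20, h.t30, h.t21, h.t31, h.t32, h.sq, r1, r2, r3, s1, s2, s3, k1, k2, k3, k4, c0]
  have hcomm' : ∀ i x, C (T i x) = T i (C x) := fun i x =>
    congrArg (fun L : E →L[ℝ] E => L x) (hcomm i)
  refine ⟨C, hcomm', c0, ?_⟩
  -- skewness
  have hCv : ∀ x, C (vol T x) = vol T (C x) := by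
    intro x; simp only [vol_apply, hcomm']
  have hadj : ∀ i x, C.adjoint (T i x) = T i (C.adjoint x) := by
    intro i x
    apply ext_inner_left ℝ
    intro y
    rw [ContinuousLinearMap.adjoint_inner_right, real_inner_comm, h.skew, ← hcomm', real_inner_comm,
      ← ContinuousLinearMap.adjoint_inner_right C (T i y) x, h.skew, neg_neg]
  have hz : C + C.adjoint = 0 := by
    apply h.comm_zero hdim hξ vξ
    · intro i x
      rw [add_apply, add_apply, hcomm', hadj, map_add]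
    · have key : ∀ j, ⟪B j, (C + C.adjoint) ξ⟫ = 0 := by
        intro j
        rw [hB, add_apply, inner_add_right, ContinuousLinearMap.adjoint_inner_right, hC, c0]
        rcases j with j | j
        · show ⟪T 0 (T j ξ), ζ⟫ + ⟪T 0 (T j ζ), ξ⟫ = 0
          by_cases hj : j = 0
          · subst hj
            rw [h.sq, h.sq, inner_neg_left, inner_neg_left, hζ, real_inner_comm, hζ]
            simp
          · have e1 : ⟪T 0 (T j ξ), ζ⟫ = ⟪ξ, T j (T 0 ζ)⟫ := by rw [h.skew, h.skew, neg_neg]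
            rw [e1, h.anti j 0 ζ hj, inner_neg_right, real_inner_comm]
            ring
        · show ⟪T j ξ, ζ⟫ + ⟪T j ζ, ξ⟫ = 0
          rw [real_inner_comm, h.inner_pos_neg vζ (by rw [h.vol_T, vξ]), real_inner_comm,
            h.inner_pos_neg vξ (by rw [h.vol_T, vζ]), add_zero]
      have e := B.sum_repr' ((C + C.adjoint) ξ)
      rw [← e]
      exact Finset.sum_eq_zero fun j _ => by rw [key, zero_smul]
  intro x y
  have e := congrArg (fun L : E →L[ℝ] E => ⟪L y, x⟫) hz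
  simp only [add_apply, inner_add_left, ContinuousLinearMap.adjoint_inner_left, zero_apply,
    inner_zero_left] at e
  have e1 : ⟪C x, y⟫ = ⟪y, C x⟫ := real_inner_comm _ _
  have e2 : ⟪C y, x⟫ = ⟪x, C y⟫ := real_inner_comm _ _
  linarith

end Pool.Agent.T2H92.SR
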