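import Pool.Agent.T2H92.SR.Curve

set_option autoImplicit false

open scoped InnerProductSpace RealInnerProductSpace Matrix
open Set

namespace Pool.Agent.T2H92.SR

variable {E : Type*} [NormedAddCommGroup E] [InnerProductSpace ℝ E]
variable {T : Fin 4 → E →L[ℝ] E} {G : E → E}

/-- degree one extension -/
noncomputable def Phi (G : E → E) (z : E) : E := ‖z‖ • G z

theorem Phi_add (h : Cliff T) (hdim : Module.finrank ℝ E = 8) (hG : Hp T G) {ξ η : E}
    (vξ : vol T ξ = ξ) (vη : vol T η = -η) : Phi G (ξ + η) = Phi G ξ + Phi G η := by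
  by_cases hξ : ξ = 0
  · subst hξ; simp [Phi]
  by_cases hη : η = 0
  · subst hη; simp [Phi]
  have horth : ⟪ξ, η⟫ = 0 := h.inner_pos_neg vξ vη
  have nξ : 0 < ‖ξ‖ := norm_pos_iff.2 hξ
  have nη : 0 < ‖η‖ := norm_pos_iff.2 hη
  set n := ‖ξ + η‖ with hn
  have hn2 : n ^ 2 = ‖ξ‖ ^ 2 + ‖η‖ ^ 2 := by
    rw [hn, norm_add_sq_real, horth]; ring
  have hnpos : 0 < n := by
    have h1 : 0 < n ^ 2 := by rw [hn2]; positivity
    have h2 : 0 ≤ n := norm_nonneg _
    exact lt_of_le_of_ne h2 (fun h => by rw [← h] at h1; norm_num at h1)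
  -- the angle
  set θ := Real.arccos (‖ξ‖ / n) with hθ
  have hle : ‖ξ‖ ≤ n := by
    have : ‖ξ‖ ^ 2 ≤ n ^ 2 := by rw [hn2]; nlinarith
    exact (sq_le_sq₀ nξ.le hnpos.le).1 this
  have hlt : ‖ξ‖ < n := by
    have : ‖ξ‖ ^ 2 < n ^ 2 := by rw [hn2]; nlinarith
    exact (sq_lt_sq₀ nξ.le hnpos.le).1 this
  have hcos : Real.cos θ = ‖ξ‖ / n :=
    Real.cos_arccos (by have := div_pos nξ hnpos; linarith) (by rw [div_le_one hnpos]; exact hle)
  have hsin : Real.sin θ = ‖η‖ / n := by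
    rw [hθ, Real.sin_arccos]
    rw [Real.sqrt_eq_iff_eq_sq]
    · field_simp
      linarith
    · rw [sub_nonneg, sq_le_one_iff₀ (by positivity), div_le_one hnpos]
      exact hle
    · positivity
  have hmem : θ ∈ Ioo (0 : ℝ) (Real.pi / 2) := by
    constructor
    · rw [hθ, Real.arccos_pos, div_lt_one hnpos]; exact hlt
    · rw [hθ, Real.arccos_lt_pi_div_two]; positivity
  have vξ' : vol T (‖ξ‖⁻¹ • ξ) = ‖ξ‖⁻¹ • ξ := by rw [map_smul, vξ]
  have vη' : vol T (‖η‖⁻¹ • η) = -(‖η‖⁻¹ • η) := by rw [map_smul, vη, smul_neg]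
  have key := curve h hdim hG (norm_smul_inv_norm (𝕜 := ℝ) hξ) (norm_smul_inv_norm (𝕜 := ℝ) hη)
    (by simpa using vξ') (by simpa using vη') θ hmem
  simp only [RCLike.ofReal_real_eq_id, id] at key
  rw [hG.homog ξ hξ _ (inv_pos.2 nξ), hG.homog η hη _ (inv_pos.2 nη), hcos, hsin] at key
  have e1 : (‖ξ‖ / n) • ‖ξ‖⁻¹ • ξ + (‖η‖ / n) • ‖η‖⁻¹ • η = n⁻¹ • (ξ + η) := by
    rw [smul_smul, smul_smul, smul_add]
    congr 2
    · field_simp
    · field_simp
  have hne : ξ + η ≠ 0 := norm_pos_iff.1 hnpos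
  rw [e1, hG.homog _ hne _ (inv_pos.2 hnpos)] at key
  simp only [Phi]
  rw [← hn, key, smul_add, smul_smul, smul_smul]
  congr 2
  · field_simp
  · field_simp

theorem Phi_smul (hG : Hp T G) (z : E) {c : ℝ} (hc : 0 ≤ c) : Phi G (c • z) = c • Phi G z := by
  by_cases hz : z = 0
  · subst hz; simp [Phi]
  rcases hc.eq_or_lt with rfl | hc
  · simp [Phi]
  · rw [Phi, hG.homog z hz c hc, norm_smul, Real.norm_of_nonneg hc.le, Phi, smul_smul]

theorem hasFDerivAt_Phi (hG : Hp T G) {z : E} (hz : z ≠ 0) : DifferentiableAt ℝ (Phi G) z :=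
  ((differentiableAt_id).norm ℝ hz).smul (hG.diff z hz)

theorem Phi_eq_deriv (hG : Hp T G) {a v : E} (ha : a ≠ 0)
    (hadd : ∀ t : ℝ, 0 ≤ t → Phi G (a + t • v) = Phi G a + Phi G (t • v)) :
    fderiv ℝ (Phi G) a v = Phi G v := by
  have h0 : HasDerivAt (fun t : ℝ => a + t • v) v 0 := by
    simpa using ((hasDerivAt_id (0 : ℝ)).smul_const v).const_add a
  have h1 : HasDerivAt (fun t : ℝ => Phi G (a + t • v)) (fderiv ℝ (Phi G) a v) 0 := by
    have h2 : HasFDerivAt (Phi G) (fderiv ℝ (Phi G) a) (a + (0 : ℝ) • v) := by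
      rw [zero_smul, add_zero]
      exact (hasFDerivAt_Phi hG ha).hasFDerivAt
    exact h2.comp_hasDerivAt (0 : ℝ) h0
  have h2 : HasDerivWithinAt (fun t : ℝ => Phi G (a + t • v)) (Phi G v) (Ici 0) 0 := by
    have h3 : HasDerivWithinAt (fun t : ℝ => Phi G a + t • Phi G v) (Phi G v) (Ici 0) 0 := by
      have : HasDerivAt (fun t : ℝ => Phi G a + t • Phi G v) (Phi G v) 0 := by
        simpa using ((hasDerivAt_id (0 : ℝ)).smul_const (Phi G v)).const_add (Phi G a)
      exact this.hasDerivWithinAt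
    refine h3.congr (fun t ht => ?_) ?_
    · rw [hadd t ht, Phi_smul hG v ht]
    · simp
  exact (uniqueDiffOn_Ici (0 : ℝ) 0 self_mem_Ici).eq_deriv _ h1.hasDerivWithinAt h2

/-- under the hypotheses `Hp` the map is the restriction of a linear map -/
theorem exists_linear (h : Cliff T) (hdim : Module.finrank ℝ E = 8) (hG : Hp T G) :
    ∃ g : E →L[ℝ] E, ∀ x, ‖x‖ • G x = g x := by
  have : FiniteDimensional ℝ E := Module.finite_of_finrank_pos (by rw [hdim]; norm_num)
  have : Nontrivial E := Module.nontrivial_of_finrank_pos (R := ℝ) (by rw [hdim]; norm_num)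
  obtain ⟨a, b, ha, hb, va, vb⟩ : ∃ a b : E, a ≠ 0 ∧ b ≠ 0 ∧ vol T a = a ∧ vol T b = -b := by
    obtain ⟨x, hx⟩ := exists_ne (0 : E)
    have hT : ∀ y : E, y ≠ 0 → T 0 y ≠ 0 := by
      intro y hy h0
      apply hy
      have := h.norm_T 0 y
      rw [h0, norm_zero] at this
      exact norm_eq_zero.1 this.symm
    by_cases hp : pos T x = 0
    · have hn : neg T x = x := by
        have := pos_add_neg T x
        rwa [hp, zero_add] at this
      have vn : vol T x = -x := by rw [← hn]; exact h.vol_neg x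
      exact ⟨T 0 x, x, hT x hx, hx, by rw [h.vol_T, vn, map_neg, neg_neg], vn⟩
    · exact ⟨pos T x, T 0 (pos T x), hp, hT _ hp, h.vol_pos x, by rw [h.vol_T, h.vol_pos]⟩
  have hn : ∀ v, vol T v = -v → fderiv ℝ (Phi G) a v = Phi G v := by
    intro v hv
    refine Phi_eq_deriv hG ha fun t _ => ?_
    exact Phi_add h hdim hG va (by rw [map_smul, hv, smul_neg])
  have hp : ∀ v, vol T v = v → fderiv ℝ (Phi G) b v = Phi G v := by
    intro v hv
    refine Phi_eq_deriv hG hb fun t _ => ?_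
    rw [add_comm, Phi_add h hdim hG (by rw [map_smul, hv]) vb, add_comm]
  refine ⟨(fderiv ℝ (Phi G) b).comp ((1 / 2 : ℝ) • (ContinuousLinearMap.id ℝ E + vol T)) +
    (fderiv ℝ (Phi G) a).comp ((1 / 2 : ℝ) • (ContinuousLinearMap.id ℝ E - vol T)), fun x => ?_⟩
  rw [add_apply, ContinuousLinearMap.comp_apply, ContinuousLinearMap.comp_apply, posL, negL,
    hp _ (h.vol_pos x), hn _ (h.vol_neg x), ← Phi_add h hdim hG (h.vol_pos x) (h.vol_neg x),
    pos_add_neg]
  rfl

/-- the main linearisation theorem: the degree zero extension of an isometry is linear on the unit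
sphere -/
theorem Iso.exists_linear {F : E → E} (h : Cliff T) (hdim : Module.finrank ℝ E = 8)
    (hF : Iso T F) (hhom : ∀ z, z ≠ 0 → ∀ c : ℝ, 0 < c → F (c • z) = F z) :
    ∃ g : E →L[ℝ] E, (∀ x, ‖x‖ • F x = g x) ∧ ∀ x, ‖g x‖ = ‖x‖ := by
  suffices h1 : ∃ g : E →L[ℝ] E, ∀ x, ‖x‖ • F x = g x by
    obtain ⟨g, hg⟩ := h1
    refine ⟨g, hg, fun x => ?_⟩
    rw [← hg, norm_smul, norm_norm]
    by_cases hx : x = 0
    · simp [hx]
    · rw [hF.norm_one x hx, mul_one]
  rcases ht_sign h hF hdim with hs | hs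
  · exact SR.exists_linear h hdim
      ⟨fun z hz => (hF.smooth z hz).differentiableAt (by norm_num), hF.norm_one, hF.isom, hs, hhom⟩
  · have hd : ∀ z, z ≠ 0 → DifferentiableAt ℝ F z := fun z hz =>
      (hF.smooth z hz).differentiableAt (by norm_num)
    have hG : Hp T (fun z => T 0 (F z)) := by
      refine ⟨fun z hz => (T 0).differentiableAt.comp z (hd z hz), fun z hz => ?_,
        fun z hz w => ?_, fun x hx => ?_, fun z hz c hc => ?_⟩
      · show ‖T 0 (F z)‖ = 1
        rw [h.norm_T, hF.norm_one z hz]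
      · have e : fderiv ℝ (fun z => T 0 (F z)) z = (T 0).comp (fderiv ℝ F z) :=
          ((T 0).hasFDerivAt.comp z (hd z hz).hasFDerivAt).fderiv
        rw [e, ContinuousLinearMap.comp_apply, h.norm_T, hF.isom z hz]
      · show ht T (T 0 (F x)) = ht T x
        have e1 : ht T (T 0 (F x)) = -ht T (F x) := by
          simp only [ht]
          rw [h.vol_T, inner_neg_right, h.inner_same]
        rw [e1, hs x hx, neg_neg]
      · show T 0 (F (c • z)) = T 0 (F z)
        rw [hhom z hz c hc]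
    obtain ⟨g, hg⟩ := SR.exists_linear h hdim hG
    refine ⟨-(T 0).comp g, fun x => ?_⟩
    rw [neg_apply, ContinuousLinearMap.comp_apply, ← hg, map_smul, h.sq,
      smul_neg, neg_neg]

end Pool.Agent.T2H92.SR
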