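import Mathlib

set_option autoImplicit false

open scoped Manifold ContDiff Topology
open Set

namespace Pool.Agent.T2H92.LG

section log

variable (𝔸 : Type*) [NormedRing 𝔸] [NormedAlgebra ℝ 𝔸] [CompleteSpace 𝔸]

/-- a local inverse of the exponential -/
theorem exists_lg : ∃ e : OpenPartialHomeomorph 𝔸 𝔸, (∀ x, e x = NormedSpace.exp x) ∧
    0 ∈ e.source ∧ ∀ y ∈ e.target, ContDiffAt ℝ ω e.symm y := by
  have h1 : ContDiffAt ℝ ω (NormedSpace.exp : 𝔸 → 𝔸) 0 :=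
    (NormedSpace.exp_analytic (𝕂 := ℝ) (0 : 𝔸)).contDiffAt
  have h2 : HasFDerivAt (NormedSpace.exp : 𝔸 → 𝔸)
      ((ContinuousLinearEquiv.refl ℝ 𝔸 : 𝔸 ≃L[ℝ] 𝔸) : 𝔸 →L[ℝ] 𝔸) 0 :=
    hasFDerivAt_exp_zero
  let e₀ := h1.toOpenPartialHomeomorph _ h2 (by simp)
  have h3 : ContDiffAt ℝ ω e₀.symm (NormedSpace.exp 0) := h1.to_localInverse h2 (by simp)
  have h4 : IsOpen {y | AnalyticAt ℝ e₀.symm y} := isOpen_analyticAt ℝ _
  let e' := e₀.symm.restrOpen {y | AnalyticAt ℝ e₀.symm y} h4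
  have h5 : (0 : 𝔸) ∈ e₀.source := h1.mem_toOpenPartialHomeomorph_source h2 (by simp)
  have h6 : NormedSpace.exp (0 : 𝔸) ∈ e₀.target :=
    h1.image_mem_toOpenPartialHomeomorph_target h2 (by simp)
  have h7 : e₀.symm (NormedSpace.exp 0) = 0 := e₀.left_inv h5
  refine ⟨e'.symm, fun x => rfl, ?_, ?_⟩
  · have h8 : NormedSpace.exp (0 : 𝔸) ∈ e'.source := by
      rw [OpenPartialHomeomorph.restrOpen_source]
      exact ⟨h6, h3.analyticAt⟩
    have h9 := e'.map_source h8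
    have h10 : e' (NormedSpace.exp 0) = 0 := h7
    rw [h10] at h9
    exact h9
  · intro y hy
    have h8 : y ∈ e'.source := hy
    rw [OpenPartialHomeomorph.restrOpen_source] at h8
    have h9 : AnalyticAt ℝ e₀.symm y := h8.2
    exact h9.contDiffAt

/-- the local inverse of the exponential -/
noncomputable def lg : OpenPartialHomeomorph 𝔸 𝔸 := Classical.choose (exists_lg 𝔸)

variable {𝔸}

theorem lg_apply (x : 𝔸) : lg 𝔸 x = NormedSpace.exp x := (Classical.choose_spec (exists_lg 𝔸)).1 x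

theorem zero_mem_lg : (0 : 𝔸) ∈ (lg 𝔸).source := (Classical.choose_spec (exists_lg 𝔸)).2.1

theorem contDiffAt_lg_symm {y : 𝔸} (hy : y ∈ (lg 𝔸).target) : ContDiffAt ℝ ω (lg 𝔸).symm y :=
  (Classical.choose_spec (exists_lg 𝔸)).2.2 y hy

theorem one_mem_lg : (1 : 𝔸) ∈ (lg 𝔸).target := by
  have := (lg 𝔸).map_source (zero_mem_lg (𝔸 := 𝔸))
  rwa [lg_apply, NormedSpace.exp_zero] at this

theorem lg_symm_one : (lg 𝔸).symm 1 = 0 := by
  have := (lg 𝔸).left_inv (zero_mem_lg (𝔸 := 𝔸))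
  rwa [lg_apply, NormedSpace.exp_zero] at this

theorem contDiff_exp : ContDiff ℝ ω (NormedSpace.exp : 𝔸 → 𝔸) := by
  rw [contDiff_iff_contDiffAt]
  exact fun x => (NormedSpace.exp_analytic (𝕂 := ℝ) x).contDiffAt

end log

end Pool.Agent.T2H92.LG
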