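import Pool.Agent.T2H92.SR.LocalExp
import Pool.Agent.T2H92.SR.Exp

set_option autoImplicit false

open scoped Manifold ContDiff Topology
open Set

namespace Pool.Agent.T2H92.LG

variable {𝔸 : Type*} [NormedRing 𝔸] [NormedAlgebra ℝ 𝔸] [CompleteSpace 𝔸]

/-- the adjoint representation -/
noncomputable def ad : 𝔸 →L[ℝ] (𝔸 →L[ℝ] 𝔸) :=
  ContinuousLinearMap.mul ℝ 𝔸 - (ContinuousLinearMap.mul ℝ 𝔸).flip

omit [CompleteSpace 𝔸] in
theorem ad_apply (Z X : 𝔸) : ad Z X = Z * X - X * Z := rfl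

theorem exp_ad (Z X : 𝔸) :
    (NormedSpace.exp (ad Z) : 𝔸 →L[ℝ] 𝔸) X = NormedSpace.exp Z * X * NormedSpace.exp (-Z) := by
  have hf : ∀ s, HasDerivAt (SR.flow (ad Z) X) (ad Z (SR.flow (ad Z) X s)) s :=
    SR.flow_deriv (ad Z) X
  let g : ℝ → 𝔸 := fun s => NormedSpace.exp (-(s • Z)) * SR.flow (ad Z) X s *
    NormedSpace.exp (s • Z)
  have hg : ∀ s, HasDerivAt g 0 s := by
    intro s
    have e1 : HasDerivAt (fun s : ℝ => NormedSpace.exp (-(s • Z)))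
        (-(NormedSpace.exp (-(s • Z)) * Z)) s := by
      have := hasDerivAt_exp_smul_const (𝕂 := ℝ) (-Z) s
      simpa only [smul_neg, mul_neg] using this
    have e2 : HasDerivAt (fun s : ℝ => NormedSpace.exp (s • Z)) (Z * NormedSpace.exp (s • Z)) s :=
      hasDerivAt_exp_smul_const' (𝕂 := ℝ) Z s
    have e3 := (e1.mul (hf s)).mul e2
    refine e3.congr_deriv ?_
    simp only [Pi.mul_apply, ad_apply]
    noncomm_ring
  have hg0 : g 1 = g 0 := is_const_of_deriv_eq_zero (fun s => (hg s).differentiableAt)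
    (fun s => (hg s).deriv) 1 0
  have hg1 : g 0 = X := by simp [g, SR.flow_zero]
  have hg2 : g 1 = NormedSpace.exp (-Z) * (NormedSpace.exp (ad Z) : 𝔸 →L[ℝ] 𝔸) X *
      NormedSpace.exp Z := by simp [g, SR.flow]
  rw [hg1, hg2] at hg0
  nth_rewrite 2 [← hg0]
  calc _ = (NormedSpace.exp Z * NormedSpace.exp (-Z)) * (NormedSpace.exp (ad Z) : 𝔸 →L[ℝ] 𝔸) X *
        (NormedSpace.exp Z * NormedSpace.exp (-Z)) := by
        rw [SR.exp_mul_exp_neg]; simp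
    _ = _ := by noncomm_ring

/-- operators preserving a subspace -/
def PP (W : Submodule ℝ 𝔸) : Subalgebra ℝ (𝔸 →L[ℝ] 𝔸) where
  carrier := {M | ∀ X ∈ W, M X ∈ W}
  mul_mem' := fun ha hb X hX => ha _ (hb X hX)
  add_mem' := fun ha hb X hX => W.add_mem (ha X hX) (hb X hX)
  algebraMap_mem' := fun r _ hX => W.smul_mem r hX

omit [CompleteSpace 𝔸] in
theorem isClosed_PP {W : Submodule ℝ 𝔸} (hW : IsClosed (W : Set 𝔸)) :
    IsClosed (PP W : Set (𝔸 →L[ℝ] 𝔸)) := by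
  have h1 : (PP W : Set (𝔸 →L[ℝ] 𝔸)) = ⋂ X ∈ W, {M | M X ∈ W} := by
    ext M
    simp only [mem_iInter, mem_ofPred_eq]
    rfl
  rw [h1]
  refine isClosed_biInter fun X _ => ?_
  exact hW.preimage (ContinuousLinearMap.apply ℝ 𝔸 X).continuous

/-- small logarithms of elements of a closed subalgebra are in the subalgebra -/
theorem log_sub {𝔹 : Type*} [NormedRing 𝔹] [NormedAlgebra ℝ 𝔹] [CompleteSpace 𝔹]
    (P : Subalgebra ℝ 𝔹) (hP : IsClosed (P : Set 𝔹)) :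
    ∃ S : Set 𝔹, IsOpen S ∧ (0 : 𝔹) ∈ S ∧ ∀ Y ∈ S, NormedSpace.exp Y ∈ P → Y ∈ P := by
  have hc : CompleteSpace P := hP.completeSpace_coe
  let SE := (lg 𝔹).source
  have hSE : IsOpen SE := (lg 𝔹).open_source
  have hSE0 : (0 : 𝔹) ∈ SE := zero_mem_lg
  let OP : Set P := (lg P).target ∩ (lg P).symm ⁻¹' {p | (p : 𝔹) ∈ SE}
  have hOP : IsOpen OP :=
    (lg P).isOpen_inter_preimage_symm (hSE.preimage continuous_subtype_val)
  have hOP1 : (1 : P) ∈ OP := by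
    refine ⟨one_mem_lg, ?_⟩
    show (((lg P).symm 1 : P) : 𝔹) ∈ SE
    rw [lg_symm_one]
    exact hSE0
  obtain ⟨O, hO, hOO⟩ := isOpen_induced_iff.1 hOP
  have hO1 : (1 : 𝔹) ∈ O := by
    have : (1 : P) ∈ Subtype.val ⁻¹' O := by rw [hOO]; exact hOP1
    exact this
  refine ⟨{Y | Y ∈ SE ∧ NormedSpace.exp Y ∈ O}, ?_, ?_, ?_⟩
  · exact hSE.inter (hO.preimage contDiff_exp.continuous)
  · refine ⟨hSE0, ?_⟩
    rw [NormedSpace.exp_zero]; exact hO1
  · rintro Y ⟨h1, h2⟩ h4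
    have h5 : (⟨NormedSpace.exp Y, h4⟩ : P) ∈ OP := by
      rw [← hOO]; exact h2
    set q : P := ⟨NormedSpace.exp Y, h4⟩ with hq
    set p := (lg P).symm q with hp
    have h6 : (p : 𝔹) ∈ SE := h5.2
    have h7 : NormedSpace.exp p = q := by
      rw [← lg_apply, hp, (lg P).right_inv h5.1]
    have h8 : NormedSpace.exp (p : 𝔹) = ((NormedSpace.exp p : P) : 𝔹) := by
      let _ : NormedAlgebra ℚ P := NormedAlgebra.restrictScalars ℚ ℝ P
      let _ : NormedAlgebra ℚ 𝔹 := NormedAlgebra.restrictScalars ℚ ℝ 𝔹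
      exact (NormedSpace.map_exp P.val continuous_subtype_val p).symm
    have h9 : (p : 𝔹) = Y := by
      apply (lg 𝔹).injOn h6 h1
      rw [lg_apply, lg_apply, h8, h7]
    rw [← h9]
    exact p.2

theorem log_ad {W : Submodule ℝ 𝔸} (hW : IsClosed (W : Set 𝔸)) :
    ∃ Ω : Set 𝔸, IsOpen Ω ∧ (0 : 𝔸) ∈ Ω ∧ ∀ Z ∈ Ω,
      (∀ X ∈ W, NormedSpace.exp Z * X * NormedSpace.exp (-Z) ∈ W) → ∀ X ∈ W, Z * X - X * Z ∈ W := by
  obtain ⟨S, hS, hS0, hSP⟩ := log_sub (PP W) (isClosed_PP hW)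
  refine ⟨{Z | ad Z ∈ S}, hS.preimage ad.continuous, ?_, ?_⟩
  · show ad 0 ∈ S
    rw [map_zero]; exact hS0
  · intro Z h1 h3
    have h4 : NormedSpace.exp (ad Z) ∈ PP W := by
      intro X hX
      rw [exp_ad]
      exact h3 X hX
    exact hSP _ h1 h4

end Pool.Agent.T2H92.LG
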