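import Pool.Agent.T2H92.SR.LogAd

set_option autoImplicit false

open scoped Manifold ContDiff Topology InnerProductSpace
open Set

namespace Pool.Agent.T2H92.LG

open Pool.Agent.T2H92.SR

variable {E : Type*} [NormedAddCommGroup E] [InnerProductSpace ℝ E] [CompleteSpace E]

/-- near `1` the logarithm of an element of the group `GG T` is in the Lie algebra `kk T` -/
theorem log_mem_kk (T : Fin 4 → E →L[ℝ] E) :
    ∃ N : Set (E →L[ℝ] E), IsOpen N ∧ (1 : E →L[ℝ] E) ∈ N ∧ ∀ g ∈ GG T, g ∈ N →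
      (lg (E →L[ℝ] E)).symm g ∈ kk T := by
  have hW : IsClosed (WW T : Set (E →L[ℝ] E)) := (WW T).closed_of_finiteDimensional
  obtain ⟨Ω, hΩ, hΩ0, hΩW⟩ := log_ad hW
  let S := (lg (E →L[ℝ] E)).source
  have hS : IsOpen S := (lg (E →L[ℝ] E)).open_source
  have hS0 : (0 : E →L[ℝ] E) ∈ S := zero_mem_lg
  let Q : Set (E →L[ℝ] E) := Ω ∩ (S ∩ (star ⁻¹' S ∩ Neg.neg ⁻¹' S))
  have hQ : IsOpen Q := hΩ.inter (hS.inter ((hS.preimage continuous_star).inter
    (hS.preimage continuous_neg)))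
  have hQ0 : (0 : E →L[ℝ] E) ∈ Q := by
    refine ⟨hΩ0, hS0, ?_, ?_⟩
    · show star (0 : E →L[ℝ] E) ∈ S
      rw [star_zero]; exact hS0
    · show -(0 : E →L[ℝ] E) ∈ S
      rw [neg_zero]; exact hS0
  refine ⟨(lg (E →L[ℝ] E)).target ∩ (lg (E →L[ℝ] E)).symm ⁻¹' Q,
    (lg (E →L[ℝ] E)).isOpen_inter_preimage_symm hQ, ⟨one_mem_lg, ?_⟩, ?_⟩
  · show (lg (E →L[ℝ] E)).symm 1 ∈ Q
    rw [lg_symm_one]; exact hQ0
  · rintro g ⟨hg1, hg2, hg3⟩ ⟨ht, hq⟩
    set Z := (lg (E →L[ℝ] E)).symm g with hZ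
    obtain ⟨q1, q2, q3, q4⟩ := hq
    have eZ : NormedSpace.exp Z = g := by
      rw [← lg_apply, hZ, (lg (E →L[ℝ] E)).right_inv ht]
    have e1 : NormedSpace.exp (star Z) = star g := by
      rw [← NormedSpace.star_exp, eZ]
    have e2 : NormedSpace.exp (-Z) = star g := by
      have h1 : g * NormedSpace.exp (-Z) = 1 := by rw [← eZ]; exact exp_mul_exp_neg Z
      calc NormedSpace.exp (-Z) = (star g * g) * NormedSpace.exp (-Z) := by rw [hg1, one_mul]
        _ = star g * (g * NormedSpace.exp (-Z)) := by rw [mul_assoc]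
        _ = star g := by rw [h1, mul_one]
    have e3 : star Z = -Z := by
      apply (lg (E →L[ℝ] E)).injOn q3 q4
      rw [lg_apply, lg_apply, e1, e2]
    rw [mem_kk]
    refine ⟨e3, fun k => ?_⟩
    refine hΩW Z q1 ?_ (T k) (Submodule.subset_span ⟨k, rfl⟩)
    intro X hX
    rw [eZ, e2]
    induction hX using Submodule.span_induction with
    | mem x hx => obtain ⟨k, rfl⟩ := hx; exact hg3 k
    | zero => simp
    | add x y _ _ hx hy =>
      rw [mul_add, add_mul]; exact Submodule.add_mem _ hx hy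
    | smul a x _ hx =>
      rw [mul_smul_comm, smul_mul_assoc]; exact Submodule.smul_mem _ _ hx

end Pool.Agent.T2H92.LG
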