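import Mathlib

/-!
# The trivializable sub-Riemannian seven sphere

Definitions: Clifford quadruples of `8 × 8` matrices, the linear vector fields `X(A)`, horizontal
tangent vectors of `𝕊⁷`, sub-Riemannian isometries, and Lie groups of a given dimension. The
spaces `ℝ⁷`, `ℝ⁸`, `𝕊⁷` and the tangent spaces of `𝕊⁷` are Mathlib's, under short names.
-/

set_option autoImplicit false

open scoped Manifold ContDiff Matrix

namespace Pool.Agent.T2H92.SRM

/-- `ℝ⁷`, the model space of the sphere. -/
def R7 : Type := EuclideanSpace ℝ (Fin 7)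

noncomputable instance normedGroupR7 : NormedAddCommGroup R7 :=
  PiLp.normedAddCommGroup 2 (fun _ : Fin 7 => ℝ)

noncomputable instance normedSpaceR7 : NormedSpace ℝ R7 :=
  PiLp.normedSpace 2 ℝ (fun _ : Fin 7 => ℝ)

/-- `ℝ⁸` with its Euclidean inner product. -/
def R8 : Type := EuclideanSpace ℝ (Fin 8)

noncomputable instance normedGroupR8 : NormedAddCommGroup R8 :=
  PiLp.normedAddCommGroup 2 (fun _ : Fin 8 => ℝ)

noncomputable instance innerR8 : InnerProductSpace ℝ R8 :=
  PiLp.innerProductSpace (fun _ : Fin 8 => ℝ)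

instance factR8 : Fact (Module.finrank ℝ (EuclideanSpace ℝ (Fin 8)) = 7 + 1) := ⟨by simp⟩

/-- The unit sphere `𝕊⁷ ⊂ ℝ⁸`. -/
def S7 : Type := Metric.sphere (0 : R8) 1

noncomputable instance topS7 : TopologicalSpace S7 := instTopologicalSpaceSubtype

/-- Mathlib's smooth structure (stereographic charts) of the sphere. -/
noncomputable instance chartedS7 : ChartedSpace R7 S7 :=
  EuclideanSpace.instChartedSpaceSphere (E := EuclideanSpace ℝ (Fin 8)) (n := 7)

/-- The inclusion `𝕊⁷ → ℝ⁸`. -/
def incl (x : S7) : R8 := x.1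

/-- The tangent space `T_x 𝕊⁷`. -/
def Tan (x : S7) : Type := TangentSpace 𝓘(ℝ, R7) x

/-- The differential at `x` of the inclusion `𝕊⁷ → ℝ⁸`. -/
noncomputable def dincl (x : S7) (v : Tan x) : R8 := mvfderiv 𝓘(ℝ, R7) incl x v

/-- The differential at `x` of a self-map of `𝕊⁷`. -/
noncomputable def dmap (f : S7 → S7) (x : S7) (v : Tan x) : Tan (f x) :=
  mfderiv 𝓘(ℝ, R7) 𝓘(ℝ, R7) f x v

/-- A self-map of `𝕊⁷` is smooth (`C^∞`). -/
def Smooth (f : S7 → S7) : Prop := ContMDiff 𝓘(ℝ, R7) 𝓘(ℝ, R7) ∞ f

/-- Four real skew-symmetric `8 × 8` matrices with `A_i A_j + A_j A_i = -2 δ_ij I`. -/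
structure IsCliffordQuadruple (A : Fin 4 → Matrix (Fin 8) (Fin 8) ℝ) : Prop where
  skew : ∀ i, (A i)ᵀ = -A i
  clifford : ∀ i j, A i * A j + A j * A i = if i = j then (-2 : ℝ) • 1 else 0

/-- The value at `x` of the linear vector field `X(A) = ∑_{i,j} A_ij x_j ∂/∂x_i`. -/
noncomputable def X (A : Matrix (Fin 8) (Fin 8) ℝ) (x : R8) : R8 :=
  WithLp.toLp 2 (A.mulVec (WithLp.ofLp x))

/-- The tangent vector `v ∈ T_x 𝕊⁷` is horizontal: as a vector of `ℝ⁸` it is a linear combination
of `X(A_1) x, ..., X(A_4) x`. -/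
def Horizontal (A : Fin 4 → Matrix (Fin 8) (Fin 8) ℝ) (x : S7) (v : Tan x) : Prop :=
  ∃ c : Fin 4 → ℝ, dincl x v = ∑ k, c k • X (A k) (incl x)

/-- A sub-Riemannian isometry of `𝕊⁷_T`: a homeomorphism of `𝕊⁷`, smooth with smooth inverse,
whose differential maps horizontal vectors to horizontal vectors and preserves their inner
products (for the restriction of the round metric). -/
structure IsSRIsometry (A : Fin 4 → Matrix (Fin 8) (Fin 8) ℝ) (f : S7 ≃ₜ S7) : Prop where
  smooth : Smooth f
  smooth_symm : Smooth f.symm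
  map_hor : ∀ x v, Horizontal A x v → Horizontal A (f x) (dmap f x v)
  isometric : ∀ x v w, Horizontal A x v → Horizontal A x w →
    inner ℝ (dincl (f x) (dmap f x v)) (dincl (f x) (dmap f x w)) =
      inner ℝ (dincl x v) (dincl x w)

/-- The compact-open topology on the group of homeomorphisms of `𝕊⁷`. -/
noncomputable instance topHomeo : TopologicalSpace (S7 ≃ₜ S7) :=
  TopologicalSpace.induced (fun f => (f : C(S7, S7))) ContinuousMap.compactOpen

/-- The topological group `G` is a (Hausdorff, second countable) Lie group of dimension `n`: there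
is an atlas on `G`, with its given topology, of charts in `ℝⁿ`, with smooth coordinate changes, for
which the multiplication and the inversion are smooth. -/
def IsLieGroupOfDim (n : ℕ) (G : Type) [Group G] [TopologicalSpace G] : Prop :=
  T2Space G ∧ SecondCountableTopology G ∧
    ∃ _ : ChartedSpace (EuclideanSpace ℝ (Fin n)) G, LieGroup (𝓡 n) ∞ G

end Pool.Agent.T2H92.SRM
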