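import Pool.Agent.T2H92.SR.Cliff

set_option autoImplicit false

open scoped InnerProductSpace RealInnerProductSpace Matrix

namespace Pool.Agent.T2H92.SR

/-- `rᵀ u r` -/
def conj (r u : Fin 4 → Fin 4 → ℝ) : Fin 4 → Fin 4 → ℝ := fun j l => ∑ k, ∑ i, u k i * r k j * r i l

theorem conj_eq (r u : Fin 4 → Fin 4 → ℝ) :
    Matrix.of (conj r u) = (Matrix.of r)ᵀ * Matrix.of u * Matrix.of r := by
  ext j l
  simp only [conj, Matrix.mul_apply, Matrix.of_apply, Matrix.transpose_apply, Finset.sum_mul]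
  rw [Finset.sum_comm]
  refine Finset.sum_congr rfl fun k _ => Finset.sum_congr rfl fun i _ => by ring

theorem conj_anti {r u : Fin 4 → Fin 4 → ℝ} (hu : Anti u) : Anti (conj r u) := by
  intro j l
  simp only [conj]
  rw [Finset.sum_comm, ← Finset.sum_neg_distrib]
  refine Finset.sum_congr rfl fun k _ => ?_
  rw [← Finset.sum_neg_distrib]
  refine Finset.sum_congr rfl fun i _ => ?_
  rw [hu k i]
  ring

theorem Nm_eq {u : Fin 4 → Fin 4 → ℝ} (hu : Anti u) :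
    Nm u = (Matrix.of u * (Matrix.of u)ᵀ).trace / 2 := by
  simp only [Matrix.trace, Matrix.diag, Matrix.mul_apply, Matrix.transpose_apply, Matrix.of_apply,
    Fin.sum_univ_four, Nm, hu.diag, hu 0 1, hu 0 2, hu 0 3, hu 1 2, hu 1 3, hu 2 3]
  ring

theorem Nm_conj {r u : Fin 4 → Fin 4 → ℝ} (hu : Anti u)
    (hr : Matrix.of r * (Matrix.of r)ᵀ = 1) : Nm (conj r u) = Nm u := by
  rw [Nm_eq hu, Nm_eq (conj_anti hu), conj_eq]
  congr 1
  rw [Matrix.transpose_mul, Matrix.transpose_mul, Matrix.transpose_transpose]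
  have : (Matrix.of r)ᵀ * Matrix.of u * Matrix.of r * ((Matrix.of r)ᵀ * ((Matrix.of u)ᵀ * Matrix.of r))
      = (Matrix.of r)ᵀ * (Matrix.of u * (Matrix.of u)ᵀ * Matrix.of r) := by
    calc _ = (Matrix.of r)ᵀ * Matrix.of u * (Matrix.of r * (Matrix.of r)ᵀ) *
        ((Matrix.of u)ᵀ * Matrix.of r) := by simp only [Matrix.mul_assoc]
      _ = _ := by rw [hr]; simp only [Matrix.mul_assoc, Matrix.one_mul, Matrix.mul_one]
  rw [this, Matrix.trace_mul_comm, Matrix.mul_assoc, hr, Matrix.mul_one]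

theorem det4 (r : Fin 4 → Fin 4 → ℝ) : (Matrix.of r).det =
    r 0 0 * (r 1 1 * (r 2 2 * r 3 3 - r 2 3 * r 3 2) - r 1 2 * (r 2 1 * r 3 3 - r 2 3 * r 3 1)
      + r 1 3 * (r 2 1 * r 3 2 - r 2 2 * r 3 1))
    - r 0 1 * (r 1 0 * (r 2 2 * r 3 3 - r 2 3 * r 3 2) - r 1 2 * (r 2 0 * r 3 3 - r 2 3 * r 3 0)
      + r 1 3 * (r 2 0 * r 3 2 - r 2 2 * r 3 0))
    + r 0 2 * (r 1 0 * (r 2 1 * r 3 3 - r 2 3 * r 3 1) - r 1 1 * (r 2 0 * r 3 3 - r 2 3 * r 3 0)
      + r 1 3 * (r 2 0 * r 3 1 - r 2 1 * r 3 0))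
    - r 0 3 * (r 1 0 * (r 2 1 * r 3 2 - r 2 2 * r 3 1) - r 1 1 * (r 2 0 * r 3 2 - r 2 2 * r 3 0)
      + r 1 2 * (r 2 0 * r 3 1 - r 2 1 * r 3 0)) := by
  rw [Matrix.det_succ_row_zero]
  simp only [Fin.sum_univ_four, Matrix.det_fin_three, Matrix.submatrix_apply, Matrix.of_apply]
  have e1 : (Fin.succAbove (0 : Fin 4) : Fin 3 → Fin 4) = ![1, 2, 3] := by ext i; fin_cases i <;> rfl
  have e2 : (Fin.succAbove (1 : Fin 4) : Fin 3 → Fin 4) = ![0, 2, 3] := by ext i; fin_cases i <;> rfl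
  have e3 : (Fin.succAbove (2 : Fin 4) : Fin 3 → Fin 4) = ![0, 1, 3] := by ext i; fin_cases i <;> rfl
  have e4 : (Fin.succAbove (3 : Fin 4) : Fin 3 → Fin 4) = ![0, 1, 2] := by ext i; fin_cases i <;> rfl
  have s0 : Fin.succ (0 : Fin 3) = 1 := rfl
  have s1 : Fin.succ (1 : Fin 3) = 2 := rfl
  have s2 : Fin.succ (2 : Fin 3) = 3 := rfl
  simp only [e1, e2, e3, e4, s0, s1, s2]
  simp
  ring

theorem Pf_conj {r u : Fin 4 → Fin 4 → ℝ} (hu : Anti u) :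
    Pf (conj r u) = (Matrix.of r).det * Pf u := by
  rw [det4]
  simp only [Pf, conj, Fin.sum_univ_four, hu.diag, hu 0 1, hu 0 2, hu 0 3, hu 1 2, hu 1 3, hu 2 3]
  ring

/-- existence of a nonzero bivector whose action is horizontal -/
theorem Cliff.exists_bivector {E : Type*} [NormedAddCommGroup E] [InnerProductSpace ℝ E]
    {T : Fin 4 → E →L[ℝ] E} (h : Cliff T) (hdim : Module.finrank ℝ E = 8) {x : E} (hx : ‖x‖ = 1) :
    ∃ (u : Fin 4 → Fin 4 → ℝ) (w : Fin 4 → ℝ), Anti u ∧ Nm u ≠ 0 ∧ Bw T u x = Aw T w x := by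
  have : FiniteDimensional ℝ E := Module.finite_of_finrank_pos (by rw [hdim]; norm_num)
  let m : (Fin 6 → ℝ) → Fin 4 → Fin 4 → ℝ := fun a =>
    ![![0, a 0, a 1, a 2], ![-a 0, 0, a 3, a 4], ![-a 1, -a 3, 0, a 5], ![-a 2, -a 4, -a 5, 0]]
  have hm : ∀ a, Anti (m a) := by
    intro a i j
    fin_cases i <;> fin_cases j <;> simp [m]
  let L : ((Fin 6 → ℝ) × (Fin 4 → ℝ) × ℝ) →ₗ[ℝ] E :=
    { toFun := fun p => p.1 0 • T 0 (T 1 x) + p.1 1 • T 0 (T 2 x) + p.1 2 • T 0 (T 3 x)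
        + p.1 3 • T 1 (T 2 x) + p.1 4 • T 1 (T 3 x) + p.1 5 • T 2 (T 3 x)
        - (∑ i, p.2.1 i • T i x) - p.2.2 • x
      map_add' := by
        intro p q
        simp only [Prod.fst_add, Prod.snd_add, Pi.add_apply, Fin.sum_univ_four]
        module
      map_smul' := by
        intro c p
        simp only [Prod.smul_fst, Prod.smul_snd, Pi.smul_apply, Fin.sum_univ_four, smul_eq_mul,
          RingHom.id_apply]
        module }
  have hker : LinearMap.ker L ≠ ⊥ := by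
    apply LinearMap.ker_ne_bot_of_finrank_lt
    rw [hdim]
    simp
  obtain ⟨p, hp, hp0⟩ := (Submodule.ne_bot_iff _).1 hker
  have hL : L p = 0 := hp
  have hB : Bw T (m p.1) x = Aw T p.2.1 x + p.2.2 • x := by
    rw [h.Bw_eq (hm _), Aw_apply]
    have h1 : p.1 0 • T 0 (T 1 x) + p.1 1 • T 0 (T 2 x) + p.1 2 • T 0 (T 3 x)
        + p.1 3 • T 1 (T 2 x) + p.1 4 • T 1 (T 3 x) + p.1 5 • T 2 (T 3 x)
        - (∑ i, p.2.1 i • T i x) - p.2.2 • x = 0 := hL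
    have h2 : m p.1 0 1 = p.1 0 := rfl
    have h3 : m p.1 0 2 = p.1 1 := rfl
    have h4 : m p.1 0 3 = p.1 2 := rfl
    have h5 : m p.1 1 2 = p.1 3 := rfl
    have h6 : m p.1 1 3 = p.1 4 := rfl
    have h7 : m p.1 2 3 = p.1 5 := rfl
    rw [h2, h3, h4, h5, h6, h7]
    rw [← sub_eq_zero, ← h1]
    module
  have hs : p.2.2 = 0 := by
    have h1 := congrArg (fun y => ⟪y, x⟫) hB
    simp only [inner_add_left, h.inner_Bw_self (hm _), h.inner_Aw_self, inner_smul_left,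
      real_inner_self_eq_norm_sq, hx] at h1
    simpa using h1.symm
  rw [hs, zero_smul, add_zero] at hB
  refine ⟨m p.1, p.2.1, hm _, ?_, hB⟩
  intro hN
  have hz : ∀ i, p.1 i = 0 := by
    have h1 : p.1 0 ^ 2 + p.1 1 ^ 2 + p.1 2 ^ 2 + p.1 3 ^ 2 + p.1 4 ^ 2 + p.1 5 ^ 2 = 0 := hN
    intro i
    have : p.1 i ^ 2 = 0 := by
      fin_cases i <;> simp only [Fin.zero_eta, Fin.mk_one, Fin.reduceFinMk] <;>
      nlinarith [sq_nonneg (p.1 0), sq_nonneg (p.1 1), sq_nonneg (p.1 2), sq_nonneg (p.1 3),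
        sq_nonneg (p.1 4), sq_nonneg (p.1 5)]
    exact pow_eq_zero_iff (two_ne_zero) |>.1 this
  have hw : ∀ i, p.2.1 i = 0 := by
    intro i
    have h1 : Bw T (m p.1) x = 0 := by
      rw [h.Bw_eq (hm _)]
      have h2 : m p.1 0 1 = 0 := hz 0
      have h3 : m p.1 0 2 = 0 := hz 1
      have h4 : m p.1 0 3 = 0 := hz 2
      have h5 : m p.1 1 2 = 0 := hz 3
      have h6 : m p.1 1 3 = 0 := hz 4
      have h7 : m p.1 2 3 = 0 := hz 5
      rw [h2, h3, h4, h5, h6, h7]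
      simp
    have h2 := h.inner_Aw_T p.2.1 i x
    rw [← hB, h1, inner_zero_left, hx] at h2
    linarith
  apply hp0
  refine Prod.ext (funext hz) (Prod.ext (funext hw) hs)

end Pool.Agent.T2H92.SR
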