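import Pool.Agent.T2H92.SR.Linear

set_option autoImplicit false

open scoped InnerProductSpace RealInnerProductSpace Matrix
open Set

namespace Pool.Agent.T2H92.SR

variable {E : Type*} [NormedAddCommGroup E] [InnerProductSpace ℝ E]
variable {T : Fin 4 → E →L[ℝ] E}

theorem Cliff.exists_both (h : Cliff T) (hdim : Module.finrank ℝ E = 8) :
    ∃ a b : E, a ≠ 0 ∧ b ≠ 0 ∧ vol T a = a ∧ vol T b = -b := by
  have : Nontrivial E := Module.nontrivial_of_finrank_pos (R := ℝ) (by rw [hdim]; norm_num)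
  obtain ⟨x, hx⟩ := exists_ne (0 : E)
  have hT : ∀ y : E, y ≠ 0 → T 0 y ≠ 0 := by
    intro y hy h0
    apply hy
    have := h.norm_T 0 y
    rw [h0, norm_zero] at this
    exact norm_eq_zero.1 this.symm
  by_cases hp : pos T x = 0
  · have hn : neg T x = x := by
      have := pos_add_neg T x
      rwa [hp, zero_add] at this
    have vn : vol T x = -x := by rw [← hn]; exact h.vol_neg x
    exact ⟨T 0 x, x, hT x hx, hx, by rw [h.vol_T, vn, map_neg, neg_neg], vn⟩
  · exact ⟨pos T x, T 0 (pos T x), hp, hT _ hp, h.vol_pos x, by rw [h.vol_T, h.vol_pos]⟩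

theorem Cliff.Aw_inj (h : Cliff T) {w w' : Fin 4 → ℝ} {x : E} (hx : x ≠ 0)
    (he : Aw T w x = Aw T w' x) : w = w' := by
  funext j
  have h1 := h.inner_Aw_T w j x
  rw [he, h.inner_Aw_T] at h1
  have h2 : ‖x‖ ^ 2 ≠ 0 := pow_ne_zero 2 (norm_ne_zero_iff.2 hx)
  exact (mul_right_cancel₀ h2 h1).symm

/-- an operator which is pointwise a combination of the `T k` is a combination -/
theorem span_const (h : Cliff T) (hdim : Module.finrank ℝ E = 8) {B : E →L[ℝ] E}
    (hB : ∀ y, ∃ w, B y = Aw T w y) : ∃ w, B = Aw T w := by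
  obtain ⟨a, b, ha, hb, va, vb⟩ := h.exists_both hdim
  have split : ∀ y z, vol T y = y → vol T z = -z → ∃ w, B y = Aw T w y ∧ B z = Aw T w z := by
    intro y z hy hz
    obtain ⟨w1, h1⟩ := hB y
    obtain ⟨w2, h2⟩ := hB z
    obtain ⟨w, hw⟩ := hB (y + z)
    rw [map_add, map_add] at hw
    have e1 : vol T (B y - Aw T w y) = -(B y - Aw T w y) := by
      rw [h1, map_sub, h.vol_Aw, h.vol_Aw, hy]
      abel
    have e2 : vol T (B z - Aw T w z) = B z - Aw T w z := by
      rw [h2, map_sub, h.vol_Aw, h.vol_Aw, hz, map_neg, map_neg]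
      abel
    have e3 : B y - Aw T w y = -(B z - Aw T w z) := by
      rw [← sub_eq_zero]
      rw [← sub_eq_zero] at hw
      rw [← hw]
      abel
    have e4 : B y - Aw T w y = 0 := by
      have h5 := e1
      rw [e3, map_neg, e2, neg_neg] at h5
      have h6 : (2 : ℝ) • (B z - Aw T w z) = 0 := by
        rw [two_smul]
        nth_rewrite 1 [← h5]
        exact neg_add_cancel _
      have h7 := (smul_eq_zero.1 h6).resolve_left two_ne_zero
      rw [e3, h7, neg_zero]
    refine ⟨w, sub_eq_zero.1 e4, ?_⟩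
    rw [e4, eq_comm, neg_eq_zero] at e3
    exact sub_eq_zero.1 e3
  obtain ⟨w0, hwa, hwb⟩ := split a b va vb
  refine ⟨w0, ?_⟩
  ext y
  rw [← pos_add_neg T y, map_add, map_add]
  have e1 : B (pos T y) = Aw T w0 (pos T y) := by
    obtain ⟨w, h1, h2⟩ := split (pos T y) b (h.vol_pos y) vb
    rw [h1, h.Aw_inj hb (h2.symm.trans hwb)]
  have e2 : B (neg T y) = Aw T w0 (neg T y) := by
    obtain ⟨w, h1, h2⟩ := split a (neg T y) va (h.vol_neg y)
    rw [h2, h.Aw_inj ha (h1.symm.trans hwa)]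
  rw [e1, e2]

/-- the differential of the degree zero extension versus the linear map -/
theorem fderiv_rel {F : E → E} {g : E →L[ℝ] E} (h : Cliff T) (hF : Iso T F)
    (hg : ∀ x, ‖x‖ • F x = g x) {z : E} (hz : z ≠ 0) (w : Fin 4 → ℝ) :
    ∃ w', g (Aw T w z) = Aw T w' (g z) := by
  obtain ⟨w', hw'⟩ := hF.hor z hz w
  have hd : DifferentiableAt ℝ F z := (hF.smooth z hz).differentiableAt (by norm_num)
  have e1 : HasFDerivAt (fun x => ‖x‖ • F x)
      (‖z‖ • fderiv ℝ F z + (fderiv ℝ (fun x : E => ‖x‖) z).smulRight (F z)) z :=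
    ((differentiableAt_id).norm ℝ hz).hasFDerivAt.smul hd.hasFDerivAt
  have e2 : (fun x => ‖x‖ • F x) = g := funext hg
  rw [e2] at e1
  have e3 := g.hasFDerivAt.unique e1
  have e4 := congrArg (fun L : E →L[ℝ] E => L (Aw T w z)) e3
  simp only [add_apply, smul_apply, ContinuousLinearMap.smulRight_apply] at e4
  have e5 : fderiv ℝ (fun x : E => ‖x‖) z (Aw T w z) = 0 := by
    have e6 : HasFDerivAt (fun x : E => ‖x‖ ^ 2) (2 • innerSL ℝ z) z := by
      simpa using (hasStrictFDerivAt_norm_sq z).hasFDerivAt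
    have e7 := (((differentiableAt_id (𝕜 := ℝ) (x := z)).norm ℝ hz).hasFDerivAt.pow 2)
    have e8 := e6.unique e7
    have e9 := congrArg (fun L : E →L[ℝ] ℝ => L (Aw T w z)) e8
    have e10 : ⟪z, Aw T w z⟫ = 0 := by rw [real_inner_comm]; exact h.inner_Aw_self w z
    simp at e9
    rw [e10, mul_zero, eq_comm] at e9
    have e11 : ‖z‖ ≠ 0 := norm_ne_zero_iff.2 hz
    have e12 : (2 * ‖z‖) ≠ 0 := mul_ne_zero two_ne_zero e11
    exact (mul_eq_zero.1 e9).resolve_left e12
  rw [e5, zero_smul, add_zero, hw'] at e4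
  refine ⟨w', ?_⟩
  rw [e4, ← hg, map_smul]

end Pool.Agent.T2H92.SR
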