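import Pool.Agent.T2H92.SR.Ext

set_option autoImplicit false

open scoped Manifold ContDiff InnerProductSpace RealInnerProductSpace Matrix Topology
open Set

namespace Pool.Agent.T2H92.SR

theorem norm_coe (p : S7) : ‖(p : E8)‖ = 1 := mem_sphere_zero_iff_norm.1 p.2

theorem coe_ne (p : S7) : (p : E8) ≠ 0 := by
  rw [← norm_ne_zero_iff, norm_coe]; exact one_ne_zero

theorem exists_curve (p : S7) (v : E8) (hv : ⟪(p : E8), v⟫ = 0) :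
    ∃ c : ℝ → S7, ContMDiff 𝓘(ℝ, ℝ) (𝓡 7) ∞ c ∧ c 0 = p ∧ HasDerivAt (fun t => (c t : E8)) v 0 := by
  have hp := norm_coe p
  have spos : ∀ t : ℝ, 0 < 1 + t ^ 2 * ‖v‖ ^ 2 := fun t => by positivity
  let f : ℝ → E8 := fun t => (√(1 + t ^ 2 * ‖v‖ ^ 2))⁻¹ • ((p : E8) + t • v)
  have hf : ContDiff ℝ ∞ f := by
    have h1 : ContDiff ℝ ∞ (fun t : ℝ => 1 + t ^ 2 * ‖v‖ ^ 2) :=
      contDiff_const.add ((contDiff_id.pow 2).mul contDiff_const)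
    have h2 : ContDiff ℝ ∞ (fun t : ℝ => √(1 + t ^ 2 * ‖v‖ ^ 2)) := h1.sqrt fun t => (spos t).ne'
    have h3 : ContDiff ℝ ∞ (fun t : ℝ => (√(1 + t ^ 2 * ‖v‖ ^ 2))⁻¹) :=
      h2.inv fun t => (Real.sqrt_pos.2 (spos t)).ne'
    exact h3.smul (contDiff_const.add (contDiff_id.smul contDiff_const))
  have hn : ∀ t, f t ∈ Metric.sphere (0 : E8) 1 := by
    intro t
    rw [mem_sphere_zero_iff_norm]
    have h1 : ‖(p : E8) + t • v‖ ^ 2 = 1 + t ^ 2 * ‖v‖ ^ 2 := by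
      rw [norm_add_sq_real, inner_smul_right, hv, hp, norm_smul, mul_pow, Real.norm_eq_abs, sq_abs]
      ring
    show ‖(√(1 + t ^ 2 * ‖v‖ ^ 2))⁻¹ • ((p : E8) + t • v)‖ = 1
    rw [← h1, Real.sqrt_sq (norm_nonneg _), norm_smul, norm_inv, norm_norm]
    refine inv_mul_cancel₀ ?_
    intro h0
    rw [h0] at h1
    have := spos t
    rw [← h1] at this
    norm_num at this
  refine ⟨fun t => ⟨f t, hn t⟩, ?_, ?_, ?_⟩
  · exact hf.contMDiff.codRestrict_sphere hn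
  · apply Subtype.ext
    show (√(1 + (0 : ℝ) ^ 2 * ‖v‖ ^ 2))⁻¹ • ((p : E8) + (0 : ℝ) • v) = p
    simp
  · show HasDerivAt f v 0
    have h1 : HasDerivAt (fun t : ℝ => 1 + t ^ 2 * ‖v‖ ^ 2) 0 0 := by
      have := (((hasDerivAt_id (0 : ℝ)).pow 2).mul_const (‖v‖ ^ 2)).const_add 1
      simpa using this
    have h2 : HasDerivAt (fun t : ℝ => √(1 + t ^ 2 * ‖v‖ ^ 2)) 0 0 := by
      have := h1.sqrt (by simp)
      simpa using this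
    have h3 : HasDerivAt (fun t : ℝ => (√(1 + t ^ 2 * ‖v‖ ^ 2))⁻¹) 0 0 := by
      refine (h2.inv (by simp)).congr_deriv ?_
      simp
    have h4 : HasDerivAt (fun t : ℝ => (p : E8) + t • v) v 0 := by
      have := ((hasDerivAt_id (0 : ℝ)).smul_const v).const_add (p : E8)
      simpa using this
    refine (h3.smul h4).congr_deriv ?_
    simp

theorem dι_curve {c : ℝ → S7} (hc : ContMDiff 𝓘(ℝ, ℝ) (𝓡 7) ∞ c) {v : E8} {t : ℝ}
    (hv : HasDerivAt (fun t => (c t : E8)) v t) :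
    dι (c t) (mfderiv 𝓘(ℝ, ℝ) (𝓡 7) c t (1 : ℝ)) = v := by
  have h1 : MDifferentiableAt 𝓘(ℝ, ℝ) (𝓡 7) c t := (hc t).mdifferentiableAt (by simp)
  have h2 : MDifferentiableAt (𝓡 7) 𝓘(ℝ, E8) ((↑) : S7 → E8) (c t) :=
    (contMDiff_coe_sphere (m := ∞) (c t)).mdifferentiableAt (by simp)
  have h3 := mfderiv_comp_apply t h2 h1 (1 : ℝ)
  have h4 : mfderiv 𝓘(ℝ, ℝ) 𝓘(ℝ, E8) (((↑) : S7 → E8) ∘ c) t = fderiv ℝ (fun t => (c t : E8)) t := by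
    rw [mfderiv_eq_fderiv]; rfl
  rw [h4, hv.hasFDerivAt.fderiv] at h3
  have h5 : (dι (c t)) (mfderiv 𝓘(ℝ, ℝ) (𝓡 7) c t (1 : ℝ)) =
    mfderiv (𝓡 7) 𝓘(ℝ, E8) ((↑) : S7 → E8) (c t) (mfderiv 𝓘(ℝ, ℝ) (𝓡 7) c t (1 : ℝ)) := rfl
  rw [h5]
  refine h3.symm.trans ?_
  show (1 : ℝ) • v = v
  rw [one_smul]

/-- derivative of the extension along a horizontal direction -/
theorem fderiv_ext {A : Fin 4 → Matrix (Fin 8) (Fin 8) ℝ} (hA : IsCliffordQuadruple A)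
    {φ : S7 → S7} (hφ : ContMDiff (𝓡 7) (𝓡 7) ∞ φ) {z : E8} (hz : z ≠ 0) (w : Fin 4 → ℝ) :
    ∃ (p : S7) (v : TangentSpace (𝓡 7) p), ext φ z = φ p ∧ dι p v = Aw (TT A) w p ∧
      fderiv ℝ (ext φ) z (Aw (TT A) w z) = dι (φ p) (mfderiv (𝓡 7) (𝓡 7) φ p v) := by
  have h := cliff_TT hA
  set p : S7 := ⟨(‖z‖⁻¹ : ℝ) • z, norm_inv_smul_mem hz⟩ with hp
  have hzp : z = ‖z‖ • (p : E8) := by
    show z = ‖z‖ • ((‖z‖⁻¹ : ℝ) • z)
    rw [smul_smul, mul_inv_cancel₀ (norm_ne_zero_iff.2 hz), one_smul]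
  have hx : ext φ z = φ p := ext_of_ne φ hz
  obtain ⟨c, hc, hc0, hcd⟩ := exists_curve p (Aw (TT A) w p)
    (by rw [real_inner_comm]; exact h.inner_Aw_self w _)
  have hcz : c 0 = p := hc0
  clear_value p
  subst hc0
  refine ⟨c 0, mfderiv 𝓘(ℝ, ℝ) (𝓡 7) c 0 (1 : ℝ), hx, dι_curve hc hcd, ?_⟩
  have hd : HasFDerivAt (ext φ) (fderiv ℝ (ext φ) z) z :=
    ((contDiffAt_ext hφ hz).differentiableAt (by simp)).hasFDerivAt
  have e1 : HasDerivAt (fun t => ‖z‖ • (c t : E8)) (‖z‖ • Aw (TT A) w (c 0)) 0 := hcd.const_smul ‖z‖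
  have e2 : HasDerivAt (fun t => ext φ (‖z‖ • (c t : E8)))
      (fderiv ℝ (ext φ) z (‖z‖ • Aw (TT A) w (c 0))) 0 := by
    have hd' : HasFDerivAt (ext φ) (fderiv ℝ (ext φ) z) ((fun t => ‖z‖ • (c t : E8)) 0) := by
      show HasFDerivAt (ext φ) (fderiv ℝ (ext φ) z) (‖z‖ • (c 0 : E8))
      rw [← hzp]; exact hd
    exact hd'.comp_hasDerivAt 0 e1
  have e3 : (fun t => ext φ (‖z‖ • (c t : E8))) = fun t => (φ (c t) : E8) := by
    funext t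
    rw [ext_smul φ (coe_ne _) (norm_pos_iff.2 hz), ext_coe]
  rw [e3, ← map_smul (Aw (TT A) w), ← hzp] at e2
  have e4 := dι_curve (hφ.comp hc) (t := 0) e2
  rw [← e4]
  have h1 : MDifferentiableAt 𝓘(ℝ, ℝ) (𝓡 7) c 0 := (hc 0).mdifferentiableAt (by simp)
  have h2 : MDifferentiableAt (𝓡 7) (𝓡 7) φ (c 0) := (hφ (c 0)).mdifferentiableAt (by simp)
  have h3 := mfderiv_comp_apply (0 : ℝ) h2 h1 (1 : ℝ)
  rw [← h3]
  rfl

/-- the extension of a sub-Riemannian isometry -/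
theorem iso_ext {A : Fin 4 → Matrix (Fin 8) (Fin 8) ℝ} (hA : IsCliffordQuadruple A)
    {φ : S7 ≃ₘ⟮𝓡 7, 𝓡 7⟯ S7} (hφ : IsSRIsometry A φ) : Iso (TT A) (ext φ) := by
  have h := cliff_TT hA
  refine ⟨fun z hz => ?_, fun z hz => ?_, fun z hz w => ?_, fun z hz w => ?_⟩
  · exact (contDiffAt_ext φ.contMDiff hz).of_le ENat.LEInfty.out
  · rw [ext_of_ne _ hz]; exact norm_coe _
  · obtain ⟨p, v, h1, h2, h3⟩ := fderiv_ext hA φ.contMDiff hz w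
    have h4 : v ∈ Hor A p := mem_Hor.2 ⟨w, h2⟩
    obtain ⟨w', hw'⟩ := mem_Hor.1 (hφ.map_hor p v h4)
    exact ⟨w', by rw [h3, h1, hw']⟩
  · obtain ⟨p, v, h1, h2, h3⟩ := fderiv_ext hA φ.contMDiff hz w
    have h4 : v ∈ Hor A p := mem_Hor.2 ⟨w, h2⟩
    rw [h3, ← real_inner_self_eq_norm_sq, hφ.isometric p v h4 v h4, h2, real_inner_self_eq_norm_sq,
      h.norm_Aw_sq, norm_coe]
    simp

end Pool.Agent.T2H92.SR
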